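import Mathlib

/-!
# MP_a65497_an: elementary asymptotics
-/

set_option autoImplicit false

namespace Pool.Agent.GU

open Filter Topology

theorem poly_exp (N : ℕ) {c α : ℝ} (hc : 0 < c) (hα : 1 ≤ α) :
    ∃ M : ℝ, 0 < M ∧ ∀ u : ℝ, 0 ≤ u → (1 + u) ^ N ≤ M * Real.exp (c * u ^ α) := by
  refine ⟨N.factorial * (c ^ N)⁻¹ * Real.exp (2 * c), by positivity, fun u hu => ?_⟩
  have h1 := Real.pow_div_factorial_le_exp (c * (1 + u)) (by positivity) N
  rw [div_le_iff₀ (by positivity), mul_pow] at h1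
  have h2 : (1 + u) ^ N ≤ (c ^ N)⁻¹ * (Real.exp (c * (1 + u)) * N.factorial) := by
    rw [← div_eq_inv_mul, le_div_iff₀ (by positivity)]
    linarith
  refine h2.trans ?_
  have h3 : c * (1 + u) ≤ 2 * c + c * u ^ α := by
    have h4 : u ≤ 1 + u ^ α := by
      rcases le_total u 1 with h | h
      · have := Real.rpow_nonneg hu α
        linarith
      · have := Real.self_le_rpow_of_one_le h hα
        linarith
    nlinarith
  calc (c ^ N)⁻¹ * (Real.exp (c * (1 + u)) * N.factorial)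
      ≤ (c ^ N)⁻¹ * (Real.exp (2 * c + c * u ^ α) * N.factorial) := by
        have := Real.exp_le_exp.2 h3
        gcongr
    _ = _ := by rw [Real.exp_add]; ring

/-- a power against a stretched exponential -/
theorem poly_exp_small (N : ℕ) {a β : ℝ} (ha : 0 < a) (hβ : 0 < β) (C : ℝ) (hC : 0 < C) :
    ∃ R : ℝ, 1 ≤ R ∧ ∀ r : ℝ, R ≤ r → C * (1 + r) ^ N * Real.exp (-(a * r ^ β)) < 1 := by
  obtain ⟨m, hm⟩ := exists_nat_ge ((N + 1) / β)
  have hm2 : (N : ℝ) + 1 ≤ m * β := by rwa [div_le_iff₀ hβ] at hm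
  set K : ℝ := C * 2 ^ N * m.factorial / a ^ m with hK
  have hK0 : 0 < K := by positivity
  refine ⟨K + 1, by linarith, fun r hr => ?_⟩
  have hr1 : 1 ≤ r := by linarith
  have hr0 : 0 < r := by linarith
  have h1 := Real.pow_div_factorial_le_exp (a * r ^ β) (by positivity) m
  rw [div_le_iff₀ (by positivity), mul_pow] at h1
  have h2 : r ^ (N + 1) ≤ (r ^ β) ^ m := by
    rw [← Real.rpow_natCast (r ^ β), ← Real.rpow_mul hr0.le, ← Real.rpow_natCast r]
    apply Real.rpow_le_rpow_of_exponent_le hr1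
    push_cast
    linarith
  have h3 : (1 + r) ^ N ≤ 2 ^ N * r ^ N := by
    rw [← mul_pow]
    exact pow_le_pow_left₀ (by positivity) (by linarith) N
  have hexp := Real.exp_pos (a * r ^ β)
  rw [Real.exp_neg, ← div_eq_mul_inv, div_lt_one hexp]
  have h4 : a ^ m * r ^ (N + 1) ≤ Real.exp (a * r ^ β) * m.factorial :=
    (mul_le_mul_of_nonneg_left h2 (by positivity)).trans h1
  have h5 : C * (1 + r) ^ N ≤ C * (2 ^ N * r ^ N) := mul_le_mul_of_nonneg_left h3 hC.le
  refine h5.trans_lt ?_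
  -- K < r
  have h6 : K * (a ^ m * r ^ N) = C * (2 ^ N * r ^ N) * m.factorial := by
    rw [hK]; field_simp
  have hrN : 0 < r ^ N := by positivity
  have hf : (0 : ℝ) < m.factorial := by exact_mod_cast Nat.factorial_pos m
  have h7 : K * (a ^ m * r ^ N) < r * (a ^ m * r ^ N) :=
    mul_lt_mul_of_pos_right (by linarith) (by positivity)
  have h8 : r * (a ^ m * r ^ N) = a ^ m * r ^ (N + 1) := by ring
  rw [h6, h8] at h7
  exact lt_of_mul_lt_mul_right (h7.trans_le h4) hf.le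

/-- eventually `r ^ α` is large -/
theorem rpow_large {α : ℝ} (hα : 0 < α) (A : ℝ) : ∃ R : ℝ, 1 ≤ R ∧ ∀ r : ℝ, R ≤ r → A ≤ r ^ α := by
  obtain ⟨R, hR⟩ := (tendsto_rpow_atTop hα).eventually_ge_atTop A |>.exists_forall_of_atTop
  exact ⟨max R 1, le_max_right _ _, fun r hr => hR r ((le_max_left _ _).trans hr)⟩

theorem rpow_small {β : ℝ} (hβ : β < 0) {A : ℝ} (hA : 0 < A) :
    ∃ R : ℝ, 1 ≤ R ∧ ∀ r : ℝ, R ≤ r → r ^ β ≤ A := by
  obtain ⟨R, h1, hR⟩ := rpow_large (α := -β) (by linarith) A⁻¹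
  refine ⟨R, h1, fun r hr => ?_⟩
  have h2 := hR r hr
  have hr0 : 0 < r := by linarith
  rw [Real.rpow_neg hr0.le] at h2
  have h3 : 0 < r ^ β := Real.rpow_pos_of_pos hr0 _
  exact (inv_le_inv₀ hA h3).1 h2

end Pool.Agent.GU
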