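import Mathlib

/-!
# Uniqueness in the Gaussian class (MP_a65497_an): function theory in the right half-plane
-/

set_option autoImplicit false

namespace Pool.Agent.GU

open Complex Filter Topology Set Asymptotics Bornology

/-! ### The cosine -/

theorem norm_cos_sq (z : ℂ) : ‖Complex.cos z‖ ^ 2 = Real.cos z.re ^ 2 + Real.sinh z.im ^ 2 := by
  have h1 : Complex.cos z = ((Real.cos z.re * Real.cosh z.im : ℝ) : ℂ) -
      ((Real.sin z.re * Real.sinh z.im : ℝ) : ℂ) * I := by
    rw [Complex.cos_eq z]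
    push_cast
    ring
  rw [h1, ← Complex.normSq_eq_norm_sq, Complex.normSq_apply]
  simp only [Complex.sub_re, Complex.sub_im, Complex.mul_re, Complex.mul_im, Complex.ofReal_re,
    Complex.ofReal_im, Complex.I_re, Complex.I_im, mul_zero, mul_one, sub_zero,
    add_zero, zero_sub]
  have h2 := Real.cosh_sq z.im
  have h3 := Real.sin_sq_add_cos_sq z.re
  nlinarith

theorem sinh_le_norm_cos (z : ℂ) : Real.sinh |z.im| ≤ ‖Complex.cos z‖ := by
  have h1 := norm_cos_sq z
  have h2 : Real.sinh |z.im| ^ 2 = Real.sinh z.im ^ 2 := by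
    rcases abs_choice z.im with h | h
    · rw [h]
    · rw [h, Real.sinh_neg]
      ring
  have h3 : 0 ≤ Real.sinh |z.im| := Real.sinh_nonneg_iff.2 (abs_nonneg _)
  refine abs_le_of_sq_le_sq' ?_ (norm_nonneg _) |>.2
  rw [h2, h1]
  nlinarith [sq_nonneg (Real.cos z.re)]

/-- the zeros `k m + k / 2` -/
noncomputable def wz (k : ℕ) (m : ℕ) : ℝ := k * m + k / 2

theorem cos_lower {k : ℕ} (hk : 0 < k) (m : ℕ) {w : ℂ} (hw : |w.re - wz k m| ≤ k / 2) :
    2 / (k : ℝ) * ‖w - wz k m‖ ≤ ‖Complex.cos (Real.pi * w / k)‖ := by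
  have hk0 : (0 : ℝ) < k := by exact_mod_cast hk
  set u : ℝ := w.re - wz k m with hu
  set v : ℝ := w.im with hv
  have hre : (Real.pi * w / k : ℂ).re = Real.pi * w.re / k := by
    rw [show (Real.pi * w / k : ℂ) = ((Real.pi / k : ℝ) : ℂ) * w by push_cast; ring,
      Complex.re_ofReal_mul]
    ring
  have him : (Real.pi * w / k : ℂ).im = Real.pi * v / k := by
    rw [show (Real.pi * w / k : ℂ) = ((Real.pi / k : ℝ) : ℂ) * w by push_cast; ring,
      Complex.im_ofReal_mul]
    ring
  have hcos : Real.cos (Real.pi * w.re / k) ^ 2 = Real.sin (Real.pi * u / k) ^ 2 := by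
    have e1 : Real.pi * w.re / k = (Real.pi * u / k + Real.pi / 2) + m * Real.pi := by
      rw [hu, wz]
      field_simp
      ring
    rw [e1, Real.cos_add_nat_mul_pi, Real.cos_add_pi_div_two, mul_pow, ← pow_mul, mul_comm m 2,
      pow_mul]
    norm_num
  have hsin : (2 / k * u) ^ 2 ≤ Real.sin (Real.pi * u / k) ^ 2 := by
    have e1 : Real.sin (Real.pi * u / k) ^ 2 = Real.sin (Real.pi * |u| / k) ^ 2 := by
      rcases abs_choice u with h | h
      · rw [h]
      · rw [h, mul_neg, neg_div, Real.sin_neg]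
        ring
    have e2 : (2 / k * u) ^ 2 = (2 / k * |u|) ^ 2 := by
      rw [mul_pow, mul_pow, sq_abs]
    rw [e1, e2]
    have e3 : 0 ≤ Real.pi * |u| / k := by positivity
    have e4 : Real.pi * |u| / k ≤ Real.pi / 2 := by
      rw [div_le_iff₀ hk0]
      nlinarith [Real.pi_pos]
    have e5 := Real.mul_le_sin e3 e4
    have e6 : 2 / Real.pi * (Real.pi * |u| / k) = 2 / k * |u| := by
      field_simp
    rw [e6] at e5
    exact pow_le_pow_left₀ (by positivity) e5 2
  have hsinh : (2 / k * v) ^ 2 ≤ Real.sinh (Real.pi * v / k) ^ 2 := by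
    have e1 : Real.sinh (Real.pi * v / k) ^ 2 = Real.sinh (Real.pi * |v| / k) ^ 2 := by
      rcases abs_choice v with h | h
      · rw [h]
      · rw [h, mul_neg, neg_div, Real.sinh_neg]
        ring
    have e2 : (2 / k * v) ^ 2 = (2 / k * |v|) ^ 2 := by
      rw [mul_pow, mul_pow, sq_abs]
    rw [e1, e2]
    have e3 : 0 ≤ Real.pi * |v| / k := by positivity
    have e5 := Real.self_le_sinh_iff.2 e3
    have e6 : 2 / k * |v| ≤ Real.pi * |v| / k := by
      rw [div_mul_eq_mul_div]
      apply div_le_div_of_nonneg_right _ hk0.le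
      exact mul_le_mul_of_nonneg_right Real.two_le_pi (abs_nonneg _)
    exact pow_le_pow_left₀ (by positivity) (e6.trans e5) 2
  refine abs_le_of_sq_le_sq' ?_ (norm_nonneg _) |>.2
  rw [norm_cos_sq, hre, him, hcos]
  have hn : ‖w - wz k m‖ ^ 2 = u ^ 2 + v ^ 2 := by
    rw [← Complex.normSq_eq_norm_sq, Complex.normSq_apply]
    simp only [Complex.sub_re, Complex.sub_im, Complex.ofReal_re, Complex.ofReal_im, sub_zero]
    rw [hu, hv]
    ring
  calc (2 / (k : ℝ) * ‖w - wz k m‖) ^ 2 = (2 / k * u) ^ 2 + (2 / k * v) ^ 2 := by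
        rw [mul_pow, hn]
        ring
    _ ≤ _ := add_le_add hsin hsinh

/-- the nearest zero -/
theorem near_zero {k : ℕ} (hk : 0 < k) {w : ℂ} (hw : 0 ≤ w.re) :
    ∃ m : ℕ, |w.re - wz k m| ≤ k / 2 := by
  have hk0 : (0 : ℝ) < k := by exact_mod_cast hk
  refine ⟨⌊w.re / k⌋₊, ?_⟩
  have h1 : ((⌊w.re / k⌋₊ : ℕ) : ℝ) ≤ w.re / k := Nat.floor_le (by positivity)
  have h2 : w.re / k < (⌊w.re / k⌋₊ : ℕ) + 1 := Nat.lt_floor_add_one _
  rw [le_div_iff₀ hk0] at h1
  rw [div_lt_iff₀ hk0] at h2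
  rw [wz, abs_le]
  constructor
  · linarith
  · linarith

theorem exp_le_sinh {u : ℝ} (hu : 1 ≤ u) : Real.exp u / 4 ≤ Real.sinh u := by
  rw [Real.sinh_eq]
  have h1 : Real.exp (-u) ≤ 1 := Real.exp_le_one_iff.2 (by linarith)
  have h2 : 2 ≤ Real.exp u := by
    have := Real.add_one_le_exp u
    linarith
  linarith

theorem cos_ge_exp {k : ℕ} (hk : 0 < k) {w : ℂ} (hw : (k : ℝ) ≤ |w.im|) :
    Real.exp (Real.pi * |w.im|) / 4 ^ k ≤ ‖Complex.cos (Real.pi * w / k)‖ ^ k := by
  have hk0 : (0 : ℝ) < k := by exact_mod_cast hk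
  have him : (Real.pi * w / k : ℂ).im = Real.pi * w.im / k := by
    rw [show (Real.pi * w / k : ℂ) = ((Real.pi / k : ℝ) : ℂ) * w by push_cast; ring,
      Complex.im_ofReal_mul]
    ring
  have habs : |(Real.pi * w / k : ℂ).im| = Real.pi * |w.im| / k := by
    rw [him, abs_div, abs_mul, abs_of_pos Real.pi_pos, abs_of_pos hk0]
  have h1 : 1 ≤ Real.pi * |w.im| / k := by
    rw [one_le_div hk0]
    nlinarith [Real.two_le_pi, abs_nonneg w.im]
  have h2 : Real.exp (Real.pi * |w.im| / k) / 4 ≤ ‖Complex.cos (Real.pi * w / k)‖ := by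
    refine (exp_le_sinh h1).trans ?_
    have := sinh_le_norm_cos (Real.pi * w / k)
    rwa [habs] at this
  have h3 : Real.exp (Real.pi * |w.im|) / 4 ^ k = (Real.exp (Real.pi * |w.im| / k) / 4) ^ k := by
    have h4 : (k : ℝ) * (Real.pi * |w.im| / k) = Real.pi * |w.im| := by field_simp
    rw [div_pow, ← Real.exp_nat_mul, h4]
  rw [h3]
  exact pow_le_pow_left₀ (by positivity) h2 k

/-! ### Division by the cosine -/

/-- `h / cos(π w / k)^k` with the removable singularities removed -/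
noncomputable def Fd (k : ℕ) (h : ℂ → ℂ) (w : ℂ) : ℂ :=
  open scoped Classical in
  if Complex.cos (Real.pi * w / k) = 0 then
    limUnder (𝓝[≠] w) (fun z => h z / Complex.cos (Real.pi * z / k) ^ k)
  else h w / Complex.cos (Real.pi * w / k) ^ k

theorem cosk_differentiable (k : ℕ) : Differentiable ℂ fun w : ℂ =>
    Complex.cos (Real.pi * w / k) := by
  fun_prop

/-- the zeros of the cosine in `Re w > -k/2` -/
theorem zero_of_cos {k : ℕ} (hk : 0 < k) {w : ℂ} (hw : -(k / 2 : ℝ) < w.re)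
    (h : Complex.cos (Real.pi * w / k) = 0) : ∃ m : ℕ, w = wz k m := by
  have hk0 : (0 : ℝ) < k := by exact_mod_cast hk
  have hkC : (k : ℂ) ≠ 0 := by exact_mod_cast hk.ne'
  have hpi : (Real.pi : ℂ) ≠ 0 := by exact_mod_cast Real.pi_ne_zero
  obtain ⟨j, hj⟩ := Complex.cos_eq_zero_iff.1 h
  have h1 : w = ((k * j + k / 2 : ℝ) : ℂ) := by
    have : w = (Real.pi * w / k) * k / Real.pi := by field_simp
    rw [this, hj]
    push_cast
    field_simp
  have h2 : w.re = k * j + k / 2 := by
    rw [h1, Complex.ofReal_re]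
  have h3 : (-1 : ℝ) < j := by
    rw [h2] at hw
    by_contra hc
    push Not at hc
    nlinarith
  have h4 : 0 ≤ j := by
    have : (-1 : ℤ) < j := by exact_mod_cast h3
    omega
  obtain ⟨m, rfl⟩ := Int.eq_ofNat_of_zero_le h4
  refine ⟨m, ?_⟩
  rw [h1, wz]
  push_cast
  ring

theorem Fd_differentiableAt {k : ℕ} (hk : 0 < k) {h : ℂ → ℂ} {w : ℂ}
    (hw : -(k / 2 : ℝ) < w.re) (hd : DifferentiableAt ℂ h w)
    (hz : ∀ m : ℕ, w = wz k m → AnalyticAt ℂ h w ∧ (k : ℕ∞) ≤ analyticOrderAt h w) :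
    DifferentiableAt ℂ (Fd k h) w := by
  have hkC : (k : ℂ) ≠ 0 := by exact_mod_cast hk.ne'
  by_cases hc : Complex.cos (Real.pi * w / k) = 0
  · obtain ⟨m, hm⟩ := zero_of_cos hk hw hc
    obtain ⟨han, hord⟩ := hz m hm
    obtain ⟨g, hg, hgh⟩ := (natCast_le_analyticOrderAt han).1 hord
    set q : ℂ → ℂ := dslope (fun z : ℂ => Complex.cos (Real.pi * z / k)) w with hq
    have hqd : Differentiable ℂ q := by
      intro z
      have := (Complex.differentiableOn_dslope (s := Set.univ) (c := w)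
        (f := fun z : ℂ => Complex.cos (Real.pi * z / k)) Filter.univ_mem).2
        (cosk_differentiable k).differentiableOn
      exact (this z (Set.mem_univ z)).differentiableAt Filter.univ_mem
    have hqeq : ∀ z, Complex.cos (Real.pi * z / k) = (z - w) * q z := by
      intro z
      have := sub_smul_dslope (fun z : ℂ => Complex.cos (Real.pi * z / k)) w z
      rw [smul_eq_mul, hc, sub_zero] at this
      exact this.symm
    have hq0 : q w ≠ 0 := by
      rw [hq, dslope_same]
      have hder : HasDerivAt (fun z : ℂ => Complex.cos (Real.pi * z / k))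
          (-Complex.sin (Real.pi * w / k) * (Real.pi / k)) w := by
        have h1 : HasDerivAt (fun z : ℂ => (Real.pi : ℂ) * z / k) (Real.pi / k) w := by
          have := ((hasDerivAt_id w).const_mul (Real.pi : ℂ)).div_const (k : ℂ)
          simpa using this
        exact (Complex.hasDerivAt_cos _).comp w h1
      rw [hder.deriv]
      have hs : Complex.sin (Real.pi * w / k) ≠ 0 := by
        intro hs
        have := Complex.sin_sq_add_cos_sq (Real.pi * w / k)
        rw [hs, hc] at this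
        norm_num at this
      have hpi : (Real.pi : ℂ) ≠ 0 := by exact_mod_cast Real.pi_ne_zero
      exact mul_ne_zero (neg_ne_zero.2 hs) (div_ne_zero hpi hkC)
    have hG : DifferentiableAt ℂ (fun z => g z / q z ^ k) w :=
      hg.differentiableAt.div ((hqd w).pow k) (pow_ne_zero k hq0)
    -- the quotient near `w`
    have hquo : ∀ᶠ z in 𝓝 w, z ≠ w → h z / Complex.cos (Real.pi * z / k) ^ k = g z / q z ^ k := by
      filter_upwards [hgh] with z h1 h2
      rw [h1, hqeq z, mul_pow, smul_eq_mul]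
      have : (z - w) ^ k ≠ 0 := pow_ne_zero k (sub_ne_zero.2 h2)
      rw [mul_div_mul_left _ _ this]
    have hq_ev : ∀ᶠ z in 𝓝 w, q z ≠ 0 := (hqd w).continuousAt.eventually_ne hq0
    have hlim : limUnder (𝓝[≠] w) (fun z => h z / Complex.cos (Real.pi * z / k) ^ k) =
        g w / q w ^ k := by
      apply Tendsto.limUnder_eq
      have h1 : Tendsto (fun z => g z / q z ^ k) (𝓝[≠] w) (𝓝 (g w / q w ^ k)) :=
        hG.continuousAt.tendsto.mono_left nhdsWithin_le_nhds
      refine h1.congr' ?_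
      filter_upwards [hquo.filter_mono nhdsWithin_le_nhds, self_mem_nhdsWithin] with z h2 h3
      exact (h2 h3).symm
    have hFe : Fd k h =ᶠ[𝓝 w] fun z => g z / q z ^ k := by
      filter_upwards [hquo, hq_ev] with z h1 h2
      by_cases hzw : z = w
      · rw [Fd, hzw, if_pos hc, hlim]
      · have h3 : Complex.cos (Real.pi * z / k) ≠ 0 := by
          rw [hqeq z]
          exact mul_ne_zero (sub_ne_zero.2 hzw) h2
        rw [Fd, if_neg h3, h1 hzw]
    exact hG.congr_of_eventuallyEq hFe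
  · have h1 : ∀ᶠ z in 𝓝 w, Complex.cos (Real.pi * z / k) ≠ 0 :=
      (cosk_differentiable k w).continuousAt.eventually_ne hc
    have h2 : Fd k h =ᶠ[𝓝 w] fun z => h z / Complex.cos (Real.pi * z / k) ^ k := by
      filter_upwards [h1] with z hz1
      rw [Fd, if_neg hz1]
    exact (hd.div ((cosk_differentiable k w).pow k) (pow_ne_zero k hc)).congr_of_eventuallyEq h2

theorem Fd_of_ne {k : ℕ} {h : ℂ → ℂ} {w : ℂ} (hc : Complex.cos (Real.pi * w / k) ≠ 0) :
    Fd k h w = h w / Complex.cos (Real.pi * w / k) ^ k := by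
  rw [Fd, if_neg hc]

end Pool.Agent.GU
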