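import Pool.Agent.Lib_helper71.GU.Step

/-!
# Uniqueness in the Gaussian class (MP_a65497_an): the iteration
-/

set_option autoImplicit false

namespace Pool.Agent.GU

open Complex Filter Topology MeasureTheory
open scoped FourierTransform SchwartzMap

variable {V : Type*} [NormedAddCommGroup V] [InnerProductSpace ℝ V] [FiniteDimensional ℝ V]
  [MeasurableSpace V] [BorelSpace V]

/-- radial functions -/
def Rad (f : V → ℂ) : Prop := ∀ x y : V, ‖x‖ = ‖y‖ → f x = f y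

/-- zeros of order `k` at the radii `√(kn)`, `n ≥ n₀` -/
def Zer (k n₀ : ℕ) (e : V) (f : V → ℂ) : Prop := ∀ n : ℕ, n₀ ≤ n → ∀ j : ℕ, j < k →
  iteratedDeriv j (fun t : ℝ => f (t • e)) (Real.sqrt (k * n)) = 0

/-- Gaussian decay with rate `a` -/
def Dec (a : ℝ) (f : V → ℂ) : Prop := ∃ C : ℝ, ∀ x, ‖f x‖ ≤ C * Real.exp (-(Real.pi * a * ‖x‖ ^ 2))

theorem rad_fourier {f : V → ℂ} (hf : Rad f) : Rad (𝓕 f) := by
  intro x y hxy
  have h1 : (ℝ ∙ (x - y))ᗮ.reflection x = y := Submodule.reflection_sub hxy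
  have h2 := Real.fourier_comp_linearIsometry ((ℝ ∙ (x - y))ᗮ.reflection) f x
  rw [h1] at h2
  rw [← h2]
  have h3 : f ∘ ((ℝ ∙ (x - y))ᗮ.reflection) = f := by
    funext z
    exact hf _ _ (by simp)
  rw [h3]

theorem order_of_zer {g : V → ℂ} {e : V} (hH : Differentiable ℂ (HF g e)) {k n₀ : ℕ}
    (hz : Zer k n₀ e (𝓕 g)) (n : ℕ) (hn : n₀ ≤ n) :
    (k : ℕ∞) ≤ analyticOrderAt (HF g e) (Real.sqrt (k * n) : ℝ) := by
  rw [natCast_le_analyticOrderAt_iff_iteratedDeriv_eq_zero (hH.analyticAt _)]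
  intro j hj
  rw [← iteratedDeriv_real hH]
  have h := hz n hn j hj
  have e1 : (fun s : ℝ => HF g e s) = fun t : ℝ => 𝓕 g (t • e) := by
    funext s
    exact HF_real e s
  rw [e1]
  exact h

theorem C_nonneg {a C : ℝ} {g : V → ℂ}
    (hg : ∀ x, ‖g x‖ ≤ C * Real.exp (-(Real.pi * a * ‖x‖ ^ 2))) : 0 ≤ C := by
  have h := (norm_nonneg _).trans (hg 0)
  exact nonneg_of_mul_nonneg_left h (Real.exp_pos _)

/-- the data for one step -/
theorem step_data {g : V → ℂ} (hgc : Continuous g) {e : V} (he : ‖e‖ = 1) {a a' : ℝ}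
    (ha' : 0 < a') (haa : a' < a) (hd : Dec a g) {k n₀ : ℕ} (hk : 0 < k) (hn : 1 ≤ n₀)
    (hz : Zer k n₀ e (𝓕 g)) : Differentiable ℂ (HF g e) ∧ ∃ C : ℝ, 0 ≤ C ∧
      (∀ ρ, ‖HF g e ρ‖ ≤ C * Real.exp (Real.pi * ρ.im ^ 2 / a')) ∧
      Hyp k (fun w => HF g e (sq (w + ((k * n₀ - k / 2 : ℝ) : ℂ)))) C (Real.pi / (2 * a')) := by
  obtain ⟨C, hC⟩ := hd
  have h0 := C_nonneg hC
  have hH := HF_differentiable hgc (ha'.trans haa) hC he
  have hb := HF_bound hC he ha' haa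
  have hC' : 0 ≤ C * ∫ x : V, Real.exp (-(Real.pi * (a - a') * ‖x‖ ^ 2)) :=
    mul_nonneg h0 (integral_nonneg fun x => (Real.exp_pos _).le)
  exact ⟨hH, _, hC', hb, toHyp hH hk hn hC' ha' hb (order_of_zer hH hz)⟩

theorem step {g : V → ℂ} (hgc : Continuous g) (hr : Rad g) {e : V} (he : ‖e‖ = 1) {a : ℝ}
    (ha : 0 < a) (ha2 : a ≤ 1 / 2) (hd : Dec a g) {k n₀ : ℕ} (hk : 0 < k) (hn : 1 ≤ n₀)
    (hz : Zer k n₀ e (𝓕 g)) : Dec (a + a ^ 3 / 4) (𝓕 g) := by
  have hπ := Real.pi_pos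
  have hk0 : (0 : ℝ) < k := by exact_mod_cast hk
  have hn0 : (1 : ℝ) ≤ n₀ := by exact_mod_cast hn
  have ha3 : 0 < a ^ 3 := by positivity
  have ha4 : a ^ 2 ≤ 1 / 4 := by nlinarith
  set a' : ℝ := a - a ^ 3 / 8 with ha'
  have hq : a' = a * (1 - a ^ 2 / 8) := by rw [ha']; ring
  have hpos : 0 < a' := by rw [hq]; apply mul_pos ha; linarith
  have hlt : a' < a := by rw [ha']; linarith
  have hrate : a + a ^ 3 / 4 ≤ a' + a' ^ 3 / 2 := by
    have h1 : (3 / 4 : ℝ) ≤ (1 - a ^ 2 / 8) ^ 3 := by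
      have h2 : (31 / 32 : ℝ) ≤ 1 - a ^ 2 / 8 := by linarith
      calc (3 / 4 : ℝ) ≤ (31 / 32) ^ 3 := by norm_num
        _ ≤ _ := pow_le_pow_left₀ (by norm_num) h2 3
    have h3 : a' ^ 3 = a ^ 3 * (1 - a ^ 2 / 8) ^ 3 := by rw [hq]; ring
    rw [h3, ha']
    nlinarith
  obtain ⟨hH, C, hC, hb, hyp⟩ := step_data hgc he hpos hlt hd hk hn hz
  obtain ⟨C₁, hC₁⟩ := hyp.real_h (t := 2 * a') (by linarith)
  set σ : ℝ := k * n₀ - k / 2 with hσ
  have hσ0 : 0 ≤ σ := by rw [hσ]; nlinarith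
  have hrt := rate hpos (by linarith)
  set b : ℝ := a' + a' ^ 3 / 2 with hbdef
  have hb0 : 0 < b := by rw [hbdef]; positivity
  -- on the positive axis
  have main : ∀ r : ℝ, 0 ≤ r → ‖𝓕 g (r • e)‖
      ≤ (|C₁| * Real.exp (Real.pi * b * σ) + C * Real.exp (Real.pi * b * σ))
        * Real.exp (-(Real.pi * b * r ^ 2)) := by
    intro r hr0
    rw [← HF_real]
    by_cases hx : 0 < r ^ 2 - σ
    · have h1 := hC₁ (r ^ 2 - σ) hx
      have h2 : ((r ^ 2 - σ : ℝ) : ℂ) + (σ : ℂ) = ((r ^ 2 : ℝ) : ℂ) := by push_cast; ring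
      simp only [h2] at h1
      rw [sq_real (by positivity), Real.sqrt_sq hr0] at h1
      refine h1.trans ?_
      have h3 : C₁ * Real.exp (-((Real.pi * (2 * a') - Real.pi / (2 * a')
          * (Real.sqrt (1 + (2 * a') ^ 2) - 1)) * (r ^ 2 - σ)))
          ≤ |C₁| * Real.exp (-(Real.pi * b * (r ^ 2 - σ))) := by
        apply mul_le_mul (le_abs_self _) _ (Real.exp_pos _).le (abs_nonneg _)
        apply Real.exp_le_exp.2
        apply neg_le_neg
        exact mul_le_mul_of_nonneg_right hrt hx.le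
      refine h3.trans ?_
      have h4 : Real.exp (-(Real.pi * b * (r ^ 2 - σ)))
          = Real.exp (Real.pi * b * σ) * Real.exp (-(Real.pi * b * r ^ 2)) := by
        rw [← Real.exp_add]; congr 1; ring
      rw [h4, ← mul_assoc]
      apply mul_le_mul_of_nonneg_right _ (Real.exp_pos _).le
      have : 0 ≤ C * Real.exp (Real.pi * b * σ) := mul_nonneg hC (Real.exp_pos _).le
      linarith
    · push Not at hx
      have h1 := hb (r : ℂ)
      rw [Complex.ofReal_im] at h1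
      have h2 : Real.exp (Real.pi * (0 : ℝ) ^ 2 / a') = 1 := by simp
      rw [h2, mul_one] at h1
      refine h1.trans ?_
      have h3 : 1 ≤ Real.exp (Real.pi * b * σ) * Real.exp (-(Real.pi * b * r ^ 2)) := by
        rw [← Real.exp_add]
        apply Real.one_le_exp
        have : 0 ≤ Real.pi * b * (σ - r ^ 2) := mul_nonneg (by positivity) (by linarith)
        nlinarith
      have h4 : C ≤ C * (Real.exp (Real.pi * b * σ) * Real.exp (-(Real.pi * b * r ^ 2))) :=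
        le_mul_of_one_le_right hC h3
      refine h4.trans ?_
      rw [← mul_assoc]
      apply mul_le_mul_of_nonneg_right _ (Real.exp_pos _).le
      have : 0 ≤ |C₁| * Real.exp (Real.pi * b * σ) := mul_nonneg (abs_nonneg _) (Real.exp_pos _).le
      linarith
  refine ⟨|C₁| * Real.exp (Real.pi * b * σ) + C * Real.exp (Real.pi * b * σ), fun x => ?_⟩
  have h1 : 𝓕 g x = 𝓕 g (‖x‖ • e) := by
    apply rad_fourier hr
    rw [norm_smul, he, mul_one, norm_norm]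
  rw [h1]
  refine (main ‖x‖ (norm_nonneg _)).trans ?_
  apply mul_le_mul_of_nonneg_left _ (by positivity)
  apply Real.exp_le_exp.2
  apply neg_le_neg
  apply mul_le_mul_of_nonneg_right _ (by positivity)
  exact mul_le_mul_of_nonneg_left hrate hπ.le

theorem fin_zero {g : V → ℂ} (hgc : Continuous g) {e : V} (he : ‖e‖ = 1) {a : ℝ}
    (ha : 1 / 2 < a) (hd : Dec a g) {k n₀ : ℕ} (hk : 0 < k) (hn : 1 ≤ n₀)
    (hz : Zer k n₀ e (𝓕 g)) (r : ℝ) : 𝓕 g (r • e) = 0 := by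
  have hπ := Real.pi_pos
  have hk0 : (0 : ℝ) < k := by exact_mod_cast hk
  have hn0 : (1 : ℝ) ≤ n₀ := by exact_mod_cast hn
  obtain ⟨a', h1, h2⟩ := exists_between ha
  have hpos : 0 < a' := by linarith
  obtain ⟨hH, C, hC, hb, hyp⟩ := step_data hgc he hpos h2 hd hk hn hz
  set σ : ℝ := k * n₀ - k / 2 with hσ
  have hσ0 : 0 ≤ σ := by rw [hσ]; nlinarith
  have hτ : Real.pi / (2 * a') < Real.pi := by
    rw [div_lt_iff₀ (by linarith)]
    nlinarith
  have hzero : ∀ s : ℝ, 0 ≤ s → σ < s ^ 2 → HF g e s = 0 := by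
    intro s hs hs2
    have h3 := hyp.zero hτ (x := s ^ 2 - σ) (by linarith)
    have h4 : ((s ^ 2 - σ : ℝ) : ℂ) + (σ : ℂ) = ((s ^ 2 : ℝ) : ℂ) := by push_cast; ring
    simp only [h4] at h3
    rwa [sq_real (by positivity), Real.sqrt_sq hs] at h3
  have hall : ∀ ρ : ℂ, HF g e ρ = 0 := by
    have hana : AnalyticOnNhd ℂ (HF g e) Set.univ := fun z _ => hH.analyticAt z
    have hfreq : ∃ᶠ z in 𝓝[≠] ((Real.sqrt σ + 1 : ℝ) : ℂ), HF g e z = 0 := by
      have h5 : Tendsto (fun s : ℝ => (s : ℂ)) (𝓝[>] (Real.sqrt σ + 1))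
          (𝓝[≠] ((Real.sqrt σ + 1 : ℝ) : ℂ)) := by
        apply tendsto_nhdsWithin_of_tendsto_nhds_of_eventually_within
        · exact (Complex.continuous_ofReal.tendsto _).mono_left nhdsWithin_le_nhds
        · filter_upwards [self_mem_nhdsWithin] with s hs
          intro h6
          have h7 : (s : ℂ) = ((Real.sqrt σ + 1 : ℝ) : ℂ) := h6
          have h8 : s = Real.sqrt σ + 1 := by exact_mod_cast h7
          exact (ne_of_gt hs) h8
      apply h5.frequently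
      apply Eventually.frequently
      filter_upwards [self_mem_nhdsWithin] with s hs
      have hs1 : Real.sqrt σ + 1 < s := hs
      have h9 := Real.sqrt_nonneg σ
      apply hzero s (by linarith)
      calc σ = Real.sqrt σ ^ 2 := (Real.sq_sqrt hσ0).symm
        _ < s ^ 2 := by nlinarith
    intro ρ
    exact hana.eqOn_zero_of_preconnected_of_frequently_eq_zero isPreconnected_univ
      (Set.mem_univ _) hfreq (Set.mem_univ ρ)
  rw [← HF_real]
  exact hall _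

theorem fourier_fourier {f : 𝓢(V, ℂ)} (hr : Rad (f : V → ℂ)) : 𝓕 (𝓕 f) = f := by
  ext x
  have h1 : 𝓕⁻ (𝓕 f) = f := FourierTransform.fourierInv_fourier_eq f
  have h2 : (𝓕⁻ (𝓕 f) : 𝓢(V, ℂ)) x = f x := by rw [h1]
  rw [SchwartzMap.fourierInv_coe, Real.fourierInv_eq_fourier_neg] at h2
  rw [← h2, SchwartzMap.fourier_coe]
  apply rad_fourier
  · rw [SchwartzMap.fourier_coe]
    exact rad_fourier hr
  · rw [norm_neg]

/-- the iteration -/
theorem iter {e : V} (he : ‖e‖ = 1) {k n₀ : ℕ} (hk : 0 < k) (hn : 1 ≤ n₀) {a₀ : ℝ} (ha₀ : 0 < a₀)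
    (N : ℕ) : ∀ (f : 𝓢(V, ℂ)) (a : ℝ), Rad (f : V → ℂ) → Zer k n₀ e (f : V → ℂ) →
      Zer k n₀ e ((𝓕 f : 𝓢(V, ℂ)) : V → ℂ) → a₀ ≤ a → 1 / 2 < a + N * (a₀ ^ 3 / 4) →
      Dec a (f : V → ℂ) → f = 0 := by
  have hfin : ∀ (f : 𝓢(V, ℂ)) (a : ℝ), Rad (f : V → ℂ) →
      Zer k n₀ e ((𝓕 f : 𝓢(V, ℂ)) : V → ℂ) → 1 / 2 < a → Dec a (f : V → ℂ) → f = 0 := by
    intro f a hr hz ha hd
    have h1 : (𝓕 f : 𝓢(V, ℂ)) = 0 := by
      ext x
      rw [SchwartzMap.fourier_coe]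
      have h2 : 𝓕 (f : V → ℂ) x = 𝓕 (f : V → ℂ) (‖x‖ • e) := by
        apply rad_fourier hr
        rw [norm_smul, he, mul_one, norm_norm]
      rw [h2, fin_zero f.continuous he ha hd hk hn (by rwa [SchwartzMap.fourier_coe] at hz)]
      rfl
    have h3 : 𝓕⁻ (𝓕 f : 𝓢(V, ℂ)) = f := FourierTransform.fourierInv_fourier_eq f
    rw [h1] at h3
    rw [← h3]
    ext x
    rw [SchwartzMap.fourierInv_coe, Real.fourierInv_eq]
    simp
  induction N with
  | zero =>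
    intro f a hr _ hz2 _ ha hd
    exact hfin f a hr hz2 (by simpa using ha) hd
  | succ N ih =>
    intro f a hr hz1 hz2 h0 ha hd
    by_cases h : 1 / 2 < a
    · exact hfin f a hr hz2 h hd
    · push Not at h
      have ha0 : 0 < a := ha₀.trans_le h0
      have hd2 : Dec (a + a ^ 3 / 4) ((𝓕 f : 𝓢(V, ℂ)) : V → ℂ) := by
        rw [SchwartzMap.fourier_coe]
        exact step f.continuous hr he ha0 h hd hk hn (by rwa [SchwartzMap.fourier_coe] at hz2)
      have h3 : a₀ ^ 3 ≤ a ^ 3 := pow_le_pow_left₀ ha₀.le h0 3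
      have h4 : (0 : ℝ) ≤ a ^ 3 := by positivity
      have hr2 : Rad ((𝓕 f : 𝓢(V, ℂ)) : V → ℂ) := by
        rw [SchwartzMap.fourier_coe]
        exact rad_fourier hr
      have h5 := ih (𝓕 f) (a + a ^ 3 / 4) hr2 hz2 (by rwa [fourier_fourier hr]) (by linarith)
        (by push_cast at ha; nlinarith) hd2
      rw [← fourier_fourier hr, h5]
      ext x
      rw [SchwartzMap.fourier_coe, Real.fourier_eq]
      simp

/-- Uniqueness in the Gaussian class. -/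
theorem gaussian_class {e : V} (he : ‖e‖ = 1) {k n₀ : ℕ} (hk : 0 < k) (f : 𝓢(V, ℂ))
    (hr : Rad (f : V → ℂ)) (hz1 : Zer k n₀ e (f : V → ℂ)) (hz2 : Zer k n₀ e (𝓕 (f : V → ℂ)))
    {C c : ℝ} (hc : 0 < c) (hd : ∀ x, ‖f x‖ ≤ C * Real.exp (-(c * ‖x‖ ^ 2))) : f = 0 := by
  have hπ := Real.pi_pos
  have ha₀ : 0 < c / Real.pi := by positivity
  obtain ⟨N, hN⟩ := exists_nat_gt ((1 / 2) / ((c / Real.pi) ^ 3 / 4))
  have hN2 : 1 / 2 < N * ((c / Real.pi) ^ 3 / 4) := by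
    rwa [div_lt_iff₀ (by positivity)] at hN
  refine iter he hk (n₀ := n₀ + 1) (by omega) ha₀ N f (c / Real.pi) hr
    (fun n hn => hz1 n (by omega)) ?_ le_rfl (by linarith) ⟨C, fun x => ?_⟩
  · rw [SchwartzMap.fourier_coe]
    exact fun n hn => hz2 n (by omega)
  · have : Real.pi * (c / Real.pi) = c := by field_simp
    rw [this]
    exact hd x

end Pool.Agent.GU
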