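import Pool.Agent.Lib_helper71.GU.PL

/-!
# Uniqueness in the Gaussian class (MP_a65497_an): the entire extension of the Fourier transform
-/

set_option autoImplicit false

namespace Pool.Agent.GU

open MeasureTheory Complex Filter Topology
open scoped FourierTransform

variable {V : Type*} [NormedAddCommGroup V] [InnerProductSpace ℝ V] [FiniteDimensional ℝ V]
  [MeasurableSpace V] [BorelSpace V]

/-- the Fourier transform of `g` along the line of `e`, at complex points -/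
noncomputable def HF (g : V → ℂ) (e : V) (ρ : ℂ) : ℂ :=
  ∫ x : V, cexp (-(2 * Real.pi * (inner ℝ x e) : ℝ) * I * ρ) * g x

theorem gauss_int {b : ℝ} (hb : 0 < b) : Integrable fun x : V => Real.exp (-(b * ‖x‖ ^ 2)) := by
  have h := (GaussianFourier.integrable_cexp_neg_mul_sq_norm_add (V := V) (b := (b : ℂ))
    (by simpa using hb) 0 0).norm
  refine h.congr (Eventually.of_forall fun x => ?_)
  simp only [Complex.norm_exp, zero_mul, add_zero]
  congr 1
  have : (-(b : ℂ) * (‖x‖ : ℂ) ^ 2) = ((-(b * ‖x‖ ^ 2) : ℝ) : ℂ) := by push_cast; ring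
  rw [this, Complex.ofReal_re]

theorem amgm {a u y : ℝ} (ha : 0 < a) :
    2 * Real.pi * (u * y) ≤ Real.pi * a * u ^ 2 + Real.pi * y ^ 2 / a := by
  have h : 0 ≤ Real.pi * (a * u - y) ^ 2 / a := by
    have := Real.pi_pos
    positivity
  have h2 : Real.pi * (a * u - y) ^ 2 / a
      = Real.pi * a * u ^ 2 + Real.pi * y ^ 2 / a - 2 * Real.pi * (u * y) := by
    field_simp
    ring
  linarith

theorem norm_kernel (e x : V) (ρ : ℂ) :
    ‖cexp (-(2 * Real.pi * (inner ℝ x e) : ℝ) * I * ρ)‖ = Real.exp (2 * Real.pi * ((inner ℝ x e) * ρ.im)) := by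
  rw [Complex.norm_exp]
  congr 1
  simp only [Complex.mul_re, Complex.neg_re, Complex.ofReal_re, Complex.I_re, Complex.neg_im,
    Complex.ofReal_im, Complex.I_im, Complex.mul_im]
  ring

theorem kernel_le {e : V} (he : ‖e‖ = 1) (x : V) (ρ : ℂ) {a : ℝ} (ha : 0 < a) :
    ‖cexp (-(2 * Real.pi * (inner ℝ x e) : ℝ) * I * ρ)‖
      ≤ Real.exp (Real.pi * a * ‖x‖ ^ 2 + Real.pi * ρ.im ^ 2 / a) := by
  rw [norm_kernel]
  apply Real.exp_le_exp.2
  refine le_trans ?_ ((amgm (u := ‖x‖) (y := |ρ.im|) ha).trans (by rw [sq_abs]))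
  apply mul_le_mul_of_nonneg_left _ (by have := Real.pi_pos; positivity)
  have h1 : |inner ℝ x e| ≤ ‖x‖ := by
    have := abs_real_inner_le_norm x e
    rwa [he, mul_one] at this
  calc (inner ℝ x e) * ρ.im ≤ |(inner ℝ x e) * ρ.im| := le_abs_self _
    _ = |inner ℝ x e| * |ρ.im| := abs_mul _ _
    _ ≤ ‖x‖ * |ρ.im| := mul_le_mul_of_nonneg_right h1 (abs_nonneg _)

theorem integrand_le {g : V → ℂ} {a C : ℝ}
    (hg : ∀ x, ‖g x‖ ≤ C * Real.exp (-(Real.pi * a * ‖x‖ ^ 2))) {e : V} (he : ‖e‖ = 1) (x : V)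
    (ρ : ℂ) {a' : ℝ} (ha' : 0 < a') :
    ‖cexp (-(2 * Real.pi * (inner ℝ x e) : ℝ) * I * ρ) * g x‖
      ≤ C * Real.exp (Real.pi * ρ.im ^ 2 / a') * Real.exp (-(Real.pi * (a - a') * ‖x‖ ^ 2)) := by
  have hC : 0 ≤ C := by
    have h := (norm_nonneg _).trans (hg 0)
    have h2 := Real.exp_pos (-(Real.pi * a * ‖(0 : V)‖ ^ 2))
    exact nonneg_of_mul_nonneg_left h h2
  rw [norm_mul]
  calc ‖cexp (-(2 * Real.pi * (inner ℝ x e) : ℝ) * I * ρ)‖ * ‖g x‖
      ≤ Real.exp (Real.pi * a' * ‖x‖ ^ 2 + Real.pi * ρ.im ^ 2 / a')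
        * (C * Real.exp (-(Real.pi * a * ‖x‖ ^ 2))) :=
        mul_le_mul (kernel_le he x ρ ha') (hg x) (norm_nonneg _) (Real.exp_pos _).le
    _ = C * (Real.exp (Real.pi * a' * ‖x‖ ^ 2 + Real.pi * ρ.im ^ 2 / a')
        * Real.exp (-(Real.pi * a * ‖x‖ ^ 2))) := by ring
    _ = C * (Real.exp (Real.pi * ρ.im ^ 2 / a') * Real.exp (-(Real.pi * (a - a') * ‖x‖ ^ 2))) := by
        rw [← Real.exp_add, ← Real.exp_add]
        congr 2
        ring
    _ = _ := by ring

theorem integrand_int {g : V → ℂ} (hgc : Continuous g) {a C : ℝ} (ha : 0 < a)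
    (hg : ∀ x, ‖g x‖ ≤ C * Real.exp (-(Real.pi * a * ‖x‖ ^ 2))) {e : V} (he : ‖e‖ = 1) (ρ : ℂ) :
    Integrable fun x : V => cexp (-(2 * Real.pi * (inner ℝ x e) : ℝ) * I * ρ) * g x := by
  have h1 : Integrable fun x : V => C * Real.exp (Real.pi * ρ.im ^ 2 / (a / 2))
      * Real.exp (-(Real.pi * (a - a / 2) * ‖x‖ ^ 2)) :=
    (gauss_int (by have := Real.pi_pos; nlinarith)).const_mul _
  refine h1.mono' ?_ (Eventually.of_forall fun x => integrand_le hg he x ρ (by linarith))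
  exact (by fun_prop : Continuous fun x : V =>
    cexp (-(2 * Real.pi * (inner ℝ x e) : ℝ) * I * ρ) * g x).aestronglyMeasurable

theorem HF_bound {g : V → ℂ} {a C : ℝ}
    (hg : ∀ x, ‖g x‖ ≤ C * Real.exp (-(Real.pi * a * ‖x‖ ^ 2))) {e : V} (he : ‖e‖ = 1)
    {a' : ℝ} (ha' : 0 < a') (haa : a' < a) (ρ : ℂ) :
    ‖HF g e ρ‖ ≤ C * (∫ x : V, Real.exp (-(Real.pi * (a - a') * ‖x‖ ^ 2)))
      * Real.exp (Real.pi * ρ.im ^ 2 / a') := by
  have h1 : Integrable fun x : V => C * Real.exp (Real.pi * ρ.im ^ 2 / a')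
      * Real.exp (-(Real.pi * (a - a') * ‖x‖ ^ 2)) :=
    (gauss_int (by have := Real.pi_pos; have : 0 < a - a' := by linarith
                   positivity)).const_mul _
  refine (norm_integral_le_of_norm_le h1 (Eventually.of_forall fun x =>
    integrand_le hg he x ρ ha')).trans (le_of_eq ?_)
  rw [integral_const_mul]
  ring

theorem HF_differentiable {g : V → ℂ} (hgc : Continuous g) {a C : ℝ} (ha : 0 < a)
    (hg : ∀ x, ‖g x‖ ≤ C * Real.exp (-(Real.pi * a * ‖x‖ ^ 2))) {e : V} (he : ‖e‖ = 1) :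
    Differentiable ℂ (HF g e) := by
  have hC : 0 ≤ C := by
    have h := (norm_nonneg _).trans (hg 0)
    have h2 := Real.exp_pos (-(Real.pi * a * ‖(0 : V)‖ ^ 2))
    exact nonneg_of_mul_nonneg_left h h2
  intro ρ₀
  have hπ := Real.pi_pos
  set M : ℝ := |ρ₀.im| + 1 with hM
  -- derivative bound
  have key : ∀ x : V, ∀ ρ ∈ Metric.ball ρ₀ 1,
      ‖cexp (-(2 * Real.pi * (inner ℝ x e) : ℝ) * I * ρ) * (-(2 * Real.pi * (inner ℝ x e) : ℝ) * I) * g x‖
      ≤ C * Real.exp (Real.pi * (M + 1) ^ 2 / (a / 2))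
        * Real.exp (-(Real.pi * (a - a / 2) * ‖x‖ ^ 2)) := by
    intro x ρ hρ
    rw [Metric.mem_ball, dist_eq_norm] at hρ
    have him : |ρ.im| ≤ M := by
      have h1 := (Complex.abs_im_le_norm (ρ - ρ₀)).trans hρ.le
      rw [Complex.sub_im] at h1
      have h2 := abs_sub_abs_le_abs_sub ρ.im ρ₀.im
      linarith
    have h1 : |inner ℝ x e| ≤ ‖x‖ := by
      have := abs_real_inner_le_norm x e
      rwa [he, mul_one] at this
    have h2 : ‖(-(2 * Real.pi * (inner ℝ x e) : ℝ) * I : ℂ)‖ ≤ Real.exp (2 * Real.pi * ‖x‖) := by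
      rw [norm_mul, Complex.norm_I, mul_one, norm_neg, Complex.norm_real, Real.norm_eq_abs,
        abs_mul, abs_of_pos (by positivity : (0 : ℝ) < 2 * Real.pi)]
      have h3 := Real.add_one_le_exp (2 * Real.pi * ‖x‖)
      have h4 : 2 * Real.pi * |inner ℝ x e| ≤ 2 * Real.pi * ‖x‖ :=
        mul_le_mul_of_nonneg_left h1 (by positivity)
      linarith
    have h3 : ‖cexp (-(2 * Real.pi * (inner ℝ x e) : ℝ) * I * ρ)‖
        ≤ Real.exp (2 * Real.pi * (‖x‖ * M)) := by
      rw [norm_kernel]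
      apply Real.exp_le_exp.2
      apply mul_le_mul_of_nonneg_left _ (by positivity)
      calc (inner ℝ x e) * ρ.im ≤ |(inner ℝ x e) * ρ.im| := le_abs_self _
        _ = |inner ℝ x e| * |ρ.im| := abs_mul _ _
        _ ≤ ‖x‖ * M := mul_le_mul h1 him (abs_nonneg _) (norm_nonneg _)
    rw [norm_mul, norm_mul]
    calc ‖cexp (-(2 * Real.pi * (inner ℝ x e) : ℝ) * I * ρ)‖
          * ‖(-(2 * Real.pi * (inner ℝ x e) : ℝ) * I : ℂ)‖ * ‖g x‖
        ≤ Real.exp (2 * Real.pi * (‖x‖ * M)) * Real.exp (2 * Real.pi * ‖x‖)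
          * (C * Real.exp (-(Real.pi * a * ‖x‖ ^ 2))) := by
          apply mul_le_mul _ (hg x) (norm_nonneg _) (by positivity)
          exact mul_le_mul h3 h2 (norm_nonneg _) (Real.exp_pos _).le
      _ = C * Real.exp (2 * Real.pi * (‖x‖ * (M + 1)) - Real.pi * a * ‖x‖ ^ 2) := by
          rw [show 2 * Real.pi * (‖x‖ * (M + 1)) - Real.pi * a * ‖x‖ ^ 2
            = 2 * Real.pi * (‖x‖ * M) + 2 * Real.pi * ‖x‖ + -(Real.pi * a * ‖x‖ ^ 2) by ring,
            Real.exp_add, Real.exp_add]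
          ring
      _ ≤ C * Real.exp (Real.pi * (M + 1) ^ 2 / (a / 2) + -(Real.pi * (a - a / 2) * ‖x‖ ^ 2)) := by
          apply mul_le_mul_of_nonneg_left _ hC
          apply Real.exp_le_exp.2
          have := amgm (a := a / 2) (u := ‖x‖) (y := M + 1) (by linarith)
          linarith
      _ = _ := by rw [Real.exp_add]; ring
  have hres := hasDerivAt_integral_of_dominated_loc_of_deriv_le
    (μ := (volume : Measure V)) (𝕜 := ℂ) (x₀ := ρ₀) (s := Metric.ball ρ₀ 1)
    (F := fun ρ x => cexp (-(2 * Real.pi * (inner ℝ x e) : ℝ) * I * ρ) * g x)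
    (F' := fun ρ x => cexp (-(2 * Real.pi * (inner ℝ x e) : ℝ) * I * ρ)
      * (-(2 * Real.pi * (inner ℝ x e) : ℝ) * I) * g x)
    (bound := fun x => C * Real.exp (Real.pi * (M + 1) ^ 2 / (a / 2))
        * Real.exp (-(Real.pi * (a - a / 2) * ‖x‖ ^ 2)))
    (Metric.ball_mem_nhds ρ₀ one_pos)
    (Eventually.of_forall fun ρ => (by fun_prop : Continuous fun x : V =>
      cexp (-(2 * Real.pi * (inner ℝ x e) : ℝ) * I * ρ) * g x).aestronglyMeasurable)
    (integrand_int hgc ha hg he ρ₀)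
    ((by fun_prop : Continuous fun x : V => cexp (-(2 * Real.pi * (inner ℝ x e) : ℝ) * I * ρ₀)
      * (-(2 * Real.pi * (inner ℝ x e) : ℝ) * I) * g x).aestronglyMeasurable)
    (Eventually.of_forall key)
    ((gauss_int (by nlinarith)).const_mul _)
    (Eventually.of_forall fun x ρ _ => by
      have h1 : HasDerivAt (fun ρ : ℂ => (-(2 * Real.pi * (inner ℝ x e) : ℝ) * I : ℂ) * ρ)
          (-(2 * Real.pi * (inner ℝ x e) : ℝ) * I : ℂ) ρ := by
        simpa using (hasDerivAt_id ρ).const_mul (-(2 * Real.pi * (inner ℝ x e) : ℝ) * I : ℂ)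
      exact (h1.cexp).mul_const _)
  exact hres.2.differentiableAt

theorem HF_real {g : V → ℂ} (e : V) (t : ℝ) : HF g e t = 𝓕 g (t • e) := by
  rw [HF, Real.fourier_eq']
  apply integral_congr_ae
  refine Eventually.of_forall fun x => ?_
  simp only [smul_eq_mul]
  congr 2
  rw [inner_smul_right]
  push_cast
  ring

/-- real iterated derivatives of an entire function -/
theorem iteratedDeriv_real {H : ℂ → ℂ} (hH : Differentiable ℂ H) (j : ℕ) (t : ℝ) :
    iteratedDeriv j (fun s : ℝ => H s) t = iteratedDeriv j H t := by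
  induction j generalizing t with
  | zero => simp
  | succ j ih =>
    rw [iteratedDeriv_succ, iteratedDeriv_succ]
    have h1 : iteratedDeriv j (fun s : ℝ => H s) = fun s : ℝ => iteratedDeriv j H s := by
      funext s; exact ih s
    rw [h1]
    have h2 : Differentiable ℂ (iteratedDeriv j H) := by
      have h3 : ContDiff ℂ (j + 1 : ℕ) H := hH.contDiff
      exact h3.differentiable_iteratedDeriv j (by exact_mod_cast Nat.lt_succ_self j)
    exact ((h2 (t : ℂ)).hasDerivAt.comp_ofReal).deriv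

end Pool.Agent.GU
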