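import Mathlib

/-!
# MP_a65497_an: the maximum principle in a trapezoid
-/

set_option autoImplicit false

namespace Pool.Agent.GU

open Complex Filter Topology Set

/-- real part of the exponent -/
theorem re_psi (b P Q κ ω : ℝ) (s y : ℝ) :
    ((b : ℂ) + P * ((s : ℂ) + y * I) + Q / 2 * ((s : ℂ) + y * I) ^ 2
      - κ * Complex.cosh (ω * ((s : ℂ) + y * I))).re
    = b + P * s + Q / 2 * (s ^ 2 - y ^ 2) - κ * (Real.cosh (ω * s) * Real.cos (ω * y)) := by
  have h1 : (ω : ℂ) * ((s : ℂ) + y * I) = ((ω * s : ℝ) : ℂ) + ((ω * y : ℝ) : ℂ) * I := by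
    push_cast; ring
  have h2 : Complex.cosh (ω * ((s : ℂ) + y * I)) = ((Real.cosh (ω * s) * Real.cos (ω * y) : ℝ) : ℂ)
      + ((Real.sinh (ω * s) * Real.sin (ω * y) : ℝ) : ℂ) * I := by
    rw [h1, Complex.cosh_add, Complex.cosh_mul_I, Complex.sinh_mul_I]
    push_cast
    ring
  have h3 : ((s : ℂ) + y * I) ^ 2 = ((s ^ 2 - y ^ 2 : ℝ) : ℂ) + ((2 * s * y : ℝ) : ℂ) * I := by
    have : ((s : ℂ) + y * I) ^ 2 = (s : ℂ) ^ 2 + 2 * s * y * I + y ^ 2 * I ^ 2 := by ring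
    rw [this, I_sq]
    push_cast
    ring
  rw [h2, h3]
  have h4 : (Q / 2 : ℂ) = ((Q / 2 : ℝ) : ℂ) := by push_cast; ring
  rw [h4]
  simp only [Complex.sub_re, Complex.add_re, Complex.ofReal_re, Complex.mul_re, Complex.ofReal_im,
    Complex.I_re, Complex.I_im, Complex.add_im, Complex.mul_im]
  ring

theorem loc {FF : ℂ → ℂ} {r₀ P Q δ B C : ℝ} (hP : 0 < P) (hQ : 0 < Q) (hδ : 0 < δ)
    (hQδ : Q * δ ≤ P / 2) (hC : 0 ≤ C)
    (hd : ∀ ζ : ℂ, |ζ.re - r₀| ≤ δ → 2 * Real.pi * |ζ.im| ≤ P + Q * (ζ.re - r₀) →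
      DifferentiableAt ℂ FF ζ)
    (hb : ∀ ζ : ℂ, |ζ.re - r₀| ≤ δ → 2 * Real.pi * |ζ.im| ≤ P + Q * (ζ.re - r₀) →
      ‖FF ζ‖ ≤ C * Real.exp (-((ζ.re - r₀) * (2 * Real.pi * |ζ.im|)) - B
        + (2 * Real.pi * |ζ.im| - P) ^ 2 / (2 * Q))) :
    ‖FF r₀‖ ≤ C * Real.exp (-B - Q * P ^ 2 / (32 * Real.pi ^ 2)
      + (4 * P ^ 2 / Q + 2 * (Q * P ^ 2 / (32 * Real.pi ^ 2)))
        / Real.cosh (4 * Real.pi ^ 2 / (9 * P) * δ)) := by
  have hπ := Real.pi_pos
  set g₀ : ℝ := Q * P ^ 2 / (32 * Real.pi ^ 2) with hg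
  set K : ℝ := 4 * P ^ 2 / Q + 2 * g₀ with hK
  set ω : ℝ := 4 * Real.pi ^ 2 / (9 * P) with hω
  have hg0 : 0 < g₀ := by positivity
  have hK0 : 0 < K := by positivity
  have hω0 : 0 < ω := by positivity
  have hch : 0 < Real.cosh (ω * δ) := Real.cosh_pos _
  set κ : ℝ := K / Real.cosh (ω * δ) with hκ
  have hκ0 : 0 < κ := by positivity
  set Ψ : ℂ → ℂ := fun ζ => ((B + g₀ : ℝ) : ℂ) + P * (ζ - r₀) + Q / 2 * (ζ - r₀) ^ 2
      - κ * Complex.cosh (ω * (ζ - r₀)) with hΨ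
  have hΨre : ∀ ζ : ℂ, (Ψ ζ).re = (B + g₀) + P * (ζ.re - r₀)
      + Q / 2 * ((ζ.re - r₀) ^ 2 - ζ.im ^ 2)
      - κ * (Real.cosh (ω * (ζ.re - r₀)) * Real.cos (ω * ζ.im)) := by
    intro ζ
    rw [← re_psi]
    have e : ζ - r₀ = ((ζ.re - r₀ : ℝ) : ℂ) + ζ.im * I := by
      apply Complex.ext <;> simp
    simp only [hΨ]
    rw [e]
  have hΨd : Differentiable ℂ Ψ := by
    simp only [hΨ]
    fun_prop
  set U : Set ℂ := {ζ | |ζ.re - r₀| < δ ∧ 2 * Real.pi * |ζ.im| < P + Q * (ζ.re - r₀)} with hU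
  have hcre : Continuous fun ζ : ℂ => |ζ.re - r₀| :=
    (Complex.continuous_re.sub continuous_const).abs
  have hcim : Continuous fun ζ : ℂ => 2 * Real.pi * |ζ.im| :=
    continuous_const.mul Complex.continuous_im.abs
  have hclin : Continuous fun ζ : ℂ => P + Q * (ζ.re - r₀) :=
    continuous_const.add (continuous_const.mul (Complex.continuous_re.sub continuous_const))
  have hUo : IsOpen U := by
    apply IsOpen.inter
    · exact isOpen_lt hcre continuous_const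
    · exact isOpen_lt hcim hclin
  set W : Set ℂ := {ζ | |ζ.re - r₀| ≤ δ ∧ 2 * Real.pi * |ζ.im| ≤ P + Q * (ζ.re - r₀)} with hW
  have hWc : IsClosed W := by
    apply IsClosed.inter
    · exact isClosed_le hcre continuous_const
    · exact isClosed_le hcim hclin
  have hcl : closure U ⊆ W := closure_minimal (fun ζ hζ => ⟨hζ.1.le, hζ.2.le⟩) hWc
  -- general bounds in W
  have hs_up : ∀ ζ ∈ W, P / 2 ≤ P + Q * (ζ.re - r₀) ∧ P + Q * (ζ.re - r₀) ≤ 3 / 2 * P := by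
    intro ζ hζ
    have h1 := abs_le.1 hζ.1
    constructor
    · have : Q * (-δ) ≤ Q * (ζ.re - r₀) := mul_le_mul_of_nonneg_left h1.1 hQ.le
      linarith
    · have : Q * (ζ.re - r₀) ≤ Q * δ := mul_le_mul_of_nonneg_left h1.2 hQ.le
      linarith
  have hcos : ∀ ζ ∈ W, 1 / 2 ≤ Real.cos (ω * ζ.im) := by
    intro ζ hζ
    have h1 : 2 * Real.pi * |ζ.im| ≤ 3 / 2 * P := hζ.2.trans (hs_up ζ hζ).2
    have h2 : |ω * ζ.im| ≤ Real.pi / 3 := by
      rw [abs_mul, abs_of_pos hω0, hω]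
      have h3 : 4 * Real.pi ^ 2 / (9 * P) * |ζ.im|
          = (2 * Real.pi / (9 * P)) * (2 * Real.pi * |ζ.im|) := by
        field_simp; ring
      rw [h3]
      calc (2 * Real.pi / (9 * P)) * (2 * Real.pi * |ζ.im|)
          ≤ (2 * Real.pi / (9 * P)) * (3 / 2 * P) := mul_le_mul_of_nonneg_left h1 (by positivity)
        _ = Real.pi / 3 := by field_simp; ring
    rw [← Real.cos_pi_div_three, ← Real.cos_abs (ω * ζ.im)]
    exact Real.cos_le_cos_of_nonneg_of_le_pi (abs_nonneg _) (by linarith) h2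
  have hUb : Bornology.IsBounded U := by
    apply (Metric.isBounded_closedBall (x := (r₀ : ℂ)) (r := δ + 3 / 2 * P)).subset
    intro ζ hζ
    have hζW : ζ ∈ W := ⟨hζ.1.le, hζ.2.le⟩
    rw [Metric.mem_closedBall, dist_eq_norm]
    refine (Complex.norm_le_abs_re_add_abs_im _).trans ?_
    rw [Complex.sub_re, Complex.sub_im, Complex.ofReal_re, Complex.ofReal_im, sub_zero]
    have h1 : 2 * Real.pi * |ζ.im| ≤ 3 / 2 * P := hζW.2.trans (hs_up ζ hζW).2
    have h2 : |ζ.im| ≤ 2 * Real.pi * |ζ.im| := by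
      have := Real.two_le_pi
      nlinarith [abs_nonneg ζ.im]
    linarith [hζ.1]
  have hEd : DiffContOnCl ℂ (fun ζ => FF ζ * cexp (Ψ ζ)) U := by
    apply DifferentiableOn.diffContOnCl
    intro ζ hζ
    have hζW := hcl hζ
    exact ((hd ζ hζW.1 hζW.2).mul (hΨd ζ).cexp).differentiableWithinAt
  have hr0U : (r₀ : ℂ) ∈ closure U := by
    apply subset_closure
    simp only [hU, Set.mem_ofPred_eq, Complex.ofReal_re, Complex.ofReal_im, sub_self, abs_zero,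
      mul_zero, add_zero]
    exact ⟨hδ, hP⟩
  have hmax := Complex.norm_le_of_forall_mem_frontier_norm_le hUb hEd (C := C) ?_ hr0U
  · rw [norm_mul, Complex.norm_exp, hΨre] at hmax
    simp only [Complex.ofReal_re, Complex.ofReal_im, sub_self, mul_zero, add_zero,
      Real.cosh_zero, Real.cos_zero, mul_one, zero_pow (two_ne_zero)] at hmax
    have h2 : Real.exp (-B - g₀ + κ) * Real.exp (B + g₀ - κ) = 1 := by
      rw [← Real.exp_add]
      simp
    calc ‖FF r₀‖ = (‖FF r₀‖ * Real.exp (B + g₀ - κ)) * Real.exp (-B - g₀ + κ) := by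
          rw [mul_assoc, mul_comm (Real.exp (B + g₀ - κ)), h2, mul_one]
      _ ≤ C * Real.exp (-B - g₀ + κ) := mul_le_mul_of_nonneg_right hmax (Real.exp_pos _).le
  · intro ζ hζ
    rw [hUo.frontier_eq] at hζ
    have hζW : ζ ∈ W := hcl hζ.1
    rw [norm_mul, Complex.norm_exp, hΨre]
    refine (mul_le_mul_of_nonneg_right (hb ζ hζW.1 hζW.2) (Real.exp_pos _).le).trans ?_
    rw [mul_assoc, ← Real.exp_add]
    refine mul_le_of_le_one_right hC (Real.exp_le_one_iff.2 ?_)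
    have hT0 : 0 ≤ 2 * Real.pi * |ζ.im| := by positivity
    have hy2 : ζ.im ^ 2 = (2 * Real.pi * |ζ.im|) ^ 2 / (4 * Real.pi ^ 2) := by
      rw [mul_pow, mul_pow, sq_abs]
      field_simp
      ring
    set s := ζ.re - r₀ with hs
    set T := 2 * Real.pi * |ζ.im| with hT
    have hsup := hs_up ζ hζW
    rw [← hs] at hsup
    have hTle : T ≤ P + Q * s := hζW.2
    have hsd : |s| ≤ δ := hζW.1
    have hcosz := hcos ζ hζW
    have hcoshs : 1 ≤ Real.cosh (ω * s) := Real.one_le_cosh _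
    have hnot : ¬ (|s| < δ ∧ T < P + Q * s) := hζ.2
    by_cases hTe : T < P + Q * s
    · -- vertical ends
      have hse : |s| = δ := le_antisymm hsd (not_lt.1 fun h => hnot ⟨h, hTe⟩)
      have h1 : Real.cosh (ω * s) = Real.cosh (ω * δ) := by
        rw [← Real.cosh_abs, abs_mul, hse, abs_of_pos hω0]
      have h2 : κ * (Real.cosh (ω * s) * Real.cos (ω * ζ.im)) = K * Real.cos (ω * ζ.im) := by
        rw [h1, hκ]
        field_simp
      have h3 : K / 2 ≤ K * Real.cos (ω * ζ.im) := by nlinarith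
      rw [h2]
      have hPδ : P * δ ≤ P ^ 2 / (2 * Q) := by
        rw [le_div_iff₀ (by positivity)]
        nlinarith
      have hab := abs_le.1 hsd
      have hT1 : T ≤ 3 / 2 * P := hTle.trans hsup.2
      have h4 : -(s * T) ≤ 3 / 2 * (P * δ) := by
        have h5 : -s ≤ δ := by linarith
        calc -(s * T) = (-s) * T := by ring
          _ ≤ δ * T := mul_le_mul_of_nonneg_right h5 hT0
          _ ≤ δ * (3 / 2 * P) := mul_le_mul_of_nonneg_left hT1 hδ.le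
          _ = _ := by ring
      have h5 : (T - P) ^ 2 / (2 * Q) ≤ P ^ 2 / (2 * Q) := by
        apply div_le_div_of_nonneg_right _ (by positivity)
        exact sq_le_sq' (by linarith) (by linarith)
      have h6 : P * s ≤ P * δ := mul_le_mul_of_nonneg_left hab.2 hP.le
      have h7 : Q / 2 * (s ^ 2 - ζ.im ^ 2) ≤ P * δ / 4 := by
        have h8 : s ^ 2 = δ ^ 2 := by rw [← sq_abs, hse]
        rw [h8]
        have h9 : 0 ≤ Q / 2 * ζ.im ^ 2 := by positivity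
        nlinarith
      have hKd : K / 2 = 4 * (P ^ 2 / (2 * Q)) + g₀ := by
        rw [hK]; field_simp
      have hP2 : 0 ≤ P ^ 2 / (2 * Q) := by positivity
      linarith
    · -- the slanted sides
      have hTq : T = P + Q * s := le_antisymm hTle (not_lt.1 hTe)
      have h1 : 0 ≤ κ * (Real.cosh (ω * s) * Real.cos (ω * ζ.im)) := by
        apply mul_nonneg hκ0.le
        apply mul_nonneg <;> linarith
      have h2 : g₀ ≤ Q / 2 * ζ.im ^ 2 := by
        rw [hy2, hg]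
        have h3 : (P / 2) ^ 2 ≤ T ^ 2 := by
          apply pow_le_pow_left₀ (by positivity)
          rw [hTq]; exact hsup.1
        have h4 : Q * P ^ 2 / (32 * Real.pi ^ 2) = Q / 2 * ((P / 2) ^ 2 / (4 * Real.pi ^ 2)) := by
          field_simp; ring
        rw [h4]
        gcongr
      have h3 : (T - P) ^ 2 / (2 * Q) = Q * s ^ 2 / 2 := by
        rw [hTq, add_sub_cancel_left, mul_pow]
        field_simp
      rw [h3]
      have h4 : s * T = P * s + Q * s ^ 2 := by rw [hTq]; ring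
      rw [h4]
      linarith

/-- the local lemma with explicit smallness -/
theorem loc2 {FF : ℂ → ℂ} {r₀ P Q δ B C c : ℝ} (hP : 0 < P) (hQ : 0 < Q) (hδ : 0 < δ)
    (hQδ : Q * δ ≤ P / 2) (hC : 0 ≤ C) (hc : 0 < c) (hQ1 : Q ≤ 1) (hQc : 31200 * Q ≤ c ^ 3)
    (hX : c / Q ≤ 4 * Real.pi ^ 2 / (9 * P) * δ)
    (hd : ∀ ζ : ℂ, |ζ.re - r₀| ≤ δ → 2 * Real.pi * |ζ.im| ≤ P + Q * (ζ.re - r₀) →
      DifferentiableAt ℂ FF ζ)
    (hb : ∀ ζ : ℂ, |ζ.re - r₀| ≤ δ → 2 * Real.pi * |ζ.im| ≤ P + Q * (ζ.re - r₀) →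
      ‖FF ζ‖ ≤ C * Real.exp (-((ζ.re - r₀) * (2 * Real.pi * |ζ.im|)) - B
        + (2 * Real.pi * |ζ.im| - P) ^ 2 / (2 * Q))) :
    ‖FF r₀‖ ≤ C * Real.exp (-B - Q * P ^ 2 / (64 * Real.pi ^ 2)) := by
  have hπ := Real.pi_pos
  refine (loc hP hQ hδ hQδ hC hd hb).trans ?_
  apply mul_le_mul_of_nonneg_left _ hC
  apply Real.exp_le_exp.2
  set g₀ : ℝ := Q * P ^ 2 / (32 * Real.pi ^ 2) with hg
  have hg0 : 0 < g₀ := by positivity
  set X := 4 * Real.pi ^ 2 / (9 * P) * δ with hXdef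
  have hcQ : 0 < c / Q := by positivity
  have hX0 : 0 < X := hcQ.trans_le hX
  have h1 : (c / Q) ^ 3 / 12 ≤ Real.cosh X := by
    have h2 : X ^ 3 / 6 ≤ Real.exp X := by
      have := Real.pow_div_factorial_le_exp X hX0.le 3
      simpa [Nat.factorial] using this
    have h3 : Real.exp X / 2 ≤ Real.cosh X := by
      rw [Real.cosh_eq]
      have := Real.exp_pos (-X)
      linarith
    have h4 : (c / Q) ^ 3 ≤ X ^ 3 := pow_le_pow_left₀ hcQ.le hX 3
    linarith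
  have h2 : (4 * P ^ 2 / Q + 2 * g₀) / Real.cosh X ≤ g₀ / 2 := by
    have h3 : 0 < (c / Q) ^ 3 / 12 := by positivity
    rw [div_le_iff₀ (h3.trans_le h1)]
    have h4 : g₀ / 2 * ((c / Q) ^ 3 / 12) ≤ g₀ / 2 * Real.cosh X :=
      mul_le_mul_of_nonneg_left h1 (by positivity)
    refine le_trans ?_ h4
    have h5 : 4 * P ^ 2 / Q = 128 * Real.pi ^ 2 * g₀ / Q ^ 2 := by
      rw [hg]; field_simp; ring
    rw [h5]
    have hπ2 : Real.pi ^ 2 ≤ 10 := by
      have := Real.pi_lt_d2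
      nlinarith
    have h6 : 128 * Real.pi ^ 2 * g₀ / Q ^ 2 + 2 * g₀ = g₀ * (128 * Real.pi ^ 2 + 2 * Q ^ 2) / Q ^ 2 := by
      field_simp
    have h7 : g₀ / 2 * ((c / Q) ^ 3 / 12) = g₀ * (c ^ 3 / (24 * Q)) / Q ^ 2 := by
      field_simp
      ring
    rw [h6, h7]
    apply div_le_div_of_nonneg_right _ (by positivity)
    apply mul_le_mul_of_nonneg_left _ hg0.le
    rw [le_div_iff₀ (by positivity)]
    have h8 : Q ^ 2 ≤ 1 := by nlinarith
    have h9 : 128 * Real.pi ^ 2 + 2 * Q ^ 2 ≤ 1300 := by nlinarith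
    calc (128 * Real.pi ^ 2 + 2 * Q ^ 2) * (24 * Q) ≤ 1300 * (24 * Q) :=
          mul_le_mul_of_nonneg_right h9 (by positivity)
      _ = 31200 * Q := by ring
      _ ≤ c ^ 3 := hQc
  have h3 : Q * P ^ 2 / (64 * Real.pi ^ 2) = g₀ / 2 := by rw [hg]; field_simp; ring
  rw [h3]
  linarith

end Pool.Agent.GU
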