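import Mathlib

/-!
# MP_a65497_an: convexity of powers
-/

set_option autoImplicit false

namespace Pool.Agent.GU

open Set

theorem rpow_lower {s t : ℝ} (hs : 0 ≤ s) (ht : 0 < t) : 1 + s * ((t - 1) / t) ≤ t ^ s := by
  have h1 : 1 - 1 / t ≤ Real.log t := by
    have := Real.one_sub_inv_le_log_of_pos ht
    rwa [inv_eq_one_div] at this
  have h2 : (t - 1) / t = 1 - 1 / t := by field_simp
  rw [h2, Real.rpow_def_of_pos ht]
  have h3 := Real.add_one_le_exp (Real.log t * s)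
  nlinarith

theorem rpow_upper {s t : ℝ} (hs : 0 ≤ s) (hs1 : s ≤ 1) (ht : 0 ≤ t) : t ^ s ≤ 1 + s * (t - 1) := by
  have h := rpow_one_add_le_one_add_mul_self (s := t - 1) (by linarith) hs hs1
  rwa [add_sub_cancel] at h

theorem hasDeriv1 {p c : ℝ} (hp : 1 < p) (t : ℝ) :
    HasDerivAt (fun t : ℝ => t ^ p - p * (t - 1) - c * (t - 1) ^ 2)
      (p * t ^ (p - 1) - p - 2 * c * (t - 1)) t := by
  have h1 := Real.hasDerivAt_rpow_const (x := t) (p := p) (Or.inr hp.le)
  have h2 : HasDerivAt (fun t : ℝ => t - 1) 1 t := (hasDerivAt_id t).sub_const 1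
  have h3 := (h1.sub (h2.const_mul p)).sub ((h2.pow 2).const_mul c)
  refine h3.congr_deriv ?_
  simp
  ring

theorem pow1 {p t : ℝ} (hp : 1 < p) (hp2 : p < 2) (ht : 0 ≤ t) (ht2 : t ≤ 5 / 4) :
    1 + p * (t - 1) + 2 / 5 * p * (p - 1) * (t - 1) ^ 2 ≤ t ^ p := by
  set φ : ℝ → ℝ := fun t => t ^ p - p * (t - 1) - (2 / 5 * p * (p - 1)) * (t - 1) ^ 2 with hφ
  have hd : ∀ t, HasDerivAt φ (p * t ^ (p - 1) - p - 2 * (2 / 5 * p * (p - 1)) * (t - 1)) t :=
    fun t => hasDeriv1 hp t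
  have hc : Continuous φ := continuous_iff_continuousAt.2 fun t => (hd t).continuousAt
  have h1 : φ 1 = 1 := by simp [hφ]
  have key : 1 ≤ φ t := by
    rw [← h1]
    rcases le_total t 1 with h | h
    · have ha : AntitoneOn φ (Icc 0 1) := by
        apply antitoneOn_of_deriv_nonpos (convex_Icc 0 1) hc.continuousOn
        · exact fun x _ => (hd x).differentiableAt.differentiableWithinAt
        · intro x hx
          rw [interior_Icc] at hx
          rw [(hd x).deriv]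
          have h2 := rpow_upper (s := p - 1) (t := x) (by linarith) (by linarith) hx.1.le
          have h3 : p * x ^ (p - 1) ≤ p * (1 + (p - 1) * (x - 1)) :=
            mul_le_mul_of_nonneg_left h2 (by linarith)
          have h4 : p * (p - 1) * (x - 1) ≤ 0 :=
            mul_nonpos_of_nonneg_of_nonpos (mul_nonneg (by linarith) (by linarith))
              (by linarith [hx.2])
          nlinarith
      exact ha ⟨ht, h⟩ ⟨by norm_num, le_rfl⟩ h
    · have ha : MonotoneOn φ (Icc 1 (5 / 4)) := by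
        apply monotoneOn_of_deriv_nonneg (convex_Icc 1 (5 / 4)) hc.continuousOn
        · exact fun x _ => (hd x).differentiableAt.differentiableWithinAt
        · intro x hx
          rw [interior_Icc] at hx
          rw [(hd x).deriv]
          have hx0 : 0 < x := by linarith [hx.1]
          have h2 := rpow_lower (s := p - 1) (t := x) (by linarith) hx0
          have h3 : p * (1 + (p - 1) * ((x - 1) / x)) ≤ p * x ^ (p - 1) :=
            mul_le_mul_of_nonneg_left h2 (by linarith)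
          have h5 : 4 / 5 * (x - 1) ≤ (x - 1) / x := by
            rw [le_div_iff₀ hx0]
            nlinarith [hx.1, hx.2]
          have h6 : p * (p - 1) * (4 / 5 * (x - 1)) ≤ p * (p - 1) * ((x - 1) / x) :=
            mul_le_mul_of_nonneg_left h5 (mul_nonneg (by linarith) (by linarith))
          nlinarith
      exact ha ⟨le_rfl, by norm_num⟩ ⟨h, ht2⟩ h
  simp only [hφ] at key
  linarith

theorem pow2 {p t : ℝ} (hp : 1 < p) (hp2 : p < 2) (ht : 5 / 4 ≤ t) :
    1 + p * (t - 1) + 1 / 10 * p * (p - 1) * (t - 1) ≤ t ^ p := by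
  set φ : ℝ → ℝ := fun t => t ^ p - (p + 1 / 10 * p * (p - 1)) * (t - 1) - 0 * (t - 1) ^ 2 with hφ
  have hd : ∀ t, HasDerivAt φ (p * t ^ (p - 1) - (p + 1 / 10 * p * (p - 1))) t := by
    intro t
    have h1 := Real.hasDerivAt_rpow_const (x := t) (p := p) (Or.inr hp.le)
    have h2 : HasDerivAt (fun t : ℝ => t - 1) 1 t := (hasDerivAt_id t).sub_const 1
    have h3 := (h1.sub (h2.const_mul (p + 1 / 10 * p * (p - 1)))).sub ((h2.pow 2).const_mul 0)
    refine h3.congr_deriv ?_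
    simp
  have hc : Continuous φ := continuous_iff_continuousAt.2 fun t => (hd t).continuousAt
  have h0 := pow1 (t := 5 / 4) hp hp2 (by norm_num) le_rfl
  have ha : MonotoneOn φ (Ici (5 / 4)) := by
    apply monotoneOn_of_deriv_nonneg (convex_Ici _) hc.continuousOn
    · exact fun x _ => (hd x).differentiableAt.differentiableWithinAt
    · intro x hx
      rw [interior_Ici] at hx
      have hx1 : 5 / 4 < x := hx
      rw [(hd x).deriv]
      have hx0 : 0 < x := by linarith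
      have h2 := rpow_lower (s := p - 1) (t := x) (by linarith) hx0
      have h3 : p * (1 + (p - 1) * ((x - 1) / x)) ≤ p * x ^ (p - 1) :=
        mul_le_mul_of_nonneg_left h2 (by linarith)
      have h5 : 1 / 10 ≤ (x - 1) / x := by
        rw [le_div_iff₀ hx0]
        linarith
      have h6 : p * (p - 1) * (1 / 10) ≤ p * (p - 1) * ((x - 1) / x) :=
        mul_le_mul_of_nonneg_left h5 (mul_nonneg (by linarith) (by linarith))
      nlinarith
  have h1 := ha (a := 5 / 4) (b := t) (Set.mem_Ici.2 le_rfl) (Set.mem_Ici.2 ht) ht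
  simp only [hφ] at h1
  have h4 : (5 / 4 - 1 : ℝ) = 1 / 4 := by norm_num
  rw [h4] at h0 h1
  nlinarith

/-- the Legendre transform of `λ ρ ^ p` near the slope at `r₀` -/
theorem star {p l r₀ τ : ℝ} (hp : 1 < p) (hp2 : p < 2) (hl : 0 < l) (hr : 0 < r₀)
    {P Q : ℝ} (hP : P = l * p * r₀ ^ (p - 1)) (hQ : Q = 4 / 5 * (l * p * (p - 1) * r₀ ^ (p - 2)))
    (hτ : τ ≤ P + Q * r₀ / 8) {ρ : ℝ} (hρ : 0 ≤ ρ) :
    τ * ρ - l * ρ ^ p ≤ τ * r₀ - l * r₀ ^ p + (τ - P) ^ 2 / (2 * Q) := by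
  have hrp2 : 0 < r₀ ^ (p - 2) := Real.rpow_pos_of_pos hr _
  have hQ0 : 0 < Q := by
    rw [hQ]
    have : 0 < p - 1 := by linarith
    positivity
  have e1 : r₀ ^ (p - 1) = r₀ ^ (p - 2) * r₀ := by
    rw [show p - 1 = (p - 2) + 1 by ring, Real.rpow_add hr, Real.rpow_one]
  have e2 : r₀ ^ p = r₀ ^ (p - 2) * r₀ ^ 2 := by
    rw [show p = (p - 2) + 2 by ring, Real.rpow_add hr, Real.rpow_two]
    ring_nf
  set t := ρ / r₀ with ht
  have hρt : ρ = r₀ * t := by rw [ht]; field_simp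
  have ht0 : 0 ≤ t := by positivity
  have e3 : ρ ^ p = r₀ ^ p * t ^ p := by rw [hρt, Real.mul_rpow hr.le ht0]
  set m := l * r₀ ^ p with hm
  have hm0 : 0 < m := by rw [hm]; positivity
  have hPr : P * r₀ = p * m := by rw [hP, hm, e1, e2]; ring
  have hQr : Q * r₀ ^ 2 = 4 / 5 * p * (p - 1) * m := by rw [hQ, hm, e2]; ring
  have hlow : l * ρ ^ p = m * t ^ p := by rw [e3, hm]; ring
  rw [hlow]
  have hsq : (τ - P) * (ρ - r₀) - Q / 2 * (ρ - r₀) ^ 2 ≤ (τ - P) ^ 2 / (2 * Q) := by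
    have h1 : 0 ≤ (Q * (ρ - r₀) - (τ - P)) ^ 2 / (2 * Q) := by positivity
    have h2 : (Q * (ρ - r₀) - (τ - P)) ^ 2 / (2 * Q) = Q / 2 * (ρ - r₀) ^ 2
        - (τ - P) * (ρ - r₀) + (τ - P) ^ 2 / (2 * Q) := by
      field_simp
      ring
    linarith
  rcases le_total t (5 / 4) with h | h
  · have h1 := pow1 hp hp2 ht0 h
    have h2 := mul_le_mul_of_nonneg_left h1 hm0.le
    have h3 : m * (1 + p * (t - 1) + 2 / 5 * p * (p - 1) * (t - 1) ^ 2)
        = m + P * (ρ - r₀) + Q / 2 * (ρ - r₀) ^ 2 := by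
      have e4 : P * (ρ - r₀) = p * m * (t - 1) := by
        rw [hρt, show P * (r₀ * t - r₀) = P * r₀ * (t - 1) by ring, hPr]
      have e5 : Q / 2 * (ρ - r₀) ^ 2 = 2 / 5 * p * (p - 1) * m * (t - 1) ^ 2 := by
        rw [hρt, show Q / 2 * (r₀ * t - r₀) ^ 2 = Q * r₀ ^ 2 / 2 * (t - 1) ^ 2 by ring, hQr]
        ring
      rw [e4, e5]
      ring
    rw [h3] at h2
    linarith
  · have h1 := pow2 hp hp2 h
    have h2 := mul_le_mul_of_nonneg_left h1 hm0.le
    have h3 : m * (1 + p * (t - 1) + 1 / 10 * p * (p - 1) * (t - 1))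
        = m + P * (ρ - r₀) + Q * r₀ / 8 * (ρ - r₀) := by
      have e4 : P * (ρ - r₀) = p * m * (t - 1) := by
        rw [hρt, show P * (r₀ * t - r₀) = P * r₀ * (t - 1) by ring, hPr]
      have e5 : Q * r₀ / 8 * (ρ - r₀) = 1 / 10 * p * (p - 1) * m * (t - 1) := by
        rw [hρt, show Q * r₀ / 8 * (r₀ * t - r₀) = Q * r₀ ^ 2 / 8 * (t - 1) by ring, hQr]
        ring
      rw [e4, e5]
      ring
    rw [h3] at h2
    have h4 : 0 ≤ ρ - r₀ := by
      rw [hρt]
      nlinarith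
    have h5 : (τ - P) * (ρ - r₀) ≤ Q * r₀ / 8 * (ρ - r₀) :=
      mul_le_mul_of_nonneg_right (by linarith) h4
    have h6 : 0 ≤ (τ - P) ^ 2 / (2 * Q) := by positivity
    linarith

end Pool.Agent.GU
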