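import Pool.Agent.Lib_helper71.GU.Quo
import Pool.Agent.Lib_helper71.GU.Pow
import Pool.Agent.Lib_helper71.GU.Loc
import Pool.Agent.Lib_helper71.GU.Fin

/-!
# MP_a65497_an: the decay of the Fourier transform, weights `exp (- l r ^ p)`
-/

set_option autoImplicit false

namespace Pool.Agent.GU

open MeasureTheory Complex Filter Topology
open scoped FourierTransform SchwartzMap

theorem toHyp0 {H : ℂ → ℂ} (hH : Differentiable ℂ H) {k n₀ : ℕ} (hk : 0 < k) (hn : 1 ≤ n₀)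
    (ho : ∀ n : ℕ, n₀ ≤ n → (k : ℕ∞) ≤ analyticOrderAt H (Real.sqrt (k * n) : ℝ)) :
    Hyp0 k (fun w => H (sq (w + ((k * n₀ - k / 2 : ℝ) : ℂ)))) := by
  have hk0 : (0 : ℝ) < k := by exact_mod_cast hk
  have hn0 : (1 : ℝ) ≤ n₀ := by exact_mod_cast hn
  have hσ : (k / 2 : ℝ) ≤ k * n₀ - k / 2 := by nlinarith
  refine ⟨hk, ?_, ?_⟩
  · intro w hw
    have h1 : 0 < (w + ((k * n₀ - k / 2 : ℝ) : ℂ)).re := by
      rw [Complex.add_re, Complex.ofReal_re]
      linarith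
    have h2 : DifferentiableAt ℂ (fun w : ℂ => w + ((k * n₀ - k / 2 : ℝ) : ℂ)) w :=
      differentiableAt_id.add_const _
    have h3 : DifferentiableAt ℂ (fun w : ℂ => sq (w + ((k * n₀ - k / 2 : ℝ) : ℂ))) w :=
      DifferentiableAt.comp (g := sq) w (sq_diff h1) h2
    exact DifferentiableAt.comp (g := H) w (hH _) h3
  · intro m
    have e1 : (wz k m : ℂ) + ((k * n₀ - k / 2 : ℝ) : ℂ) = ((k * (n₀ + m : ℕ) : ℝ) : ℂ) := by
      rw [wz]
      push_cast
      ring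
    have e2 : sq ((wz k m : ℂ) + ((k * n₀ - k / 2 : ℝ) : ℂ))
        = (Real.sqrt (k * (n₀ + m : ℕ)) : ℝ) := by
      rw [e1, sq_real (by positivity)]
    apply order_sq
    · rw [Complex.add_re, Complex.ofReal_re, Complex.ofReal_re]
      linarith [wz_pos hk m]
    · exact (hH.analyticAt _)
    · rw [e2]
      exact ho _ (by omega)

theorem sq_re_nonneg (z : ℂ) : 0 ≤ (sq z).re := by
  rcases eq_or_ne z 0 with h | h
  · rw [h, sq, Complex.zero_cpow (by norm_num)]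
    simp
  · rw [sq, Complex.cpow_def_of_ne_zero h]
    rw [Complex.exp_re]
    apply mul_nonneg (Real.exp_pos _).le
    apply Real.cos_nonneg_of_neg_pi_div_two_le_of_le
    · have h1 : (Complex.log z * (((2 : ℕ) : ℂ)⁻¹)).im = Complex.arg z / 2 := by
        have : (((2 : ℕ) : ℂ)⁻¹) = (((1 / 2 : ℝ)) : ℂ) := by push_cast; norm_num
        rw [this, Complex.mul_im, Complex.ofReal_re, Complex.ofReal_im, Complex.log_im]
        ring
      rw [h1]
      linarith [Complex.neg_pi_lt_arg z]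
    · have h1 : (Complex.log z * (((2 : ℕ) : ℂ)⁻¹)).im = Complex.arg z / 2 := by
        have : (((2 : ℕ) : ℂ)⁻¹) = (((1 / 2 : ℝ)) : ℂ) := by push_cast; norm_num
        rw [this, Complex.mul_im, Complex.ofReal_re, Complex.ofReal_im, Complex.log_im]
        ring
      rw [h1]
      linarith [Complex.arg_le_pi z]

theorem sq_close {z ζ : ℂ} (hζ : 0 < ζ.re) : ‖sq z - ζ‖ ≤ ‖z - ζ ^ 2‖ / ζ.re := by
  rw [le_div_iff₀ hζ]
  have h1 : (sq z - ζ) * (sq z + ζ) = z - ζ ^ 2 := by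
    have := sq_sq z
    linear_combination this
  have h2 : ζ.re ≤ ‖sq z + ζ‖ := by
    have h3 := Complex.re_le_norm (sq z + ζ)
    rw [Complex.add_re] at h3
    linarith [sq_re_nonneg z]
  calc ‖sq z - ζ‖ * ζ.re ≤ ‖sq z - ζ‖ * ‖sq z + ζ‖ :=
        mul_le_mul_of_nonneg_left h2 (norm_nonneg _)
    _ = _ := by rw [← norm_mul, h1]

theorem sq_of_sq {r : ℝ} (hr : 0 ≤ r) : sq ((r : ℂ) ^ 2) = r := by
  have : ((r : ℂ) ^ 2) = ((r ^ 2 : ℝ) : ℂ) := by push_cast; ring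
  rw [this, sq_real (by positivity), Real.sqrt_sq hr]

variable {V : Type*} [NormedAddCommGroup V] [InnerProductSpace ℝ V] [FiniteDimensional ℝ V]
  [MeasurableSpace V] [BorelSpace V]

/-- the exponent beats all linear functions -/
theorem lin_bound {p l : ℝ} (hp : 1 < p) (hl : 0 < l) (T : ℝ) :
    ∃ A : ℝ, ∀ u : ℝ, 0 ≤ u → T * u - l * u ^ p ≤ A := by
  obtain ⟨R, hR⟩ := (tendsto_rpow_atTop (y := p - 1) (by linarith)).eventually_ge_atTop (T / l)
    |>.exists_forall_of_atTop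
  refine ⟨|T| * |R|, fun u hu => ?_⟩
  have hlu : 0 ≤ l * u ^ p := mul_nonneg hl.le (Real.rpow_nonneg hu _)
  rcases le_total R u with h | h
  · have h1 := hR u h
    have h2 : u ^ p = u ^ (p - 1) * u := by
      rcases eq_or_lt_of_le hu with h0 | h0
      · rw [← h0, Real.zero_rpow (by linarith), mul_zero]
      · rw [show p = (p - 1) + 1 by ring, Real.rpow_add h0, Real.rpow_one]
        ring_nf
    have h3 : T ≤ l * u ^ (p - 1) := by
      rw [div_le_iff₀ hl] at h1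
      linarith
    have h4 : T * u ≤ l * u ^ p := by
      rw [h2, ← mul_assoc]
      exact mul_le_mul_of_nonneg_right h3 hu
    have : 0 ≤ |T| * |R| := by positivity
    linarith
  · have h1 : T * u ≤ |T| * |R| := by
      calc T * u ≤ |T| * u := mul_le_mul_of_nonneg_right (le_abs_self _) hu
        _ ≤ |T| * |R| := mul_le_mul_of_nonneg_left (h.trans (le_abs_self _)) (abs_nonneg _)
    linarith

theorem wt_le_one (x : V) : wt V x ≤ 1 := by
  unfold wt
  have := norm_nonneg x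
  exact inv_le_one_of_one_le₀ (one_le_pow₀ (by linarith))

theorem se_of {g : V → ℂ} {M l p : ℝ} (hM : 0 ≤ M) (hp : 1 < p) (hl : 0 < l)
    (hg : ∀ x, ‖g x‖ ≤ M * (wt V x * Real.exp (-(l * ‖x‖ ^ p)))) : SE g := by
  intro T
  obtain ⟨A, hA⟩ := lin_bound hp hl T
  refine ⟨M * Real.exp A, fun x => (hg x).trans ?_⟩
  rw [mul_assoc, ← Real.exp_add]
  apply mul_le_mul_of_nonneg_left _ hM
  have h1 := hA ‖x‖ (norm_nonneg x)
  calc wt V x * Real.exp (-(l * ‖x‖ ^ p)) ≤ 1 * Real.exp (-(l * ‖x‖ ^ p)) :=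
        mul_le_mul_of_nonneg_right (wt_le_one x) (Real.exp_pos _).le
    _ ≤ _ := by
        rw [one_mul]
        apply Real.exp_le_exp.2
        linarith

theorem lemL {e : V} (he : ‖e‖ = 1) {k n₀ : ℕ} (hk : 0 < k) (hn : 1 ≤ n₀) {p : ℝ} (hp : 1 < p)
    (hp2 : p < 2) : ∃ C Q₀ R₁ : ℝ, 0 < C ∧ 0 < Q₀ ∧ 1 ≤ R₁ ∧
    ∀ (g : V → ℂ) (M l r₀ P Q : ℝ), Continuous g → 0 ≤ M → 0 < l → R₁ ≤ r₀ →
      P = l * p * r₀ ^ (p - 1) → Q = 4 / 5 * (l * p * (p - 1) * r₀ ^ (p - 2)) →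
      Q ≤ Q₀ → 32 * Real.pi * k ≤ Q * r₀ ^ 2 →
      (∀ x, ‖g x‖ ≤ M * (wt V x * Real.exp (-(l * ‖x‖ ^ p)))) → Zer k n₀ e (𝓕 g) →
      ‖𝓕 g (r₀ • e)‖ ≤ C * M * Real.exp (-(l * r₀ ^ p) - Q * P ^ 2 / (64 * Real.pi ^ 2)) := by
  have hπ := Real.pi_pos
  have hk0 : (0 : ℝ) < k := by exact_mod_cast hk
  have hk1 : (1 : ℝ) ≤ k := by exact_mod_cast hk
  have hn0 : (1 : ℝ) ≤ n₀ := by exact_mod_cast hn
  have hp1 : 0 < p - 1 := by linarith
  set I₀ : ℝ := ∫ x : V, wt V x with hI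
  have hI0 : 0 ≤ I₀ := integral_nonneg fun x => (wt_pos x).le
  set c : ℝ := Real.pi ^ 2 * (p - 1) / 45 with hc
  have hc0 : 0 < c := by positivity
  set ε₁ : ℝ := 2 * Real.pi * k + 5 / 4 * Real.pi * k / (p - 1) + Real.pi * k / 16 with hε₁
  set C : ℝ := 4 ^ k * Real.exp (Real.pi * k) * ((I₀ + 1) * Real.exp ε₁) with hC
  have hC0 : 0 < C := by positivity
  refine ⟨C, min (min 1 (c ^ 3 / 31200)) ((p - 1) / 2), 1 + 2 * (k * n₀), hC0, by positivity,
    by nlinarith [mul_pos hk0 (by linarith : (0 : ℝ) < n₀)], ?_⟩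
  intro g M l r₀ P Q hgc hM hl hr₀ hP hQ hQ₀ hQr hg hz
  have hQ1 : Q ≤ 1 := hQ₀.trans ((min_le_left _ _).trans (min_le_left _ _))
  have hQc : Q ≤ c ^ 3 / 31200 := hQ₀.trans ((min_le_left _ _).trans (min_le_right _ _))
  have hQp : Q ≤ (p - 1) / 2 := hQ₀.trans (min_le_right _ _)
  have hkn : 0 < (k : ℝ) * n₀ := by positivity
  have hr1 : 1 ≤ r₀ := by linarith
  have hr : 0 < r₀ := by linarith
  have hrp2 : 0 < r₀ ^ (p - 2) := Real.rpow_pos_of_pos hr _
  have hQ0 : 0 < Q := by rw [hQ]; positivity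
  have hPQ : P = 5 / 4 * Q * r₀ / (p - 1) := by
    have e1 : r₀ ^ (p - 1) = r₀ ^ (p - 2) * r₀ := by
      rw [show p - 1 = (p - 2) + 1 by ring, Real.rpow_add hr, Real.rpow_one]
    rw [hP, hQ, e1]
    field_simp
  have hP0 : 0 < P := by rw [hPQ]; positivity
  have hPr : P ≤ 5 / 8 * r₀ := by
    rw [hPQ, div_le_iff₀ hp1]
    nlinarith
  set σ : ℝ := k * n₀ - k / 2 with hσ
  have hσ0 : 0 ≤ σ := by rw [hσ]; nlinarith
  have hσr : σ ≤ 3 / 4 * r₀ ^ 2 := by
    have : r₀ ≤ r₀ ^ 2 := by nlinarith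
    rw [hσ]
    nlinarith
  set B : ℝ := l * r₀ ^ p with hB
  set δ : ℝ := r₀ / 16 with hδ
  have hδ0 : 0 < δ := by positivity
  have hse := se_of hM hp hl hg
  have hH := HF_diff2 hgc hse he
  set h : ℂ → ℂ := fun w => HF g e (sq (w + (σ : ℂ))) with hh
  have H0 : Hyp0 k h := toHyp0 hH hk hn (order_of_zer hH hz)
  set FF : ℂ → ℂ := fun ζ => Fd k h (ζ ^ 2 - σ) with hFF
  -- geometry
  have hgeo : ∀ ζ : ℂ, |ζ.re - r₀| ≤ δ → 2 * Real.pi * |ζ.im| ≤ P + Q * (ζ.re - r₀) →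
      r₀ / 2 ≤ ζ.re ∧ 2 * Real.pi * |ζ.im| ≤ P + Q * r₀ / 16 ∧ 2 * Real.pi * |ζ.im| ≤ 3 / 2 * P ∧
        0 ≤ (ζ ^ 2 - σ).re := by
    intro ζ h1 h2
    have hab := abs_le.1 h1
    have h3 : 15 / 16 * r₀ ≤ ζ.re := by rw [hδ] at hab; linarith
    have h4 : Q * (ζ.re - r₀) ≤ Q * (r₀ / 16) := mul_le_mul_of_nonneg_left hab.2 hQ0.le
    have h5 : Q * (r₀ / 16) ≤ P / 2 := by
      rw [hPQ]
      rw [show 5 / 4 * Q * r₀ / (p - 1) / 2 = (Q * r₀) * (5 / 8 / (p - 1)) by ring]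
      have h6 : 1 / 16 ≤ 5 / 8 / (p - 1) := by
        rw [le_div_iff₀ hp1]; linarith
      calc Q * (r₀ / 16) = (Q * r₀) * (1 / 16) := by ring
        _ ≤ _ := mul_le_mul_of_nonneg_left h6 (by positivity)
    refine ⟨by linarith, by linarith, by linarith, ?_⟩
    have h7 : (ζ ^ 2 - σ).re = ζ.re ^ 2 - ζ.im ^ 2 - σ := by
      rw [Complex.sub_re, Complex.ofReal_re, pow_two, Complex.mul_re]
      ring
    rw [h7]
    have h8 : |ζ.im| ≤ 15 / 64 * r₀ := by
      have h9 : 2 * Real.pi * |ζ.im| ≤ 15 / 16 * r₀ := by linarith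
      have h10 : 4 * |ζ.im| ≤ 2 * Real.pi * |ζ.im| := by
        have := Real.two_le_pi
        nlinarith [abs_nonneg ζ.im]
      linarith
    have h9 : ζ.im ^ 2 ≤ (15 / 64 * r₀) ^ 2 := by
      rw [← sq_abs ζ.im]
      exact pow_le_pow_left₀ (abs_nonneg _) h8 2
    have h10 : (15 / 16 * r₀) ^ 2 ≤ ζ.re ^ 2 := pow_le_pow_left₀ (by positivity) h3 2
    nlinarith
  have hmain : ‖FF r₀‖ ≤ (C * M) * Real.exp (-B - Q * P ^ 2 / (64 * Real.pi ^ 2)) := by
    apply loc2 (δ := δ) (c := c) hP0 hQ0 hδ0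
    · rw [hδ, hPQ]
      rw [show 5 / 4 * Q * r₀ / (p - 1) / 2 = (Q * r₀) * (5 / 8 / (p - 1)) by ring]
      have h6 : 1 / 16 ≤ 5 / 8 / (p - 1) := by
        rw [le_div_iff₀ hp1]; linarith
      calc Q * (r₀ / 16) = (Q * r₀) * (1 / 16) := by ring
        _ ≤ _ := mul_le_mul_of_nonneg_left h6 (by positivity)
    · positivity
    · exact hc0
    · exact hQ1
    · rw [le_div_iff₀ (by norm_num)] at hQc
      linarith
    · apply le_of_eq
      rw [hc, hPQ, hδ]
      field_simp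
      ring
    · intro ζ h1 h2
      obtain ⟨-, -, -, h3⟩ := hgeo ζ h1 h2
      have h4 : DifferentiableAt ℂ (Fd k h) (ζ ^ 2 - σ) := by
        apply H0.Fdiff
        linarith
      have h5 : DifferentiableAt ℂ (fun ζ : ℂ => ζ ^ 2 - (σ : ℂ)) ζ := by fun_prop
      exact DifferentiableAt.comp (g := Fd k h) ζ h4 h5
    · intro ζ h1 h2
      obtain ⟨hre, hT1, hT2, h3⟩ := hgeo ζ h1 h2
      have hre0 : 0 < ζ.re := by linarith
      set T := 2 * Real.pi * |ζ.im| with hT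
      have hT0 : 0 ≤ T := by positivity
      set ε := 2 * Real.pi * k / r₀ with hε
      have hε0 : 0 < ε := by positivity
      have hεQ : ε ≤ Q * r₀ / 16 := by
        rw [hε, div_le_iff₀ hr]
        nlinarith
      set Θ := (T + ε) * r₀ - B + (T + ε - P) ^ 2 / (2 * Q) with hΘ
      have hS : ∀ z : ℂ, ‖z - (ζ ^ 2 - σ)‖ ≤ k / 2 → ‖h z‖ ≤ M * I₀ * Real.exp Θ := by
        intro z hz
        apply HF_bound2 hM (B := fun u => l * u ^ p) hg he
        intro u hu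
        have h4 := sq_close (z := z + σ) hre0
        have h5 : z + σ - ζ ^ 2 = z - (ζ ^ 2 - σ) := by ring
        rw [h5] at h4
        have h6 : ‖z - (ζ ^ 2 - σ)‖ / ζ.re ≤ k / r₀ := by
          rw [div_le_div_iff₀ hre0 hr]
          calc ‖z - (ζ ^ 2 - σ)‖ * r₀ ≤ k / 2 * r₀ := mul_le_mul_of_nonneg_right hz hr.le
            _ = k * (r₀ / 2) := by ring
            _ ≤ k * ζ.re := mul_le_mul_of_nonneg_left hre hk0.le
        have h7 : |(sq (z + σ)).im| ≤ |ζ.im| + k / r₀ := by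
          have h8 := (Complex.abs_im_le_norm (sq (z + σ) - ζ)).trans (h4.trans h6)
          rw [Complex.sub_im] at h8
          have h9 := abs_sub_abs_le_abs_sub (sq (z + σ)).im ζ.im
          linarith
        have h8 : 2 * Real.pi * |(sq (z + σ)).im| ≤ T + ε := by
          calc 2 * Real.pi * |(sq (z + σ)).im| ≤ 2 * Real.pi * (|ζ.im| + k / r₀) :=
                mul_le_mul_of_nonneg_left h7 (by positivity)
            _ = T + ε := by rw [hT, hε]; ring
        have h9 := star hp hp2 hl hr hP hQ (τ := T + ε) (by linarith) hu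
        have h10 : 2 * Real.pi * |(sq (z + σ)).im| * u ≤ (T + ε) * u :=
          mul_le_mul_of_nonneg_right h8 hu
        linarith
      have hbd := H0.bound h3 hS
      refine hbd.trans ?_
      have him : |(ζ ^ 2 - (σ : ℂ)).im| = 2 * ζ.re * |ζ.im| := by
        have : (ζ ^ 2 - (σ : ℂ)).im = 2 * ζ.re * ζ.im := by
          rw [Complex.sub_im, Complex.ofReal_im, pow_two, Complex.mul_im]
          ring
        rw [this, abs_mul, abs_of_pos (by positivity : 0 < 2 * ζ.re)]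
      rw [him]
      have e1 : Real.pi * (2 * ζ.re * |ζ.im|) = ζ.re * T := by rw [hT]; ring
      rw [e1]
      have hexp : -(ζ.re * T) + Θ ≤ ε₁ + (-((ζ.re - r₀) * T) - B + (T - P) ^ 2 / (2 * Q)) := by
        have e2 : Θ = T * r₀ + ε * r₀ - B + (T - P) ^ 2 / (2 * Q) + ε * (T - P) / Q
            + ε ^ 2 / (2 * Q) := by
          rw [hΘ]; field_simp; ring
        have e3 : ε * r₀ = 2 * Real.pi * k := by rw [hε]; field_simp
        have e4 : ε * (T - P) / Q ≤ 5 / 4 * Real.pi * k / (p - 1) := by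
          have h5 : ε * (T - P) ≤ ε * (P / 2) := mul_le_mul_of_nonneg_left (by linarith) hε0.le
          calc ε * (T - P) / Q ≤ ε * (P / 2) / Q := div_le_div_of_nonneg_right h5 hQ0.le
            _ = 5 / 4 * Real.pi * k / (p - 1) := by
                rw [hε, hPQ]; field_simp
        have e5 : ε ^ 2 / (2 * Q) ≤ Real.pi * k / 16 := by
          rw [div_le_iff₀ (by positivity), hε, div_pow, div_le_iff₀ (by positivity)]
          have h5 : (2 * Real.pi * k) ^ 2 = (Real.pi * k / 16 * 2) * (32 * Real.pi * k) := by ring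
          rw [h5]
          calc (Real.pi * k / 16 * 2) * (32 * Real.pi * k)
              ≤ (Real.pi * k / 16 * 2) * (Q * r₀ ^ 2) :=
                mul_le_mul_of_nonneg_left hQr (by positivity)
            _ = _ := by ring
        have e6 : (ζ.re - r₀) * T = ζ.re * T - T * r₀ := by ring
        rw [e2, hε₁, e6, e3]
        linarith
      clear_value Θ ε T B
      calc 4 ^ k * Real.exp (Real.pi * k) * (Real.exp (-(ζ.re * T)) * (M * I₀ * Real.exp Θ))
          = 4 ^ k * Real.exp (Real.pi * k) * (M * I₀ * Real.exp (-(ζ.re * T) + Θ)) := by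
            rw [Real.exp_add]; ring
        _ ≤ 4 ^ k * Real.exp (Real.pi * k) * (M * (I₀ + 1) *
              Real.exp (ε₁ + (-((ζ.re - r₀) * T) - B + (T - P) ^ 2 / (2 * Q)))) := by
            have h5 := Real.exp_le_exp.2 hexp
            have h6 : M * I₀ ≤ M * (I₀ + 1) := mul_le_mul_of_nonneg_left (by linarith) hM
            gcongr
        _ = _ := by
            rw [Real.exp_add ε₁, hC]; ring
  have hx : 0 < r₀ ^ 2 - σ := by nlinarith
  have h1 := H0.le_Fd hx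
  have e1 : (((r₀ ^ 2 - σ : ℝ)) : ℂ) = (r₀ : ℂ) ^ 2 - σ := by push_cast; ring
  rw [e1] at h1
  have e2 : h ((r₀ : ℂ) ^ 2 - σ) = HF g e r₀ := by
    simp only [hh]
    rw [sub_add_cancel, sq_of_sq hr.le]
  rw [e2, HF_real] at h1
  exact h1.trans hmain

end Pool.Agent.GU
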