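import Pool.Agent.Lib_helper71.GU.FT

/-!
# Uniqueness in the Gaussian class (MP_a65497_an): Phragmen-Lindelof
-/

set_option autoImplicit false

namespace Pool.Agent.GU

open Complex Filter Topology Set Asymptotics Bornology

/-- The hypotheses on `h`: holomorphic in `Re w > -k/2`, with zeros of order `k` at the points
`k m + k/2` and of growth `exp(τ (|w| - Re w))`. -/
structure Hyp (k : ℕ) (h : ℂ → ℂ) (C τ : ℝ) : Prop where
  hk : 0 < k
  hC : 0 ≤ C
  hτ : 0 ≤ τ
  diff : ∀ w : ℂ, -(k / 2 : ℝ) < w.re → DifferentiableAt ℂ h w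
  ord : ∀ m : ℕ, (k : ℕ∞) ≤ analyticOrderAt h (wz k m : ℂ)
  bd : ∀ w : ℂ, 0 ≤ w.re → ‖h w‖ ≤ C * Real.exp (τ * (‖w‖ - w.re))

variable {k : ℕ} {h : ℂ → ℂ} {C τ : ℝ}

theorem Hyp.analyticAt (H : Hyp k h C τ) {w : ℂ} (hw : -(k / 2 : ℝ) < w.re) : AnalyticAt ℂ h w := by
  have ho : IsOpen {w : ℂ | -(k / 2 : ℝ) < w.re} :=
    isOpen_lt continuous_const Complex.continuous_re
  have hd : DifferentiableOn ℂ h {w : ℂ | -(k / 2 : ℝ) < w.re} :=
    fun z hz => (H.diff z hz).differentiableWithinAt
  exact hd.analyticAt (ho.mem_nhds hw)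

theorem wz_pos (hk : 0 < k) (m : ℕ) : (k / 2 : ℝ) ≤ wz k m := by
  rw [wz]
  have : (0 : ℝ) ≤ (k : ℝ) * m := by positivity
  linarith

theorem Hyp.Fdiff (H : Hyp k h C τ) {w : ℂ} (hw : -(k / 2 : ℝ) < w.re) :
    DifferentiableAt ℂ (Fd k h) w := by
  refine Fd_differentiableAt H.hk hw (H.diff w hw) fun m hm => ⟨H.analyticAt hw, ?_⟩
  rw [hm]
  exact H.ord m

/-- the quotient bound where the cosine is at least `1/2` -/
theorem Hyp.quo (H : Hyp k h C τ) {z : ℂ} (hz : 0 ≤ z.re)
    (hc : 1 / 2 ≤ ‖Complex.cos (Real.pi * z / k)‖) :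
    ‖Fd k h z‖ ≤ 2 ^ k * C * Real.exp (τ * ‖z‖) := by
  have hne : Complex.cos (Real.pi * z / k) ≠ 0 := by
    intro h0
    rw [h0, norm_zero] at hc
    norm_num at hc
  rw [Fd_of_ne hne, norm_div, norm_pow]
  have h1 : (1 / 2 : ℝ) ^ k ≤ ‖Complex.cos (Real.pi * z / k)‖ ^ k :=
    pow_le_pow_left₀ (by norm_num) hc k
  have h2 : (0 : ℝ) < (1 / 2 : ℝ) ^ k := by positivity
  rw [div_le_iff₀ (h2.trans_le h1)]
  have h3 : ‖h z‖ ≤ C * Real.exp (τ * ‖z‖) := by
    refine (H.bd z hz).trans ?_
    apply mul_le_mul_of_nonneg_left _ H.hC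
    apply Real.exp_le_exp.2
    apply mul_le_mul_of_nonneg_left _ H.hτ
    linarith
  have h4 : (2 : ℝ) ^ k * (1 / 2 : ℝ) ^ k = 1 := by
    rw [← mul_pow]
    norm_num
  have h5 : 0 ≤ C * Real.exp (τ * ‖z‖) := mul_nonneg H.hC (Real.exp_nonneg _)
  calc ‖h z‖ ≤ C * Real.exp (τ * ‖z‖) := h3
    _ = (2 ^ k * (1 / 2 : ℝ) ^ k) * (C * Real.exp (τ * ‖z‖)) := by rw [h4, one_mul]
    _ = 2 ^ k * C * Real.exp (τ * ‖z‖) * (1 / 2 : ℝ) ^ k := by ring
    _ ≤ 2 ^ k * C * Real.exp (τ * ‖z‖) * ‖Complex.cos (Real.pi * z / k)‖ ^ k := by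
        apply mul_le_mul_of_nonneg_left h1
        have : (0 : ℝ) ≤ 2 ^ k := by positivity
        exact mul_nonneg (mul_nonneg this H.hC) (Real.exp_nonneg _)

/-- growth in the half-plane -/
theorem Hyp.growth (H : Hyp k h C τ) {w : ℂ} (hw : 0 ≤ w.re) :
    ‖Fd k h w‖ ≤ 2 ^ k * C * Real.exp (τ * (‖w‖ + k)) := by
  have hk0 : (0 : ℝ) < k := by exact_mod_cast H.hk
  have hC2 : (0 : ℝ) ≤ 2 ^ k * C := mul_nonneg (by positivity) H.hC
  obtain ⟨m, hm⟩ := near_zero H.hk hw
  rcases le_or_gt (k / 4 : ℝ) ‖w - wz k m‖ with hfar | hnear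
  · have h1 := cos_lower H.hk m hm
    have h2 : 1 / 2 ≤ 2 / (k : ℝ) * ‖w - wz k m‖ := by
      calc (1 / 2 : ℝ) = 2 / k * (k / 4) := by field_simp; norm_num
        _ ≤ _ := mul_le_mul_of_nonneg_left hfar (by positivity)
    refine (H.quo hw (h2.trans h1)).trans ?_
    apply mul_le_mul_of_nonneg_left _ hC2
    apply Real.exp_le_exp.2
    apply mul_le_mul_of_nonneg_left _ H.hτ
    linarith
  · set U := Metric.ball (wz k m : ℂ) (k / 4 : ℝ) with hU
    have hwU : w ∈ closure U := by
      apply subset_closure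
      rw [hU, Metric.mem_ball, dist_eq_norm]
      exact hnear
    have hclos : closure U ⊆ {z : ℂ | -(k / 2 : ℝ) < z.re} := by
      intro z hz
      have h1 : z ∈ Metric.closedBall (wz k m : ℂ) (k / 4 : ℝ) :=
        Metric.closure_ball_subset_closedBall hz
      rw [Metric.mem_closedBall, dist_eq_norm] at h1
      have h2 := (abs_le.1 ((Complex.abs_re_le_norm (z - wz k m)).trans h1)).1
      rw [Complex.sub_re, Complex.ofReal_re] at h2
      have h3 := wz_pos H.hk m
      show -(k / 2 : ℝ) < z.re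
      linarith
    have hd : DiffContOnCl ℂ (Fd k h) U := by
      apply DifferentiableOn.diffContOnCl
      intro z hz
      exact (H.Fdiff (hclos hz)).differentiableWithinAt
    refine Complex.norm_le_of_forall_mem_frontier_norm_le Metric.isBounded_ball hd ?_ hwU
    intro z hz
    rw [frontier_ball _ (by positivity : (k / 4 : ℝ) ≠ 0), Metric.mem_sphere,
      dist_eq_norm] at hz
    have h2 := (Complex.abs_re_le_norm (z - wz k m))
    rw [hz, Complex.sub_re, Complex.ofReal_re] at h2
    have h2' := abs_le.1 h2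
    have h3 := wz_pos H.hk m
    have hzre : 0 ≤ z.re := by linarith
    have h4 := cos_lower H.hk m (w := z) (h2.trans (by linarith))
    rw [hz] at h4
    have h5 : (2 / (k : ℝ)) * (k / 4) = 1 / 2 := by field_simp; norm_num
    rw [h5] at h4
    refine (H.quo hzre h4).trans ?_
    apply mul_le_mul_of_nonneg_left _ hC2
    apply Real.exp_le_exp.2
    apply mul_le_mul_of_nonneg_left _ H.hτ
    have h6 : ‖z‖ ≤ ‖z - wz k m‖ + ‖w - wz k m‖ + ‖w‖ := by
      have : z = (z - wz k m) - (w - wz k m) + w := by ring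
      calc ‖z‖ = ‖(z - wz k m) - (w - wz k m) + w‖ := by rw [← this]
        _ ≤ ‖(z - wz k m) - (w - wz k m)‖ + ‖w‖ := norm_add_le _ _
        _ ≤ _ := by
          have := norm_sub_le (z - wz k m) (w - wz k m)
          linarith
    rw [hz] at h6
    linarith

/-- decay away from the real axis -/
theorem Hyp.away (H : Hyp k h C τ) {w : ℂ} (hw : 0 ≤ w.re) (him : (k : ℝ) ≤ |w.im|) :
    ‖Fd k h w‖ ≤ 4 ^ k * C * Real.exp (τ * (‖w‖ - w.re) - Real.pi * |w.im|) := by
  have h1 := cos_ge_exp H.hk him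
  have h2 : 0 < Real.exp (Real.pi * |w.im|) / 4 ^ k := by positivity
  have h3 : 0 < ‖Complex.cos (Real.pi * w / k)‖ ^ k := h2.trans_le h1
  have hne : Complex.cos (Real.pi * w / k) ≠ 0 := by
    intro h0
    rw [h0, norm_zero, zero_pow H.hk.ne'] at h3
    exact lt_irrefl _ h3
  rw [Fd_of_ne hne, norm_div, norm_pow, div_le_iff₀ h3]
  refine (H.bd w hw).trans ?_
  have h4 : 0 ≤ 4 ^ k * C * Real.exp (τ * (‖w‖ - w.re) - Real.pi * |w.im|) :=
    mul_nonneg (mul_nonneg (by positivity) H.hC) (Real.exp_nonneg _)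
  refine le_trans (le_of_eq ?_) (mul_le_mul_of_nonneg_left h1 h4)
  rw [Real.exp_sub]
  field_simp

/-- the bound on the rays `Im w = ± t Re w` -/
theorem Hyp.ray (H : Hyp k h C τ) {t : ℝ} (ht : 0 < t) : ∃ C₁ : ℝ, ∀ w : ℂ, 0 ≤ w.re →
    |w.im| = t * w.re → ‖Fd k h w‖ ≤
      C₁ * Real.exp (-((Real.pi * t - τ * (Real.sqrt (1 + t ^ 2) - 1)) * w.re)) := by
  have hk0 : (0 : ℝ) < k := by exact_mod_cast H.hk
  set ρ := Real.sqrt (1 + t ^ 2) with hρ
  set N := Real.pi * t - τ * (ρ - 1) with hN
  have hρ0 : 0 ≤ ρ := Real.sqrt_nonneg _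
  refine ⟨4 ^ k * C * Real.exp (τ * (k / t * ρ + k) + |N| * (k / t)), fun w hw him => ?_⟩
  have hnorm : ‖w‖ = w.re * ρ := by
    have h1 : ‖w‖ ^ 2 = (w.re * ρ) ^ 2 := by
      rw [← Complex.normSq_eq_norm_sq, Complex.normSq_apply, mul_pow, hρ,
        Real.sq_sqrt (by positivity)]
      have h2 : w.im * w.im = |w.im| ^ 2 := by rw [sq_abs]; ring
      rw [h2, him]
      ring
    exact (sq_eq_sq₀ (norm_nonneg _) (mul_nonneg hw hρ0)).1 h1
  have hC4 : (0 : ℝ) ≤ 4 ^ k * C := mul_nonneg (by positivity) H.hC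
  rcases le_or_gt (k : ℝ) |w.im| with h1 | h1
  · refine (H.away hw h1).trans ?_
    rw [mul_assoc (4 ^ k * C), ← Real.exp_add]
    apply mul_le_mul_of_nonneg_left _ hC4
    apply Real.exp_le_exp.2
    rw [him, hnorm]
    have h2 : 0 ≤ τ * (k / t * ρ + k) + |N| * (k / t) := by
      have := H.hτ
      positivity
    have h3 : τ * (w.re * ρ - w.re) - Real.pi * (t * w.re) = -(N * w.re) := by
      rw [hN]
      ring
    rw [h3]
    linarith
  · have hx : w.re ≤ k / t := by
      rw [le_div_iff₀ ht]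
      rw [him] at h1
      linarith
    refine (H.growth hw).trans ?_
    rw [mul_assoc (4 ^ k * C), ← Real.exp_add]
    have h24 : (2 : ℝ) ^ k * C ≤ 4 ^ k * C :=
      mul_le_mul_of_nonneg_right (pow_le_pow_left₀ (by norm_num) (by norm_num) k) H.hC
    refine mul_le_mul h24 ?_ (Real.exp_nonneg _) hC4
    apply Real.exp_le_exp.2
    rw [hnorm]
    have h2 : τ * (w.re * ρ + k) ≤ τ * (k / t * ρ + k) := by
      apply mul_le_mul_of_nonneg_left _ H.hτ
      have := mul_le_mul_of_nonneg_right hx hρ0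
      linarith
    have h3 : N * w.re ≤ |N| * (k / t) := by
      calc N * w.re ≤ |N| * w.re := mul_le_mul_of_nonneg_right (le_abs_self N) hw
        _ ≤ |N| * (k / t) := mul_le_mul_of_nonneg_left hx (abs_nonneg N)
    linarith

/-- **the bound on the positive real axis** -/
theorem Hyp.real_F (H : Hyp k h C τ) {t : ℝ} (ht : 0 < t) : ∃ C₁ : ℝ, ∀ x : ℝ, 0 < x →
    ‖Fd k h x‖ ≤ C₁ * Real.exp (-((Real.pi * t - τ * (Real.sqrt (1 + t ^ 2) - 1)) * x)) := by
  obtain ⟨C₁, hC₁⟩ := H.ray ht
  set N := Real.pi * t - τ * (Real.sqrt (1 + t ^ 2) - 1) with hN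
  refine ⟨C₁, fun x hx => ?_⟩
  set θ := Real.arctan t with hθ
  have hθ0 : 0 < θ := Real.arctan_pos.2 ht
  have hθ1 : θ < Real.pi / 2 := Real.arctan_lt_pi_div_two t
  have hcosθ : 0 < Real.cos θ := Real.cos_arctan_pos t
  have hsinθ : Real.sin θ = t * Real.cos θ := by
    rw [hθ, Real.sin_arctan, Real.cos_arctan]
    ring
  set f : ℂ → ℂ := fun z => Fd k h (Complex.exp z) * Complex.exp (N * Complex.exp z) with hf
  have hre : ∀ z : ℂ, (Complex.exp z).re = Real.exp z.re * Real.cos z.im := Complex.exp_re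
  have him : ∀ z : ℂ, (Complex.exp z).im = Real.exp z.re * Real.sin z.im := Complex.exp_im
  have hrepos : ∀ z : ℂ, -θ ≤ z.im → z.im ≤ θ → 0 < (Complex.exp z).re := by
    intro z h1 h2
    rw [hre]
    apply mul_pos (Real.exp_pos _)
    apply Real.cos_pos_of_mem_Ioo
    constructor <;> linarith
  have hk0 : (0 : ℝ) < k := by exact_mod_cast H.hk
  have hfd : ∀ z : ℂ, -θ ≤ z.im → z.im ≤ θ → DifferentiableAt ℂ f z := by
    intro z h1 h2
    have h3 := hrepos z h1 h2
    have h4 : DifferentiableAt ℂ (Fd k h) (Complex.exp z) := H.Fdiff (by linarith)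
    have h5 : DifferentiableAt ℂ (fun z => Fd k h (Complex.exp z)) z :=
      h4.comp z Complex.differentiable_exp.differentiableAt
    have h6 : DifferentiableAt ℂ (fun z : ℂ => Complex.exp (N * Complex.exp z)) z := by fun_prop
    exact h5.mul h6
  have hnexp : ∀ z : ℂ, ‖Complex.exp (N * Complex.exp z)‖ = Real.exp (N * (Complex.exp z).re) := by
    intro z
    rw [Complex.norm_exp, Complex.re_ofReal_mul]
  have hbdry : ∀ z : ℂ, |z.im| = θ → ‖f z‖ ≤ C₁ := by
    intro z hz
    have hz' := abs_le.1 hz.le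
    have h1 := hrepos z hz'.1 hz'.2
    have h2 : |(Complex.exp z).im| = t * (Complex.exp z).re := by
      rw [hre, him, abs_mul, abs_of_pos (Real.exp_pos _)]
      have h3 : |Real.sin z.im| = Real.sin θ := by
        rcases abs_choice z.im with h | h
        · rw [h] at hz
          rw [hz, abs_of_pos]
          rw [hsinθ]
          positivity
        · have : z.im = -θ := by linarith
          rw [this, Real.sin_neg, abs_neg, abs_of_pos]
          rw [hsinθ]
          positivity
      have h4 : Real.cos z.im = Real.cos θ := by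
        rw [← Real.cos_abs, hz]
      rw [h3, h4, hsinθ]
      ring
    have h5 := hC₁ (Complex.exp z) h1.le h2
    rw [hf]
    simp only
    rw [norm_mul, hnexp]
    calc ‖Fd k h (Complex.exp z)‖ * Real.exp (N * (Complex.exp z).re)
        ≤ C₁ * Real.exp (-(N * (Complex.exp z).re)) * Real.exp (N * (Complex.exp z).re) :=
          mul_le_mul_of_nonneg_right h5 (Real.exp_nonneg _)
      _ = C₁ := by
          rw [mul_assoc, ← Real.exp_add, neg_add_cancel, Real.exp_zero, mul_one]
  have hmain : ‖f (Real.log x : ℂ)‖ ≤ C₁ := by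
    refine PhragmenLindelof.horizontal_strip (a := -θ) (b := θ) ?_ ?_ ?_ ?_ ?_ ?_
    · apply DifferentiableOn.diffContOnCl
      intro z hz
      have hz1 : z ∈ Complex.im ⁻¹' Set.Icc (-θ) θ := by
        have hcl : IsClosed (Complex.im ⁻¹' Set.Icc (-θ) θ) := isClosed_Icc.preimage Complex.continuous_im
        exact hcl.closure_subset_iff.2 (Set.preimage_mono Set.Ioo_subset_Icc_self) hz
      exact (hfd z hz1.1 hz1.2).differentiableWithinAt
    · refine ⟨1, ?_, τ + |N|, ?_⟩
      · rw [lt_div_iff₀ (by linarith)]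
        linarith
      · refine IsBigO.of_bound (2 ^ k * C * Real.exp (τ * k)) ?_
        rw [eventually_inf_principal]
        refine Eventually.of_forall fun z hz => ?_
        have hz1 : -θ ≤ z.im := hz.1.le
        have hz2 : z.im ≤ θ := hz.2.le
        have h1 := hrepos z hz1 hz2
        have h2 := H.growth h1.le
        have hn : ‖Complex.exp z‖ = Real.exp z.re := Complex.norm_exp z
        rw [hf]
        simp only
        rw [norm_mul, hnexp, Real.norm_of_nonneg (Real.exp_nonneg _)]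
        have hC2 : (0 : ℝ) ≤ 2 ^ k * C := mul_nonneg (by positivity) H.hC
        have h3 : N * (Complex.exp z).re ≤ |N| * Real.exp z.re := by
          have h4 : (Complex.exp z).re ≤ Real.exp z.re := by
            rw [← hn]
            exact Complex.re_le_norm _
          calc N * (Complex.exp z).re ≤ |N| * (Complex.exp z).re :=
                mul_le_mul_of_nonneg_right (le_abs_self N) h1.le
            _ ≤ _ := mul_le_mul_of_nonneg_left h4 (abs_nonneg N)
        have h5 : Real.exp z.re ≤ Real.exp (1 * |z.re|) := by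
          apply Real.exp_le_exp.2
          rw [one_mul]
          exact le_abs_self _
        calc ‖Fd k h (Complex.exp z)‖ * Real.exp (N * (Complex.exp z).re)
            ≤ (2 ^ k * C * Real.exp (τ * (‖Complex.exp z‖ + k))) * Real.exp (|N| * Real.exp z.re) :=
              mul_le_mul h2 (Real.exp_le_exp.2 h3) (Real.exp_nonneg _)
                (mul_nonneg hC2 (Real.exp_nonneg _))
          _ = 2 ^ k * C * Real.exp (τ * k) * Real.exp ((τ + |N|) * Real.exp z.re) := by
              rw [hn, mul_assoc (2 ^ k * C), mul_assoc (2 ^ k * C), ← Real.exp_add, ← Real.exp_add]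
              congr 2
              ring
          _ ≤ _ := by
              apply mul_le_mul_of_nonneg_left _ (mul_nonneg hC2 (Real.exp_nonneg _))
              apply Real.exp_le_exp.2
              apply mul_le_mul_of_nonneg_left h5
              have := H.hτ
              positivity
    · intro z hz
      exact hbdry z (by rw [hz, abs_neg, abs_of_pos hθ0])
    · intro z hz
      exact hbdry z (by rw [hz, abs_of_pos hθ0])
    · rw [Complex.ofReal_im]
      linarith
    · rw [Complex.ofReal_im]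
      linarith
  rw [hf] at hmain
  simp only at hmain
  rw [norm_mul, hnexp] at hmain
  have hlog : Complex.exp (Real.log x : ℂ) = x := by
    rw [← Complex.ofReal_exp, Real.exp_log hx]
  rw [hlog, Complex.ofReal_re] at hmain
  rw [Real.exp_neg, ← div_eq_mul_inv, le_div_iff₀ (Real.exp_pos _)]
  exact hmain

theorem Hyp.h_le_F (H : Hyp k h C τ) {x : ℝ} (hx : 0 < x) : ‖h x‖ ≤ ‖Fd k h x‖ := by
  have hk0 : (0 : ℝ) < k := by exact_mod_cast H.hk
  by_cases hc : Complex.cos (Real.pi * (x : ℂ) / k) = 0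
  · obtain ⟨m, hm⟩ := zero_of_cos H.hk (w := x) (by rw [Complex.ofReal_re]; linarith) hc
    have h1 : h (x : ℂ) = 0 := by
      rw [hm]
      by_contra hne
      have han : AnalyticAt ℂ h (wz k m : ℂ) := by
        apply H.analyticAt
        rw [Complex.ofReal_re]
        linarith [wz_pos H.hk m]
      have h2 := han.analyticOrderAt_eq_zero.2 hne
      have h3 := H.ord m
      rw [h2] at h3
      have h4 : (k : ℕ∞) = 0 := le_antisymm h3 bot_le
      have h5 : k = 0 := by exact_mod_cast h4
      exact H.hk.ne' h5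
    rw [h1, norm_zero]
    exact norm_nonneg _
  · rw [Fd_of_ne hc, norm_div, norm_pow]
    have h1 : ‖Complex.cos (Real.pi * (x : ℂ) / k)‖ ≤ 1 := by
      have e1 : (Real.pi * (x : ℂ) / k : ℂ) = ((Real.pi * x / k : ℝ) : ℂ) := by push_cast; ring
      rw [e1, ← Complex.ofReal_cos, Complex.norm_real]
      exact Real.abs_cos_le_one _
    have h2 : 0 < ‖Complex.cos (Real.pi * (x : ℂ) / k)‖ := norm_pos_iff.2 hc
    rw [le_div_iff₀ (pow_pos h2 k)]
    exact mul_le_of_le_one_right (norm_nonneg _) (pow_le_one₀ h2.le h1)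

/-- **decay of `h` on the positive real axis** -/
theorem Hyp.real_h (H : Hyp k h C τ) {t : ℝ} (ht : 0 < t) : ∃ C₁ : ℝ, ∀ x : ℝ, 0 < x →
    ‖h x‖ ≤ C₁ * Real.exp (-((Real.pi * t - τ * (Real.sqrt (1 + t ^ 2) - 1)) * x)) := by
  obtain ⟨C₁, hC₁⟩ := H.real_F ht
  exact ⟨C₁, fun x hx => (H.h_le_F hx).trans (hC₁ x hx)⟩

/-- **vanishing for `τ < π`** -/
theorem Hyp.zero (H : Hyp k h C τ) (hτ : τ < Real.pi) {x : ℝ} (hx : 0 < x) : h x = 0 := by
  have hk0 : (0 : ℝ) < k := by exact_mod_cast H.hk
  have hEq := PhragmenLindelof.eq_zero_on_right_half_plane_of_superexponential_decay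
    (f := Fd k h) (by
      apply DifferentiableOn.diffContOnCl
      intro z hz
      have hz1 : 0 ≤ z.re := by
        have hcl : IsClosed {z : ℂ | 0 ≤ z.re} := isClosed_le continuous_const Complex.continuous_re
        exact hcl.closure_subset_iff.2 (fun z (hz : 0 < z.re) => hz.le) hz
      exact (H.Fdiff (by linarith)).differentiableWithinAt)
    ⟨1, by norm_num, τ, by
      refine IsBigO.of_bound (2 ^ k * C * Real.exp (τ * k)) ?_
      rw [eventually_inf_principal]
      refine Eventually.of_forall fun z hz => ?_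
      have hz' : 0 < z.re := hz
      refine (H.growth hz'.le).trans (le_of_eq ?_)
      rw [Real.norm_of_nonneg (Real.exp_nonneg _), Real.rpow_one, mul_assoc (2 ^ k * C),
        ← Real.exp_add]
      congr 2
      ring⟩
    (by
      intro n
      have hpos : 0 < Real.pi - τ := by linarith
      obtain ⟨C₁, hC₁⟩ := H.real_F (t := (n + 1) / (Real.pi - τ)) (by positivity)
      set t : ℝ := (n + 1) / (Real.pi - τ) with ht
      have ht0 : 0 < t := by positivity
      have hN : (n : ℝ) + 1 ≤ Real.pi * t - τ * (Real.sqrt (1 + t ^ 2) - 1) := by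
        have h1 : Real.sqrt (1 + t ^ 2) ≤ 1 + t := by
          rw [Real.sqrt_le_left (by linarith)]
          nlinarith
        have h2 : τ * (Real.sqrt (1 + t ^ 2) - 1) ≤ τ * t :=
          mul_le_mul_of_nonneg_left (by linarith) H.hτ
        have h3 : (Real.pi - τ) * t = n + 1 := by
          rw [ht]
          field_simp
        linarith
      have hC₁0 : 0 ≤ C₁ := by
        have h1 := hC₁ 1 one_pos
        have h2 : 0 ≤ C₁ * Real.exp (-((Real.pi * t - τ * (Real.sqrt (1 + t ^ 2) - 1)) * 1)) :=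
          (norm_nonneg _).trans h1
        exact nonneg_of_mul_nonneg_left h2 (Real.exp_pos _)
      have hlim : Tendsto (fun x : ℝ => C₁ * Real.exp (-x)) atTop (𝓝 0) := by
        have := (Real.tendsto_exp_neg_atTop_nhds_zero).const_mul C₁
        rwa [mul_zero] at this
      refine squeeze_zero' ?_ ?_ hlim
      · exact Eventually.of_forall fun x => by positivity
      · filter_upwards [eventually_gt_atTop 0] with x hx0
        calc Real.exp x ^ n * ‖Fd k h x‖
            ≤ Real.exp x ^ n * (C₁ * Real.exp (-(((n : ℝ) + 1) * x))) := by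
              apply mul_le_mul_of_nonneg_left _ (by positivity)
              refine (hC₁ x hx0).trans ?_
              apply mul_le_mul_of_nonneg_left _ hC₁0
              apply Real.exp_le_exp.2
              have := mul_le_mul_of_nonneg_right hN hx0.le
              linarith
          _ = C₁ * Real.exp (-x) := by
              rw [← Real.exp_nat_mul, mul_left_comm, ← Real.exp_add]
              congr 2
              ring)
    ⟨4 ^ k * C * Real.exp (τ * (k + k)), fun y => by
      have hre : ((y : ℂ) * I).re = 0 := by simp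
      have him : ((y : ℂ) * I).im = y := by simp
      have hn : ‖(y : ℂ) * I‖ = |y| := by simp
      have hC4 : (0 : ℝ) ≤ 4 ^ k * C := mul_nonneg (by positivity) H.hC
      rcases le_or_gt (k : ℝ) |y| with h1 | h1
      · refine (H.away (w := (y : ℂ) * I) (by rw [hre]) (by rw [him]; exact h1)).trans ?_
        rw [hre, him, hn]
        apply mul_le_mul_of_nonneg_left _ hC4
        apply Real.exp_le_exp.2
        have h2 : 0 ≤ τ * (k + k : ℝ) := mul_nonneg H.hτ (by positivity)
        have h3 : τ * |y| ≤ Real.pi * |y| := mul_le_mul_of_nonneg_right hτ.le (abs_nonneg y)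
        linarith
      · refine (H.growth (w := (y : ℂ) * I) (by rw [hre])).trans ?_
        rw [hn]
        have h24 : (2 : ℝ) ^ k * C ≤ 4 ^ k * C :=
          mul_le_mul_of_nonneg_right (pow_le_pow_left₀ (by norm_num) (by norm_num) k) H.hC
        refine mul_le_mul h24 ?_ (Real.exp_nonneg _) hC4
        apply Real.exp_le_exp.2
        exact mul_le_mul_of_nonneg_left (by linarith) H.hτ⟩
  have h1 : Fd k h x = 0 := hEq (show (0 : ℝ) ≤ (x : ℂ).re by rw [Complex.ofReal_re]; exact hx.le)
  have h2 := H.h_le_F hx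
  rw [h1, norm_zero] at h2
  exact norm_le_zero_iff.1 h2

end Pool.Agent.GU
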