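import Pool.Agent.Lib_helper71.GU.HF

/-!
# MP_a65497_an: the quotient, local bounds, the entire extension for rapidly decreasing functions
-/

set_option autoImplicit false

namespace Pool.Agent.GU

open MeasureTheory Complex Filter Topology
open scoped FourierTransform

/-- holomorphic in `Re w > -k/2`, zeros of order `k` at the points `k m + k/2` -/
structure Hyp0 (k : ℕ) (h : ℂ → ℂ) : Prop where
  hk : 0 < k
  diff : ∀ w : ℂ, -(k / 2 : ℝ) < w.re → DifferentiableAt ℂ h w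
  ord : ∀ m : ℕ, (k : ℕ∞) ≤ analyticOrderAt h (wz k m : ℂ)

variable {k : ℕ} {h : ℂ → ℂ}

theorem Hyp0.analyticAt (H : Hyp0 k h) {w : ℂ} (hw : -(k / 2 : ℝ) < w.re) :
    AnalyticAt ℂ h w := by
  have ho : IsOpen {w : ℂ | -(k / 2 : ℝ) < w.re} :=
    isOpen_lt continuous_const Complex.continuous_re
  have hd : DifferentiableOn ℂ h {w : ℂ | -(k / 2 : ℝ) < w.re} :=
    fun z hz => (H.diff z hz).differentiableWithinAt
  exact hd.analyticAt (ho.mem_nhds hw)

theorem Hyp0.Fdiff (H : Hyp0 k h) {w : ℂ} (hw : -(k / 2 : ℝ) < w.re) :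
    DifferentiableAt ℂ (Fd k h) w := by
  refine Fd_differentiableAt H.hk hw (H.diff w hw) fun m hm => ⟨H.analyticAt hw, ?_⟩
  rw [hm]
  exact H.ord m

/-- the quotient where the cosine is at least `1/2` -/
theorem quo1 {z : ℂ} {S : ℝ} (hS : ‖h z‖ ≤ S)
    (hc : 1 / 2 ≤ ‖Complex.cos (Real.pi * z / k)‖) : ‖Fd k h z‖ ≤ 2 ^ k * S := by
  have hne : Complex.cos (Real.pi * z / k) ≠ 0 := by
    intro h0
    rw [h0, norm_zero] at hc
    norm_num at hc
  rw [Fd_of_ne hne, norm_div, norm_pow]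
  have h1 : (1 / 2 : ℝ) ^ k ≤ ‖Complex.cos (Real.pi * z / k)‖ ^ k :=
    pow_le_pow_left₀ (by norm_num) hc k
  have h2 : (0 : ℝ) < (1 / 2 : ℝ) ^ k := by positivity
  rw [div_le_iff₀ (h2.trans_le h1)]
  refine hS.trans ?_
  have hS0 : 0 ≤ S := (norm_nonneg _).trans hS
  calc S = 2 ^ k * S * (1 / 2) ^ k := by
        rw [mul_right_comm, ← mul_pow]; norm_num
    _ ≤ _ := mul_le_mul_of_nonneg_left h1 (mul_nonneg (by positivity) hS0)

theorem Hyp0.bound1 (H : Hyp0 k h) {w : ℂ} (hw : 0 ≤ w.re) {S : ℝ}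
    (hS : ∀ z : ℂ, ‖z - w‖ ≤ k / 2 → ‖h z‖ ≤ S) : ‖Fd k h w‖ ≤ 2 ^ k * S := by
  have hk0 : (0 : ℝ) < k := by exact_mod_cast H.hk
  obtain ⟨m, hm⟩ := near_zero H.hk hw
  rcases le_or_gt (k / 4 : ℝ) ‖w - wz k m‖ with hfar | hnear
  · have h1 := cos_lower H.hk m hm
    have h2 : 1 / 2 ≤ 2 / (k : ℝ) * ‖w - wz k m‖ := by
      calc (1 / 2 : ℝ) = 2 / k * (k / 4) := by field_simp; norm_num
        _ ≤ _ := mul_le_mul_of_nonneg_left hfar (by positivity)
    exact quo1 (hS w (by rw [sub_self, norm_zero]; positivity)) (h2.trans h1)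
  · set U := Metric.ball (wz k m : ℂ) (k / 4 : ℝ) with hU
    have hwU : w ∈ closure U := by
      apply subset_closure
      rw [hU, Metric.mem_ball, dist_eq_norm]
      exact hnear
    have hclos : closure U ⊆ {z : ℂ | -(k / 2 : ℝ) < z.re} := by
      intro z hz
      have h1 : z ∈ Metric.closedBall (wz k m : ℂ) (k / 4 : ℝ) :=
        Metric.closure_ball_subset_closedBall hz
      rw [Metric.mem_closedBall, dist_eq_norm] at h1
      have h2 := (abs_le.1 ((Complex.abs_re_le_norm (z - wz k m)).trans h1)).1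
      rw [Complex.sub_re, Complex.ofReal_re] at h2
      have h3 : (k / 2 : ℝ) ≤ wz k m := by
        rw [wz]
        have : (0 : ℝ) ≤ (k : ℝ) * m := by positivity
        linarith
      show -(k / 2 : ℝ) < z.re
      linarith
    have hd : DiffContOnCl ℂ (Fd k h) U := by
      apply DifferentiableOn.diffContOnCl
      intro z hz
      exact (H.Fdiff (hclos hz)).differentiableWithinAt
    refine Complex.norm_le_of_forall_mem_frontier_norm_le Metric.isBounded_ball hd ?_ hwU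
    intro z hz
    rw [frontier_ball _ (by positivity : (k / 4 : ℝ) ≠ 0), Metric.mem_sphere,
      dist_eq_norm] at hz
    have h2 := (Complex.abs_re_le_norm (z - wz k m))
    rw [hz, Complex.sub_re, Complex.ofReal_re] at h2
    have h4 := cos_lower H.hk m (w := z) (h2.trans (by linarith))
    rw [hz] at h4
    have h5 : (2 / (k : ℝ)) * (k / 4) = 1 / 2 := by field_simp; norm_num
    rw [h5] at h4
    refine quo1 (hS z ?_) h4
    calc ‖z - w‖ = ‖(z - wz k m) - (w - wz k m)‖ := by congr 1; ring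
      _ ≤ ‖z - wz k m‖ + ‖w - wz k m‖ := norm_sub_le _ _
      _ ≤ k / 2 := by rw [hz]; linarith

/-- the local bound of the quotient -/
theorem Hyp0.bound (H : Hyp0 k h) {w : ℂ} (hw : 0 ≤ w.re) {S : ℝ}
    (hS : ∀ z : ℂ, ‖z - w‖ ≤ k / 2 → ‖h z‖ ≤ S) :
    ‖Fd k h w‖ ≤ 4 ^ k * Real.exp (Real.pi * k) * (Real.exp (-(Real.pi * |w.im|)) * S) := by
  have hk0 : (0 : ℝ) < k := by exact_mod_cast H.hk
  have hπ := Real.pi_pos
  have hS0 : 0 ≤ S := (norm_nonneg _).trans (hS w (by rw [sub_self, norm_zero]; positivity))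
  rcases le_or_gt (k : ℝ) |w.im| with him | him
  · have h1 := cos_ge_exp H.hk him
    have h2 : 0 < Real.exp (Real.pi * |w.im|) / 4 ^ k := by positivity
    have h3 : 0 < ‖Complex.cos (Real.pi * w / k)‖ ^ k := h2.trans_le h1
    have hne : Complex.cos (Real.pi * w / k) ≠ 0 := by
      intro h0
      rw [h0, norm_zero, zero_pow H.hk.ne'] at h3
      exact lt_irrefl _ h3
    rw [Fd_of_ne hne, norm_div, norm_pow, div_le_iff₀ h3]
    refine (hS w (by rw [sub_self, norm_zero]; positivity)).trans ?_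
    have h5 : 1 ≤ Real.exp (Real.pi * k) := Real.one_le_exp (by positivity)
    have h6 : 0 ≤ 4 ^ k * Real.exp (Real.pi * k) * (Real.exp (-(Real.pi * |w.im|)) * S) := by
      positivity
    refine le_trans ?_ (mul_le_mul_of_nonneg_left h1 h6)
    have h7 : 4 ^ k * Real.exp (Real.pi * k) * (Real.exp (-(Real.pi * |w.im|)) * S)
        * (Real.exp (Real.pi * |w.im|) / 4 ^ k)
        = Real.exp (Real.pi * k) * S * (Real.exp (-(Real.pi * |w.im|))
          * Real.exp (Real.pi * |w.im|)) := by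
      field_simp
    rw [h7, ← Real.exp_add, neg_add_cancel, Real.exp_zero, mul_one]
    exact le_mul_of_one_le_left hS0 h5
  · refine (H.bound1 hw hS).trans ?_
    have h1 : 1 ≤ Real.exp (Real.pi * k) * Real.exp (-(Real.pi * |w.im|)) := by
      rw [← Real.exp_add]
      apply Real.one_le_exp
      nlinarith
    have h2 : (2 : ℝ) ^ k ≤ 4 ^ k := pow_le_pow_left₀ (by norm_num) (by norm_num) k
    calc 2 ^ k * S ≤ 4 ^ k * S := mul_le_mul_of_nonneg_right h2 hS0
      _ ≤ 4 ^ k * S * (Real.exp (Real.pi * k) * Real.exp (-(Real.pi * |w.im|))) :=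
          le_mul_of_one_le_right (by positivity) h1
      _ = _ := by ring

theorem Hyp0.le_Fd (H : Hyp0 k h) {x : ℝ} (hx : 0 < x) : ‖h x‖ ≤ ‖Fd k h x‖ := by
  have hk0 : (0 : ℝ) < k := by exact_mod_cast H.hk
  by_cases hc : Complex.cos (Real.pi * (x : ℂ) / k) = 0
  · obtain ⟨m, hm⟩ := zero_of_cos H.hk (w := x) (by rw [Complex.ofReal_re]; linarith) hc
    have h1 : h (x : ℂ) = 0 := by
      rw [hm]
      by_contra hne
      have han : AnalyticAt ℂ h (wz k m : ℂ) := by
        apply H.analyticAt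
        rw [Complex.ofReal_re, wz]
        have : (0 : ℝ) ≤ (k : ℝ) * m := by positivity
        linarith
      have h2 := han.analyticOrderAt_eq_zero.2 hne
      have h3 := H.ord m
      rw [h2] at h3
      have h4 : (k : ℕ∞) = 0 := le_antisymm h3 bot_le
      have h5 : k = 0 := by exact_mod_cast h4
      exact H.hk.ne' h5
    rw [h1, norm_zero]
    exact norm_nonneg _
  · rw [Fd_of_ne hc, norm_div, norm_pow]
    have h1 : ‖Complex.cos (Real.pi * (x : ℂ) / k)‖ ≤ 1 := by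
      have e1 : (Real.pi * (x : ℂ) / k : ℂ) = ((Real.pi * x / k : ℝ) : ℂ) := by push_cast; ring
      rw [e1, ← Complex.ofReal_cos, Complex.norm_real]
      exact Real.abs_cos_le_one _
    have h2 : 0 < ‖Complex.cos (Real.pi * (x : ℂ) / k)‖ := norm_pos_iff.2 hc
    rw [le_div_iff₀ (pow_pos h2 k)]
    exact mul_le_of_le_one_right (norm_nonneg _) (pow_le_one₀ h2.le h1)

/-! ### Rapidly decreasing functions -/

variable {V : Type*} [NormedAddCommGroup V] [InnerProductSpace ℝ V] [FiniteDimensional ℝ V]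
  [MeasurableSpace V] [BorelSpace V]

/-- the integrable weight -/
noncomputable def wt (V : Type*) [NormedAddCommGroup V] [InnerProductSpace ℝ V] (x : V) : ℝ :=
  ((1 + ‖x‖) ^ (Module.finrank ℝ V + 1))⁻¹

theorem wt_pos (x : V) : 0 < wt V x := by
  have := norm_nonneg x
  unfold wt
  positivity

theorem wt_int : Integrable (wt V) := by
  have h := integrable_one_add_norm (E := V) (μ := volume) (r := ((Module.finrank ℝ V + 1 : ℕ) : ℝ))
    (by exact_mod_cast Nat.lt_succ_self _)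
  refine h.congr (Eventually.of_forall fun x => ?_)
  have := norm_nonneg x
  simp only [wt]
  rw [Real.rpow_neg (by positivity), Real.rpow_natCast]

/-- `exp (- x)` against the weight -/
theorem exp_le_wt : ∃ C : ℝ, 0 < C ∧ ∀ x : V, Real.exp (-‖x‖) ≤ C * wt V x := by
  set n := Module.finrank ℝ V + 1 with hn
  refine ⟨n.factorial * Real.exp 1, by positivity, fun x => ?_⟩
  have h0 := norm_nonneg x
  have h1 := Real.pow_div_factorial_le_exp (1 + ‖x‖) (by positivity) n
  rw [div_le_iff₀ (by positivity), Real.exp_add] at h1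
  rw [wt, ← hn, ← div_eq_mul_inv, le_div_iff₀ (by positivity), Real.exp_neg]
  have h3 := Real.exp_pos ‖x‖
  calc (Real.exp ‖x‖)⁻¹ * (1 + ‖x‖) ^ n
      ≤ (Real.exp ‖x‖)⁻¹ * (Real.exp 1 * Real.exp ‖x‖ * n.factorial) :=
        mul_le_mul_of_nonneg_left h1 (by positivity)
    _ = _ := by field_simp

/-- faster than all exponentials -/
def SE (g : V → ℂ) : Prop := ∀ T : ℝ, ∃ C : ℝ, ∀ x, ‖g x‖ ≤ C * Real.exp (-(T * ‖x‖))

theorem abs_inner_le {e : V} (he : ‖e‖ = 1) (x : V) : |inner ℝ x e| ≤ ‖x‖ := by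
  have := abs_real_inner_le_norm x e
  rwa [he, mul_one] at this

theorem kernel_le2 {e : V} (he : ‖e‖ = 1) (x : V) (ρ : ℂ) :
    ‖cexp (-(2 * Real.pi * (inner ℝ x e) : ℝ) * I * ρ)‖
      ≤ Real.exp (2 * Real.pi * |ρ.im| * ‖x‖) := by
  rw [norm_kernel]
  apply Real.exp_le_exp.2
  have hπ := Real.pi_pos
  have h1 := abs_inner_le he x
  calc 2 * Real.pi * (inner ℝ x e * ρ.im) ≤ 2 * Real.pi * |inner ℝ x e * ρ.im| :=
        mul_le_mul_of_nonneg_left (le_abs_self _) (by positivity)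
    _ = 2 * Real.pi * (|inner ℝ x e| * |ρ.im|) := by rw [abs_mul]
    _ ≤ 2 * Real.pi * (‖x‖ * |ρ.im|) := by gcongr
    _ = _ := by ring

theorem HF_diff2 {g : V → ℂ} (hgc : Continuous g) (hg : SE g) {e : V} (he : ‖e‖ = 1) :
    Differentiable ℂ (HF g e) := by
  intro ρ₀
  have hπ := Real.pi_pos
  obtain ⟨C₁, hC₁0, hC₁⟩ := exp_le_wt (V := V)
  set M : ℝ := |ρ₀.im| + 1 with hM
  obtain ⟨C, hC⟩ := hg (2 * Real.pi * (M + 1) + 1)
  have hC0 : 0 ≤ C := by
    have h := (norm_nonneg _).trans (hC 0)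
    exact nonneg_of_mul_nonneg_left h (Real.exp_pos _)
  have hker : ∀ x : V, ∀ ρ ∈ Metric.ball ρ₀ 1,
      ‖cexp (-(2 * Real.pi * (inner ℝ x e) : ℝ) * I * ρ)‖ ≤ Real.exp (2 * Real.pi * M * ‖x‖) := by
    intro x ρ hρ
    rw [Metric.mem_ball, dist_eq_norm] at hρ
    have him : |ρ.im| ≤ M := by
      have h1 := (Complex.abs_im_le_norm (ρ - ρ₀)).trans hρ.le
      rw [Complex.sub_im] at h1
      have h2 := abs_sub_abs_le_abs_sub ρ.im ρ₀.im
      linarith
    refine (kernel_le2 he x ρ).trans (Real.exp_le_exp.2 ?_)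
    gcongr
  have hint : ∀ x : V, Real.exp (2 * Real.pi * M * ‖x‖) * Real.exp (2 * Real.pi * ‖x‖) * ‖g x‖
      ≤ C * C₁ * wt V x := by
    intro x
    calc Real.exp (2 * Real.pi * M * ‖x‖) * Real.exp (2 * Real.pi * ‖x‖) * ‖g x‖
        ≤ Real.exp (2 * Real.pi * M * ‖x‖) * Real.exp (2 * Real.pi * ‖x‖)
          * (C * Real.exp (-((2 * Real.pi * (M + 1) + 1) * ‖x‖))) := by
          gcongr
          exact hC x
      _ = C * Real.exp (-‖x‖) := by
          rw [mul_left_comm, ← Real.exp_add, ← Real.exp_add]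
          congr 2
          ring
      _ ≤ C * (C₁ * wt V x) := mul_le_mul_of_nonneg_left (hC₁ x) hC0
      _ = _ := by ring
  have key : ∀ x : V, ∀ ρ ∈ Metric.ball ρ₀ 1,
      ‖cexp (-(2 * Real.pi * (inner ℝ x e) : ℝ) * I * ρ)
        * (-(2 * Real.pi * (inner ℝ x e) : ℝ) * I) * g x‖ ≤ C * C₁ * wt V x := by
    intro x ρ hρ
    have h1 := abs_inner_le he x
    have h2 : ‖(-(2 * Real.pi * (inner ℝ x e) : ℝ) * I : ℂ)‖ ≤ Real.exp (2 * Real.pi * ‖x‖) := by
      rw [norm_mul, Complex.norm_I, mul_one, norm_neg, Complex.norm_real, Real.norm_eq_abs,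
        abs_mul, abs_of_pos (by positivity : (0 : ℝ) < 2 * Real.pi)]
      have h3 := Real.add_one_le_exp (2 * Real.pi * ‖x‖)
      have h4 : 2 * Real.pi * |inner ℝ x e| ≤ 2 * Real.pi * ‖x‖ :=
        mul_le_mul_of_nonneg_left h1 (by positivity)
      linarith
    rw [norm_mul, norm_mul]
    refine le_trans ?_ (hint x)
    have := hker x ρ hρ
    gcongr
  have hint0 : Integrable fun x : V => cexp (-(2 * Real.pi * (inner ℝ x e) : ℝ) * I * ρ₀) * g x := by
    refine (wt_int.const_mul (C * C₁)).mono' ?_ (Eventually.of_forall fun x => ?_)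
    · exact (by fun_prop : Continuous fun x : V =>
        cexp (-(2 * Real.pi * (inner ℝ x e) : ℝ) * I * ρ₀) * g x).aestronglyMeasurable
    · rw [norm_mul]
      refine le_trans ?_ (hint x)
      have h1 := hker x ρ₀ (Metric.mem_ball_self one_pos)
      have h2 : 1 ≤ Real.exp (2 * Real.pi * ‖x‖) := Real.one_le_exp (by positivity)
      have h3 := Real.exp_pos (2 * Real.pi * M * ‖x‖)
      have h4 : ‖cexp (-(2 * Real.pi * (inner ℝ x e) : ℝ) * I * ρ₀)‖
          ≤ Real.exp (2 * Real.pi * M * ‖x‖) * Real.exp (2 * Real.pi * ‖x‖) := by nlinarith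
      exact mul_le_mul_of_nonneg_right h4 (norm_nonneg _)
  have hres := hasDerivAt_integral_of_dominated_loc_of_deriv_le
    (μ := (volume : Measure V)) (𝕜 := ℂ) (x₀ := ρ₀) (s := Metric.ball ρ₀ 1)
    (F := fun ρ x => cexp (-(2 * Real.pi * (inner ℝ x e) : ℝ) * I * ρ) * g x)
    (F' := fun ρ x => cexp (-(2 * Real.pi * (inner ℝ x e) : ℝ) * I * ρ)
      * (-(2 * Real.pi * (inner ℝ x e) : ℝ) * I) * g x)
    (bound := fun x => C * C₁ * wt V x)
    (Metric.ball_mem_nhds ρ₀ one_pos)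
    (Eventually.of_forall fun ρ => (by fun_prop : Continuous fun x : V =>
      cexp (-(2 * Real.pi * (inner ℝ x e) : ℝ) * I * ρ) * g x).aestronglyMeasurable)
    hint0
    ((by fun_prop : Continuous fun x : V => cexp (-(2 * Real.pi * (inner ℝ x e) : ℝ) * I * ρ₀)
      * (-(2 * Real.pi * (inner ℝ x e) : ℝ) * I) * g x).aestronglyMeasurable)
    (Eventually.of_forall key)
    (wt_int.const_mul _)
    (Eventually.of_forall fun x ρ _ => by
      have h1 : HasDerivAt (fun ρ : ℂ => (-(2 * Real.pi * (inner ℝ x e) : ℝ) * I : ℂ) * ρ)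
          (-(2 * Real.pi * (inner ℝ x e) : ℝ) * I : ℂ) ρ := by
        simpa using (hasDerivAt_id ρ).const_mul (-(2 * Real.pi * (inner ℝ x e) : ℝ) * I : ℂ)
      exact (h1.cexp).mul_const _)
  exact hres.2.differentiableAt

/-- the bound of the extension by a Legendre transform -/
theorem HF_bound2 {g : V → ℂ} {M : ℝ} (hM : 0 ≤ M) {B : ℝ → ℝ}
    (hg : ∀ x, ‖g x‖ ≤ M * (wt V x * Real.exp (-(B ‖x‖)))) {e : V} (he : ‖e‖ = 1) {ρ : ℂ} {Θ : ℝ}
    (hΘ : ∀ u : ℝ, 0 ≤ u → 2 * Real.pi * |ρ.im| * u - B u ≤ Θ) :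
    ‖HF g e ρ‖ ≤ M * (∫ x : V, wt V x) * Real.exp Θ := by
  have h1 : ∀ x : V, ‖cexp (-(2 * Real.pi * (inner ℝ x e) : ℝ) * I * ρ) * g x‖
      ≤ M * Real.exp Θ * wt V x := by
    intro x
    rw [norm_mul]
    have hw := (wt_pos x).le
    calc ‖cexp (-(2 * Real.pi * (inner ℝ x e) : ℝ) * I * ρ)‖ * ‖g x‖
        ≤ Real.exp (2 * Real.pi * |ρ.im| * ‖x‖) * (M * (wt V x * Real.exp (-(B ‖x‖)))) :=
          mul_le_mul (kernel_le2 he x ρ) (hg x) (norm_nonneg _) (Real.exp_pos _).le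
      _ = M * Real.exp (2 * Real.pi * |ρ.im| * ‖x‖ - B ‖x‖) * wt V x := by
          rw [sub_eq_add_neg, Real.exp_add]; ring
      _ ≤ _ := by
          have := Real.exp_le_exp.2 (hΘ ‖x‖ (norm_nonneg x))
          gcongr
  refine (norm_integral_le_of_norm_le (wt_int.const_mul _)
    (Eventually.of_forall h1)).trans (le_of_eq ?_)
  rw [integral_const_mul]
  ring

end Pool.Agent.GU
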