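import Pool.Agent.Lib_helper71.GU.HF

/-!
# Uniqueness in the Gaussian class (MP_a65497_an): the square root and one step
-/

set_option autoImplicit false

namespace Pool.Agent.GU

open Complex Filter Topology

/-- the square root -/
noncomputable def sq (z : ℂ) : ℂ := z ^ (((2 : ℕ) : ℂ)⁻¹)

theorem sq_sq (z : ℂ) : sq z ^ 2 = z := Complex.cpow_nat_inv_pow z (by norm_num)

theorem sq_im (z : ℂ) : (sq z).im ^ 2 = (‖z‖ - z.re) / 2 := by
  have h1 := sq_sq z
  have h2 : z.re = (sq z).re ^ 2 - (sq z).im ^ 2 := by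
    conv_lhs => rw [← h1]
    rw [pow_two, Complex.mul_re]
    ring
  have h3 : ‖z‖ = (sq z).re ^ 2 + (sq z).im ^ 2 := by
    conv_lhs => rw [← h1]
    rw [norm_pow, ← Complex.normSq_eq_norm_sq, Complex.normSq_apply]
    ring
  rw [h2, h3]
  ring

theorem sq_diff {z : ℂ} (hz : 0 < z.re) : DifferentiableAt ℂ sq z := by
  unfold sq
  exact differentiableAt_id.cpow_const (Or.inl hz)

theorem sq_real {r : ℝ} (hr : 0 ≤ r) : sq (r : ℂ) = (Real.sqrt r : ℝ) := by
  rw [sq, Real.sqrt_eq_rpow, Complex.ofReal_cpow hr]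
  congr 1
  push_cast
  norm_num

/-- orders under the square root -/
theorem order_sq {H : ℂ → ℂ} {k : ℕ} {w₀ σ : ℂ} (hw : 0 < (w₀ + σ).re)
    (hH : AnalyticAt ℂ H (sq (w₀ + σ))) (ho : (k : ℕ∞) ≤ analyticOrderAt H (sq (w₀ + σ))) :
    (k : ℕ∞) ≤ analyticOrderAt (fun w => H (sq (w + σ))) w₀ := by
  set ρ₀ := sq (w₀ + σ) with hρ
  have hρ0 : ρ₀ ≠ 0 := by
    intro h0
    have h1 := sq_sq (w₀ + σ)
    rw [← hρ, h0] at h1
    rw [← h1] at hw
    norm_num at hw
  have hopen : IsOpen {w : ℂ | 0 < (w + σ).re} :=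
    isOpen_lt continuous_const (Complex.continuous_re.comp (continuous_id.add continuous_const))
  have hsd : DifferentiableOn ℂ (fun w => sq (w + σ)) {w : ℂ | 0 < (w + σ).re} := by
    intro w hw'
    have h1 : DifferentiableAt ℂ (fun w : ℂ => w + σ) w := differentiableAt_id.add_const σ
    exact ((sq_diff hw').comp w h1).differentiableWithinAt
  have hs : AnalyticAt ℂ (fun w => sq (w + σ)) w₀ := hsd.analyticAt (hopen.mem_nhds hw)
  obtain ⟨g, hg, hge⟩ := (natCast_le_analyticOrderAt hH).1 ho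
  have hcomp : AnalyticAt ℂ (fun w => H (sq (w + σ))) w₀ := hH.comp_of_eq hs rfl
  refine (natCast_le_analyticOrderAt hcomp).2
    ⟨fun w => g (sq (w + σ)) / (sq (w + σ) + ρ₀) ^ k, ?_, ?_⟩
  · refine AnalyticAt.div (hg.comp_of_eq hs rfl) ((hs.add analyticAt_const).pow k) ?_
    apply pow_ne_zero
    rw [← hρ]
    intro h
    have : (2 : ℂ) * ρ₀ = 0 := by rw [two_mul]; exact h
    rcases mul_eq_zero.1 this with h1 | h1
    · norm_num at h1
    · exact hρ0 h1
  · have hcont : ContinuousAt (fun w => sq (w + σ)) w₀ := hs.continuousAt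
    have h1 : ∀ᶠ w in 𝓝 w₀, H (sq (w + σ)) = (sq (w + σ) - ρ₀) ^ k • g (sq (w + σ)) :=
      hcont.eventually hge
    have h2 : ∀ᶠ w in 𝓝 w₀, sq (w + σ) + ρ₀ ≠ 0 := by
      have hc2 : ContinuousAt (fun w => sq (w + σ) + ρ₀) w₀ := hcont.add continuousAt_const
      apply hc2.eventually_ne
      rw [← hρ]
      intro h
      have : (2 : ℂ) * ρ₀ = 0 := by rw [two_mul]; exact h
      rcases mul_eq_zero.1 this with h1 | h1
      · norm_num at h1
      · exact hρ0 h1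
    filter_upwards [h1, h2] with w hw1 hw2
    rw [hw1, smul_eq_mul, smul_eq_mul]
    have h3 : w - w₀ = (sq (w + σ) - ρ₀) * (sq (w + σ) + ρ₀) := by
      have e1 := sq_sq (w + σ)
      have e2 := sq_sq (w₀ + σ)
      rw [← hρ] at e2
      linear_combination e2 - e1
    rw [h3, mul_pow]
    field_simp

/-- from an entire function with zeros of order `k` at `√(kn)`, `n ≥ n₀`, to the half plane -/
theorem toHyp {H : ℂ → ℂ} (hH : Differentiable ℂ H) {k n₀ : ℕ} (hk : 0 < k) (hn : 1 ≤ n₀)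
    {C a : ℝ} (hC : 0 ≤ C) (ha : 0 < a)
    (hb : ∀ ρ : ℂ, ‖H ρ‖ ≤ C * Real.exp (Real.pi * ρ.im ^ 2 / a))
    (ho : ∀ n : ℕ, n₀ ≤ n → (k : ℕ∞) ≤ analyticOrderAt H (Real.sqrt (k * n) : ℝ)) :
    Hyp k (fun w => H (sq (w + ((k * n₀ - k / 2 : ℝ) : ℂ)))) C (Real.pi / (2 * a)) := by
  have hk0 : (0 : ℝ) < k := by exact_mod_cast hk
  have hn0 : (1 : ℝ) ≤ n₀ := by exact_mod_cast hn
  have hσ : (k / 2 : ℝ) ≤ k * n₀ - k / 2 := by nlinarith
  have hπ := Real.pi_pos
  refine ⟨hk, hC, by positivity, ?_, ?_, ?_⟩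
  · intro w hw
    have h1 : 0 < (w + ((k * n₀ - k / 2 : ℝ) : ℂ)).re := by
      rw [Complex.add_re, Complex.ofReal_re]
      linarith
    have h2 : DifferentiableAt ℂ (fun w : ℂ => w + ((k * n₀ - k / 2 : ℝ) : ℂ)) w :=
      differentiableAt_id.add_const _
    have h3 : DifferentiableAt ℂ (fun w : ℂ => sq (w + ((k * n₀ - k / 2 : ℝ) : ℂ))) w :=
      DifferentiableAt.comp (g := sq) w (sq_diff h1) h2
    exact DifferentiableAt.comp (g := H) w (hH _) h3
  · intro m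
    have e1 : (wz k m : ℂ) + ((k * n₀ - k / 2 : ℝ) : ℂ) = ((k * (n₀ + m : ℕ) : ℝ) : ℂ) := by
      rw [wz]
      push_cast
      ring
    have e2 : sq ((wz k m : ℂ) + ((k * n₀ - k / 2 : ℝ) : ℂ))
        = (Real.sqrt (k * (n₀ + m : ℕ)) : ℝ) := by
      rw [e1, sq_real (by positivity)]
    apply order_sq
    · rw [Complex.add_re, Complex.ofReal_re, Complex.ofReal_re]
      linarith [wz_pos hk m]
    · exact (hH.analyticAt _)
    · rw [e2]
      exact ho _ (by omega)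
  · intro w hw
    refine (hb _).trans ?_
    apply mul_le_mul_of_nonneg_left _ hC
    apply Real.exp_le_exp.2
    rw [sq_im]
    have h1 : ‖w + ((k * n₀ - k / 2 : ℝ) : ℂ)‖ ≤ ‖w‖ + (k * n₀ - k / 2) := by
      refine (norm_add_le _ _).trans ?_
      rw [Complex.norm_real, Real.norm_eq_abs, abs_of_nonneg (by linarith)]
    rw [Complex.add_re, Complex.ofReal_re]
    have h2 : Real.pi * ((‖w + ((k * n₀ - k / 2 : ℝ) : ℂ)‖ - (w.re + (k * n₀ - k / 2))) / 2) / a
        = Real.pi / (2 * a) * (‖w + ((k * n₀ - k / 2 : ℝ) : ℂ)‖ - (w.re + (k * n₀ - k / 2))) := by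
      field_simp
    rw [h2]
    apply mul_le_mul_of_nonneg_left _ (by positivity)
    linarith

theorem rate {a : ℝ} (ha : 0 < a) (ha2 : a ≤ 1 / 2) :
    Real.pi * (a + a ^ 3 / 2)
      ≤ Real.pi * (2 * a) - Real.pi / (2 * a) * (Real.sqrt (1 + (2 * a) ^ 2) - 1) := by
  have hπ := Real.pi_pos
  have h1 : Real.sqrt (1 + (2 * a) ^ 2) ≤ 1 + (2 * a ^ 2 - 2 * a ^ 4 + 4 * a ^ 6) := by
    apply Real.sqrt_le_iff.2
    constructor
    · have : a ^ 4 ≤ a ^ 2 := by
        apply pow_le_pow_of_le_one ha.le (by linarith) (by norm_num)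
      have h6 : 0 < a ^ 6 := by positivity
      have h2 : 0 < a ^ 2 := by positivity
      linarith
    · have h2 : 0 ≤ 20 * a ^ 8 - 16 * a ^ 10 + 16 * a ^ 12 := by
        have : a ^ 10 ≤ a ^ 8 := pow_le_pow_of_le_one ha.le (by linarith) (by norm_num)
        have h8 : 0 < a ^ 8 := by positivity
        have h12 : 0 < a ^ 12 := by positivity
        linarith
      nlinarith
  have h3 : Real.pi / (2 * a) * (Real.sqrt (1 + (2 * a) ^ 2) - 1)
      ≤ Real.pi / (2 * a) * (2 * a ^ 2 - 2 * a ^ 4 + 4 * a ^ 6) := by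
    apply mul_le_mul_of_nonneg_left _ (by positivity)
    linarith
  have h4 : Real.pi / (2 * a) * (2 * a ^ 2 - 2 * a ^ 4 + 4 * a ^ 6)
      = Real.pi * (a - a ^ 3 + 2 * a ^ 5) := by
    field_simp
    ring
  rw [h4] at h3
  have h5 : 2 * a ^ 5 ≤ a ^ 3 / 2 := by
    have : a ^ 5 = a ^ 3 * a ^ 2 := by ring
    rw [this]
    have h6 : a ^ 2 ≤ 1 / 4 := by nlinarith
    have h7 : 0 < a ^ 3 := by positivity
    nlinarith
  have h8 : Real.pi * (2 * a ^ 5) ≤ Real.pi * (a ^ 3 / 2) := mul_le_mul_of_nonneg_left h5 hπ.le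
  nlinarith

end Pool.Agent.GU
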