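import Pool.Agent.Lib_helper71.GU.Lem
import Pool.Agent.Lib_helper71.GU.Asy

/-!
# MP_a65497_an: the touching argument
-/

set_option autoImplicit false

namespace Pool.Agent.GU

open MeasureTheory Complex Filter Topology
open scoped FourierTransform SchwartzMap

theorem exists_max {G : ℝ → ℝ} (hG : Continuous G) {A c α p l r₁ : ℝ} (hc : 0 < c) (hp : 1 ≤ p)
    (hpα : p < α) (hA0 : 0 ≤ A) (hA : ∀ r, 0 ≤ r → G r ≤ A * Real.exp (-(c * r ^ α)))
    (hr₁ : 0 ≤ r₁) (hm : 0 < G r₁ * Real.exp (l * r₁ ^ p)) :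
    ∃ r₀, 0 ≤ r₀ ∧ ∀ r, 0 ≤ r → G r * Real.exp (l * r ^ p) ≤ G r₀ * Real.exp (l * r₀ ^ p) := by
  set Φ : ℝ → ℝ := fun r => G r * Real.exp (l * r ^ p) with hΦ
  have hcont : Continuous Φ := by
    apply hG.mul
    apply Real.continuous_exp.comp
    apply continuous_const.mul
    exact continuous_id.rpow_const fun x => Or.inr (by linarith)
  obtain ⟨Ra, h1a, hRa⟩ := rpow_large (α := α - p) (by linarith) ((|l| + 1) / c)
  set R := max Ra (max r₁ (A / Φ r₁)) with hR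
  have hmem : r₁ ∈ Set.Icc (0 : ℝ) R := ⟨hr₁, (le_max_left _ _).trans (le_max_right _ _)⟩
  have hbig : ∀ r, R ≤ r → Φ r ≤ Φ r₁ := by
    intro r hr
    have hr1 : Ra ≤ r := (le_max_left _ _).trans hr
    have hr2 : A / Φ r₁ ≤ r := (le_max_right _ _).trans ((le_max_right _ _).trans hr)
    have hr0 : 1 ≤ r := h1a.trans hr1
    have h2 := hRa r hr1
    rw [div_le_iff₀ hc] at h2
    have h3 : r ^ α = r ^ (α - p) * r ^ p := by
      rw [← Real.rpow_add (by linarith)]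
      congr 1
      ring
    have h4 : r ≤ r ^ p := Real.self_le_rpow_of_one_le hr0 hp
    have h5 : -(c * r ^ α) + l * r ^ p ≤ - r := by
      rw [h3]
      have h6 : (|l| + 1) * r ^ p ≤ r ^ (α - p) * c * r ^ p :=
        mul_le_mul_of_nonneg_right h2 (by linarith)
      have h7 : l * r ^ p ≤ |l| * r ^ p := mul_le_mul_of_nonneg_right (le_abs_self _) (by linarith)
      linarith
    calc Φ r ≤ A * Real.exp (-(c * r ^ α)) * Real.exp (l * r ^ p) :=
          mul_le_mul_of_nonneg_right (hA r (by linarith)) (Real.exp_pos _).le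
      _ = A * Real.exp (-(c * r ^ α) + l * r ^ p) := by rw [Real.exp_add]; ring
      _ ≤ A * Real.exp (-r) := mul_le_mul_of_nonneg_left (Real.exp_le_exp.2 h5) hA0
      _ ≤ Φ r₁ := by
          rw [Real.exp_neg, ← div_eq_mul_inv, div_le_iff₀ (Real.exp_pos _)]
          rw [div_le_iff₀ hm] at hr2
          have h8 : r ≤ Real.exp r := by
            have := Real.add_one_le_exp r
            linarith
          calc A ≤ r * Φ r₁ := hr2
            _ ≤ Real.exp r * Φ r₁ := mul_le_mul_of_nonneg_right h8 hm.le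
            _ = _ := mul_comm _ _
  obtain ⟨r₀, hr₀, hmax⟩ := (isCompact_Icc (a := (0:ℝ)) (b := R)).exists_isMaxOn
    ⟨r₁, hmem⟩ hcont.continuousOn
  refine ⟨r₀, hr₀.1, fun r hr => ?_⟩
  rcases le_total r R with h | h
  · exact hmax ⟨hr, h⟩
  · exact (hbig r h).trans (hmax hmem)

variable {V : Type*} [NormedAddCommGroup V] [InnerProductSpace ℝ V] [FiniteDimensional ℝ V]
  [MeasurableSpace V] [BorelSpace V]

theorem rad_eq {f : V → ℂ} (hr : Rad f) {e : V} (he : ‖e‖ = 1) (x : V) : f x = f (‖x‖ • e) := by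
  apply hr
  rw [norm_smul, he, mul_one, norm_norm]

theorem touch {e : V} (he : ‖e‖ = 1) {k n₀ : ℕ} (hk : 0 < k) (hn : 1 ≤ n₀) {α c C : ℝ}
    (hα : 4 / 3 < α) (hα2 : α < 2) (hc : 0 < c) {f f' : V → ℂ} (hf : Continuous f)
    (hf' : Continuous f') (hr : Rad f) (hr' : Rad f') (hff : 𝓕 f = f') (hff' : 𝓕 f' = f)
    (hz : Zer k n₀ e f) (hz' : Zer k n₀ e f') (hC : 0 ≤ C)
    (hb : ∀ x, ‖f x‖ ≤ C * Real.exp (-(c * ‖x‖ ^ α)))
    (hb' : ∀ x, ‖f' x‖ ≤ C * Real.exp (-(c * ‖x‖ ^ α))) :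
    ∃ C' ε : ℝ, 0 < ε ∧ ∀ x, ‖f x‖ ≤ C' * Real.exp (-(ε * ‖x‖ ^ 2)) := by
  have hπ := Real.pi_pos
  have hk0 : (0 : ℝ) < k := by exact_mod_cast hk
  set D := Module.finrank ℝ V + 1 with hD
  obtain ⟨M₁, hM₁, hpe⟩ := poly_exp D (c := c / 2) (α := α) (by positivity) (by linarith)
  set A := C * M₁ with hA
  have hA0 : 0 ≤ A := by positivity
  set G : ℝ → ℝ := fun r => (1 + |r|) ^ D * max ‖f (r • e)‖ ‖f' (r • e)‖ with hGdef
  have hGc : Continuous G := by
    have h1 : Continuous fun r : ℝ => f (r • e) := hf.comp (continuous_id.smul continuous_const)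
    have h2 : Continuous fun r : ℝ => f' (r • e) := hf'.comp (continuous_id.smul continuous_const)
    exact ((continuous_const.add continuous_abs).pow D).mul (h1.norm.max h2.norm)
  have hGe : ∀ r, 0 ≤ r → G r = (1 + r) ^ D * max ‖f (r • e)‖ ‖f' (r • e)‖ := by
    intro r hr0
    simp only [hGdef, abs_of_nonneg hr0]
  have hG : ∀ r, 0 ≤ r → G r ≤ A * Real.exp (-(c / 2 * r ^ α)) := by
    intro r hr0
    have h1 : max ‖f (r • e)‖ ‖f' (r • e)‖ ≤ C * Real.exp (-(c * r ^ α)) := by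
      have hn : ‖r • e‖ = r := by rw [norm_smul, he, mul_one, Real.norm_of_nonneg hr0]
      apply max_le
      · have := hb (r • e)
        rwa [hn] at this
      · have := hb' (r • e)
        rwa [hn] at this
    calc G r = (1 + r) ^ D * max ‖f (r • e)‖ ‖f' (r • e)‖ := hGe r hr0
      _ ≤ (M₁ * Real.exp (c / 2 * r ^ α)) * (C * Real.exp (-(c * r ^ α))) :=
          mul_le_mul (hpe r hr0) h1 (le_max_of_le_left (norm_nonneg _)) (by positivity)
      _ = A * Real.exp (-(c / 2 * r ^ α)) := by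
          have : Real.exp (-(c / 2 * r ^ α))
              = Real.exp (c / 2 * r ^ α) * Real.exp (-(c * r ^ α)) := by
            rw [← Real.exp_add]
            congr 1
            ring
          rw [this, hA]
          ring
  set p : ℝ := (1 + α) / 2 with hp
  have hp1 : 1 < p := by rw [hp]; linarith
  have hpα : p < α := by rw [hp]; linarith
  have hp2 : p < 2 := by linarith
  clear_value p
  obtain ⟨CL, Q₀, R₁, hCL, hQ₀, hR₁, hL⟩ := lemL he hk hn hp1 hp2
  set ε : ℝ := Q₀ / 13 with hε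
  have hε0 : 0 < ε := by positivity
  have hp3 : 0 < p - 1 := by linarith
  have hp0 : 0 < p := by linarith
  set a : ℝ := 4 / 5 * p * (p - 1) * (c / 2) with ha
  have ha0 : 0 < a := by positivity
  obtain ⟨Ra, hRa1, hRa⟩ := rpow_large (α := α) (by linarith) (32 * Real.pi * k / a)
  obtain ⟨Rb, hRb1, hRb⟩ := poly_exp_small D (a := a ^ 3 / (64 * Real.pi ^ 2)) (β := 3 * α - 4)
    (by positivity) (by linarith) CL hCL
  set R₂ : ℝ := 4 * (R₁ + Ra + Rb) + 2 * A / ε with hR₂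
  have h2Aε : 0 ≤ 2 * A / ε := by positivity
  have key : ∀ r, R₂ ≤ r → ‖f (r • e)‖ < Real.exp (-(ε * r ^ 2)) := by
    intro s hs
    by_contra hcon
    push Not at hcon
    have hs1 : 1 ≤ s := by linarith
    have hs0 : 0 < s := by linarith
    set l : ℝ := 2 * ε * s ^ (2 - p) with hl
    have hl0 : 0 < l := by positivity
    have hls : l * s ^ p = 2 * ε * s ^ 2 := by
      rw [hl, mul_assoc, ← Real.rpow_add hs0, show 2 - p + p = 2 by ring, Real.rpow_two]
    have hsA : A < Real.exp (ε * s ^ 2 / 2) := by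
      have h1 : 2 * A / ε ≤ s := by linarith
      rw [div_le_iff₀ hε0] at h1
      have h2 : s * ε ≤ ε * s ^ 2 := by nlinarith
      have := Real.add_one_le_exp (ε * s ^ 2 / 2)
      linarith
    have hΦs : Real.exp (ε * s ^ 2) ≤ G s * Real.exp (l * s ^ p) := by
      rw [hls]
      have h1 : Real.exp (-(ε * s ^ 2)) ≤ G s := by
        have h3 : (1 : ℝ) ≤ (1 + s) ^ D := one_le_pow₀ (by linarith)
        rw [hGe s hs0.le]
        calc Real.exp (-(ε * s ^ 2)) ≤ ‖f (s • e)‖ := hcon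
          _ ≤ max ‖f (s • e)‖ ‖f' (s • e)‖ := le_max_left _ _
          _ ≤ _ := le_mul_of_one_le_left (le_max_of_le_left (norm_nonneg _)) h3
      calc Real.exp (ε * s ^ 2) = Real.exp (-(ε * s ^ 2)) * Real.exp (2 * ε * s ^ 2) := by
            rw [← Real.exp_add]
            congr 1
            ring
        _ ≤ _ := mul_le_mul_of_nonneg_right h1 (Real.exp_pos _).le
    obtain ⟨r₀, hr₀, hmax⟩ := exists_max hGc (l := l) (p := p) (c := c / 2) (α := α)
      (by positivity) hp1.le hpα hA0 hG hs0.le ((Real.exp_pos _).trans_le hΦs)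
    set M : ℝ := G r₀ * Real.exp (l * r₀ ^ p) with hM
    have hMs : Real.exp (ε * s ^ 2) ≤ M := hΦs.trans (hmax s hs0.le)
    have hM0 : 0 < M := (Real.exp_pos _).trans_le hMs
    have hMle : M ≤ A * Real.exp (-(c / 2 * r₀ ^ α) + l * r₀ ^ p) := by
      rw [Real.exp_add, ← mul_assoc]
      exact mul_le_mul_of_nonneg_right (hG r₀ hr₀) (Real.exp_pos _).le
    have hεs : 0 < ε * s ^ 2 := by positivity
    -- `r₀` is large
    have hr₀s : s / 4 ≤ r₀ := by
      by_contra h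
      push Not at h
      have h1 : r₀ ^ p ≤ (s / 4) ^ p := Real.rpow_le_rpow hr₀ h.le (by linarith)
      have h2 : (s / 4) ^ p ≤ s ^ p / 4 := by
        rw [Real.div_rpow hs0.le (by norm_num)]
        apply div_le_div_of_nonneg_left (by positivity) (by norm_num)
        exact Real.self_le_rpow_of_one_le (by norm_num) hp1.le
      have h3 : l * r₀ ^ p ≤ ε * s ^ 2 / 2 := by
        calc l * r₀ ^ p ≤ l * (s ^ p / 4) := mul_le_mul_of_nonneg_left (h1.trans h2) hl0.le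
          _ = (l * s ^ p) / 4 := by ring
          _ = _ := by rw [hls]; ring
      have h4 : M ≤ A * Real.exp (ε * s ^ 2 / 2) := by
        refine hMle.trans (mul_le_mul_of_nonneg_left (Real.exp_le_exp.2 ?_) hA0)
        have : 0 ≤ c / 2 * r₀ ^ α := by positivity
        linarith
      have h5 : Real.exp (ε * s ^ 2) = Real.exp (ε * s ^ 2 / 2) * Real.exp (ε * s ^ 2 / 2) := by
        rw [← Real.exp_add]
        congr 1
        ring
      have h6 := Real.exp_pos (ε * s ^ 2 / 2)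
      have h7 := hMs.trans h4
      rw [h5] at h7
      have := le_of_mul_le_mul_right h7 h6
      linarith
    have hr0 : 0 < r₀ := by linarith
    have hrp2 : 0 < r₀ ^ (p - 2) := Real.rpow_pos_of_pos hr0 _
    have hrp1 : 0 < r₀ ^ (p - 1) := Real.rpow_pos_of_pos hr0 _
    obtain ⟨P, hP⟩ : ∃ P : ℝ, P = l * p * r₀ ^ (p - 1) := ⟨_, rfl⟩
    obtain ⟨Q, hQ⟩ : ∃ Q : ℝ, Q = 4 / 5 * (l * p * (p - 1) * r₀ ^ (p - 2)) := ⟨_, rfl⟩
    have hP0 : 0 < P := by rw [hP]; positivity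
    have hQ0 : 0 < Q := by rw [hQ]; positivity
    have hQQ : Q ≤ Q₀ := by
      have h1 : r₀ ^ (p - 2) ≤ (s / 4) ^ (p - 2) :=
        Real.rpow_le_rpow_of_nonpos (by positivity) hr₀s (by linarith)
      have h2 : (s / 4) ^ (p - 2) = s ^ (p - 2) * 4 ^ (2 - p) := by
        rw [Real.div_rpow hs0.le (by norm_num), div_eq_mul_inv, ← Real.rpow_neg (by norm_num),
          neg_sub]
      have h3 : (4 : ℝ) ^ (2 - p) ≤ 4 := by
        calc (4:ℝ) ^ (2 - p) ≤ 4 ^ (1:ℝ) :=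
              Real.rpow_le_rpow_of_exponent_le (by norm_num) (by linarith)
          _ = 4 := Real.rpow_one _
      have h4 : s ^ (2 - p) * s ^ (p - 2) = 1 := by
        rw [← Real.rpow_add hs0, show 2 - p + (p - 2) = 0 by ring, Real.rpow_zero]
      have h5 : p * (p - 1) ≤ 2 := by nlinarith
      have h6 : l * r₀ ^ (p - 2) ≤ 8 * ε := by
        calc l * r₀ ^ (p - 2) ≤ l * (s ^ (p - 2) * 4 ^ (2 - p)) :=
              mul_le_mul_of_nonneg_left (h1.trans_eq h2) hl0.le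
          _ = 2 * ε * (s ^ (2 - p) * s ^ (p - 2)) * 4 ^ (2 - p) := by rw [hl]; ring
          _ ≤ 2 * ε * (s ^ (2 - p) * s ^ (p - 2)) * 4 :=
              mul_le_mul_of_nonneg_left h3 (by positivity)
          _ = 8 * ε := by rw [h4]; ring
      calc Q = 4 / 5 * (p * (p - 1)) * (l * r₀ ^ (p - 2)) := by rw [hQ]; ring
        _ ≤ 4 / 5 * 2 * (8 * ε) := mul_le_mul (by linarith) h6 (by positivity) (by norm_num)
        _ ≤ Q₀ := by rw [hε]; linarith
    have hlr : c / 2 * r₀ ^ α ≤ l * r₀ ^ p := by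
      by_contra h
      push Not at h
      have h1 : Real.exp (-(c / 2 * r₀ ^ α) + l * r₀ ^ p) ≤ 1 :=
        Real.exp_le_one_iff.2 (by linarith)
      have h2 : M ≤ A := hMle.trans (mul_le_of_le_one_right hA0 h1)
      have h3 : Real.exp (ε * s ^ 2 / 2) ≤ Real.exp (ε * s ^ 2) :=
        Real.exp_le_exp.2 (by linarith)
      linarith
    have hQr : a * r₀ ^ α ≤ Q * r₀ ^ 2 := by
      have h1 : r₀ ^ (p - 2) * r₀ ^ 2 = r₀ ^ p := by
        rw [← Real.rpow_two, ← Real.rpow_add hr0, sub_add_cancel]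
      calc a * r₀ ^ α = 4 / 5 * p * (p - 1) * (c / 2 * r₀ ^ α) := by rw [ha]; ring
        _ ≤ 4 / 5 * p * (p - 1) * (l * r₀ ^ p) := mul_le_mul_of_nonneg_left hlr (by positivity)
        _ = Q * r₀ ^ 2 := by rw [hQ, ← h1]; ring
    have h32 : 32 * Real.pi * k ≤ Q * r₀ ^ 2 := by
      refine le_trans ?_ hQr
      have := hRa r₀ (by linarith)
      rw [div_le_iff₀ ha0] at this
      linarith
    -- pointwise bounds
    have hpt : ∀ (g : V → ℂ), Rad g → (∀ r : ℝ, ‖g (r • e)‖ ≤ max ‖f (r • e)‖ ‖f' (r • e)‖) →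
        ∀ x, ‖g x‖ ≤ M * (wt V x * Real.exp (-(l * ‖x‖ ^ p))) := by
      intro g hg hle x
      rw [rad_eq hg he x]
      have h1 := hmax ‖x‖ (norm_nonneg _)
      have h3 : 0 < (1 + ‖x‖) ^ D := by positivity
      have h2 : ‖g (‖x‖ • e)‖ * (1 + ‖x‖) ^ D ≤ G ‖x‖ := by
        rw [hGe _ (norm_nonneg _), mul_comm]
        exact mul_le_mul_of_nonneg_left (hle _) h3.le
      have h4 := Real.exp_pos (l * ‖x‖ ^ p)
      have h5 : ‖g (‖x‖ • e)‖ * (1 + ‖x‖) ^ D * Real.exp (l * ‖x‖ ^ p) ≤ M :=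
        (mul_le_mul_of_nonneg_right h2 h4.le).trans h1
      have h6 : wt V x = ((1 + ‖x‖) ^ D)⁻¹ := rfl
      rw [h6, Real.exp_neg]
      calc ‖g (‖x‖ • e)‖ = (‖g (‖x‖ • e)‖ * (1 + ‖x‖) ^ D * Real.exp (l * ‖x‖ ^ p))
            * (((1 + ‖x‖) ^ D)⁻¹ * (Real.exp (l * ‖x‖ ^ p))⁻¹) := by
              field_simp
        _ ≤ _ := mul_le_mul_of_nonneg_right h5 (by positivity)
    have hLf := hL f M l r₀ P Q hf hM0.le hl0 (by linarith) hP hQ hQQ h32
      (hpt f hr fun r => le_max_left _ _) (by rwa [hff])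
    have hLf' := hL f' M l r₀ P Q hf' hM0.le hl0 (by linarith) hP hQ hQQ h32
      (hpt f' hr' fun r => le_max_right _ _) (by rwa [hff'])
    rw [hff] at hLf
    rw [hff'] at hLf'
    obtain ⟨γ, hγdef⟩ : ∃ γ : ℝ, γ = Q * P ^ 2 / (64 * Real.pi ^ 2) := ⟨_, rfl⟩
    rw [← hγdef] at hLf hLf'
    have hmx : max ‖f (r₀ • e)‖ ‖f' (r₀ • e)‖ ≤ CL * M * Real.exp (-(l * r₀ ^ p) - γ) :=
      max_le hLf' hLf
    have hfin : M ≤ (1 + r₀) ^ D * (CL * M * Real.exp (-γ)) := by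
      calc M = (1 + r₀) ^ D * max ‖f (r₀ • e)‖ ‖f' (r₀ • e)‖ * Real.exp (l * r₀ ^ p) := by
            rw [hM, hGe r₀ hr₀]
        _ ≤ (1 + r₀) ^ D * (CL * M * Real.exp (-(l * r₀ ^ p) - γ)) * Real.exp (l * r₀ ^ p) :=
            mul_le_mul_of_nonneg_right (mul_le_mul_of_nonneg_left hmx (by positivity))
              (Real.exp_pos _).le
        _ = (1 + r₀) ^ D * (CL * M * (Real.exp (-(l * r₀ ^ p) - γ) * Real.exp (l * r₀ ^ p))) := by
            ring
        _ = _ := by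
            rw [← Real.exp_add, show -(l * r₀ ^ p) - γ + l * r₀ ^ p = -γ by ring]
    have h1 : 1 ≤ CL * (1 + r₀) ^ D * Real.exp (-γ) := by
      have : M * 1 ≤ M * (CL * (1 + r₀) ^ D * Real.exp (-γ)) := by linarith
      exact le_of_mul_le_mul_left this hM0
    have hγ : a ^ 3 / (64 * Real.pi ^ 2) * r₀ ^ (3 * α - 4) ≤ γ := by
      have e1 : r₀ ^ (p - 1) = r₀ ^ (p - 2) * r₀ := by
        rw [show p - 1 = (p - 2) + 1 by ring, Real.rpow_add hr0, Real.rpow_one]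
      have e2 : Q * r₀ = 4 / 5 * (p - 1) * P := by rw [hQ, hP, e1]; ring
      have hPQ : Q * r₀ ≤ P := by rw [e2]; nlinarith
      have h2 : (a * r₀ ^ α) ^ 3 ≤ (Q * r₀ ^ 2) ^ 3 := pow_le_pow_left₀ (by positivity) hQr 3
      have h3 : (a * r₀ ^ α) ^ 3 = a ^ 3 * r₀ ^ (3 * α - 4) * r₀ ^ 4 := by
        rw [mul_pow, ← Real.rpow_natCast (r₀ ^ α) 3, ← Real.rpow_mul hr0.le,
          ← Real.rpow_natCast r₀ 4, mul_assoc, ← Real.rpow_add hr0]
        congr 2
        push_cast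
        ring
      have h4 : (Q * r₀ ^ 2) ^ 3 = Q * (Q * r₀) ^ 2 * r₀ ^ 4 := by ring
      have h5 : Q * (Q * r₀) ^ 2 ≤ Q * P ^ 2 :=
        mul_le_mul_of_nonneg_left (pow_le_pow_left₀ (by positivity) hPQ 2) hQ0.le
      rw [h3, h4] at h2
      have h6 := le_of_mul_le_mul_right h2 (by positivity : 0 < r₀ ^ 4)
      rw [hγdef, div_mul_eq_mul_div]
      exact div_le_div_of_nonneg_right (h6.trans h5) (by positivity)
    have h8 := hRb r₀ (by linarith)
    have h9 : CL * (1 + r₀) ^ D * Real.exp (-γ)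
        ≤ CL * (1 + r₀) ^ D * Real.exp (-(a ^ 3 / (64 * Real.pi ^ 2) * r₀ ^ (3 * α - 4))) := by
      apply mul_le_mul_of_nonneg_left _ (by positivity)
      exact Real.exp_le_exp.2 (by linarith)
    linarith
  -- conclusion
  refine ⟨1 + C * Real.exp (ε * R₂ ^ 2), ε, hε0, fun x => ?_⟩
  have h4 : 0 < Real.exp (-(ε * ‖x‖ ^ 2)) := Real.exp_pos _
  rcases le_or_gt R₂ ‖x‖ with h | h
  · rw [rad_eq hr he x]
    have h1 := (key ‖x‖ h).le
    refine h1.trans (le_mul_of_one_le_left (Real.exp_pos _).le ?_)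
    have : 0 ≤ C * Real.exp (ε * R₂ ^ 2) := by positivity
    linarith
  · have h1 := hb x
    have h2 : ‖f x‖ ≤ C := by
      refine h1.trans (mul_le_of_le_one_right hC (Real.exp_le_one_iff.2 ?_))
      have : 0 ≤ c * ‖x‖ ^ α := by positivity
      linarith
    have h3 : C ≤ C * (Real.exp (ε * R₂ ^ 2) * Real.exp (-(ε * ‖x‖ ^ 2))) := by
      apply le_mul_of_one_le_right hC
      rw [← Real.exp_add]
      apply Real.one_le_exp
      have : ‖x‖ ^ 2 ≤ R₂ ^ 2 := pow_le_pow_left₀ (norm_nonneg _) h.le 2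
      nlinarith
    calc ‖f x‖ ≤ C * (Real.exp (ε * R₂ ^ 2) * Real.exp (-(ε * ‖x‖ ^ 2))) := h2.trans h3
      _ ≤ (1 + C * Real.exp (ε * R₂ ^ 2)) * Real.exp (-(ε * ‖x‖ ^ 2)) := by
          rw [add_mul, one_mul, mul_assoc]
          linarith

theorem classF {e : V} (he : ‖e‖ = 1) {k n₀ : ℕ} (hk : 0 < k) (hn : 1 ≤ n₀) {α c C : ℝ}
    (hα : 1 < α) (hα2 : α < 2) (hc : 0 < c) {f : V → ℂ} (hf : Continuous f)
    (hr : Rad f) (hz : Zer k n₀ e (𝓕 f)) (hC : 0 ≤ C)
    (hb : ∀ x, ‖f x‖ ≤ C * Real.exp (-(c * ‖x‖ ^ α))) {B : ℝ} (hB : ∀ x, ‖𝓕 f x‖ ≤ B) :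
    ∃ C' : ℝ, 0 ≤ C' ∧ ∀ x, ‖𝓕 f x‖ ≤ C' * Real.exp (-(c / 2 * ‖x‖ ^ α)) := by
  have hπ := Real.pi_pos
  have hk0 : (0 : ℝ) < k := by exact_mod_cast hk
  have hB0 : 0 ≤ B := (norm_nonneg _).trans (hB 0)
  set D := Module.finrank ℝ V + 1 with hD
  obtain ⟨M₁, hM₁, hpe⟩ := poly_exp D (c := c / 2) (α := α) (by positivity) (by linarith)
  obtain ⟨CL, Q₀, R₁, hCL, hQ₀, hR₁, hL⟩ := lemL he hk hn hα hα2
  have ha1 : 0 < α - 1 := by linarith
  have ha0 : 0 < α := by linarith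
  set a : ℝ := 4 / 5 * (c / 2 * α * (α - 1)) with ha
  have hapos : 0 < a := by positivity
  obtain ⟨Ra, hRa1, hRa⟩ := rpow_large (α := α) (by linarith) (32 * Real.pi * k / a)
  obtain ⟨Rb, hRb1, hRb⟩ := rpow_small (β := α - 2) (by linarith) (A := Q₀ / a) (by positivity)
  have hpt : ∀ x, ‖f x‖ ≤ (C * M₁) * (wt V x * Real.exp (-(c / 2 * ‖x‖ ^ α))) := by
    intro x
    refine (hb x).trans ?_
    have h6 : wt V x = ((1 + ‖x‖) ^ D)⁻¹ := rfl
    have h1 := hpe ‖x‖ (norm_nonneg _)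
    have h3 : 0 < (1 + ‖x‖) ^ D := by positivity
    have h4 : Real.exp (-(c * ‖x‖ ^ α))
        = Real.exp (-(c / 2 * ‖x‖ ^ α)) * Real.exp (-(c / 2 * ‖x‖ ^ α)) := by
      rw [← Real.exp_add]
      congr 1
      ring
    have h5 : Real.exp (-(c / 2 * ‖x‖ ^ α)) ≤ M₁ * wt V x := by
      rw [h6, Real.exp_neg, ← div_eq_mul_inv, le_div_iff₀ h3, inv_mul_le_iff₀ (Real.exp_pos _)]
      linarith
    rw [h4]
    calc C * (Real.exp (-(c / 2 * ‖x‖ ^ α)) * Real.exp (-(c / 2 * ‖x‖ ^ α)))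
        ≤ C * ((M₁ * wt V x) * Real.exp (-(c / 2 * ‖x‖ ^ α))) := by
          apply mul_le_mul_of_nonneg_left _ hC
          exact mul_le_mul_of_nonneg_right h5 (Real.exp_pos _).le
      _ = _ := by ring
  set R₂ : ℝ := R₁ + Ra + Rb with hR₂
  refine ⟨CL * (C * M₁) + B * Real.exp (c / 2 * R₂ ^ α), by positivity, fun x => ?_⟩
  have hexp : 0 < Real.exp (-(c / 2 * ‖x‖ ^ α)) := Real.exp_pos _
  rcases le_or_gt R₂ ‖x‖ with h | h
  · rw [rad_eq (rad_fourier hr) he x]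
    have hx0 : 0 < ‖x‖ := by linarith
    have hQ1 : 4 / 5 * (c / 2 * α * (α - 1) * ‖x‖ ^ (α - 2)) = a * ‖x‖ ^ (α - 2) := by
      rw [ha]; ring
    have h1 := hL f (C * M₁) (c / 2) ‖x‖ _ _ hf (by positivity) (by positivity) (by linarith) rfl
      rfl (by
        rw [hQ1]
        have := hRb ‖x‖ (by linarith)
        rw [le_div_iff₀ hapos] at this
        linarith) (by
        rw [hQ1]
        have h2 := hRa ‖x‖ (by linarith)
        rw [div_le_iff₀ hapos] at h2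
        have h3 : ‖x‖ ^ (α - 2) * ‖x‖ ^ 2 = ‖x‖ ^ α := by
          rw [← Real.rpow_two, ← Real.rpow_add hx0, sub_add_cancel]
        rw [mul_assoc a, h3]
        linarith) hpt hz
    refine h1.trans ?_
    have h2 : Real.exp (-(c / 2 * ‖x‖ ^ α) - 4 / 5 * (c / 2 * α * (α - 1) * ‖x‖ ^ (α - 2))
        * (c / 2 * α * ‖x‖ ^ (α - 1)) ^ 2 / (64 * Real.pi ^ 2))
        ≤ Real.exp (-(c / 2 * ‖x‖ ^ α)) := by
      apply Real.exp_le_exp.2
      have : 0 ≤ 4 / 5 * (c / 2 * α * (α - 1) * ‖x‖ ^ (α - 2))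
        * (c / 2 * α * ‖x‖ ^ (α - 1)) ^ 2 / (64 * Real.pi ^ 2) := by positivity
      linarith
    refine (mul_le_mul_of_nonneg_left h2 (by positivity)).trans ?_
    apply mul_le_mul_of_nonneg_right _ hexp.le
    have : 0 ≤ B * Real.exp (c / 2 * R₂ ^ α) := by positivity
    linarith
  · have h3 : B ≤ B * (Real.exp (c / 2 * R₂ ^ α) * Real.exp (-(c / 2 * ‖x‖ ^ α))) := by
      apply le_mul_of_one_le_right hB0
      rw [← Real.exp_add]
      apply Real.one_le_exp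
      have : ‖x‖ ^ α ≤ R₂ ^ α := Real.rpow_le_rpow (norm_nonneg _) h.le ha0.le
      nlinarith
    refine ((hB x).trans h3).trans ?_
    rw [← mul_assoc]
    apply mul_le_mul_of_nonneg_right _ hexp.le
    have : 0 ≤ CL * (C * M₁) := by positivity
    linarith

/-- Uniqueness in the class of decay `exp (- c |x| ^ α)`, `α > 4/3`. -/
theorem sub_gaussian_class {e : V} (he : ‖e‖ = 1) {k n₀ : ℕ} (hk : 0 < k) (f : 𝓢(V, ℂ))
    (hr : Rad (f : V → ℂ)) (hz1 : Zer k n₀ e (f : V → ℂ)) (hz2 : Zer k n₀ e (𝓕 (f : V → ℂ)))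
    {α C c : ℝ} (hα : 4 / 3 < α) (hc : 0 < c) (hd : ∀ x, ‖f x‖ ≤ C * Real.exp (-(c * ‖x‖ ^ α))) :
    f = 0 := by
  have hC : 0 ≤ C := nonneg_of_mul_nonneg_left ((norm_nonneg _).trans (hd 0)) (Real.exp_pos _)
  rcases le_or_gt 2 α with h2 | h2
  · refine gaussian_class he hk f hr hz1 hz2 hc (C := C * Real.exp c) fun x => (hd x).trans ?_
    rw [mul_assoc, ← Real.exp_add]
    apply mul_le_mul_of_nonneg_left _ hC
    apply Real.exp_le_exp.2
    have h3 : ‖x‖ ^ 2 ≤ 1 + ‖x‖ ^ α := by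
      rcases le_total ‖x‖ 1 with h | h
      · have h4 : ‖x‖ ^ 2 ≤ 1 := pow_le_one₀ (norm_nonneg _) h
        have h5 : 0 ≤ ‖x‖ ^ α := Real.rpow_nonneg (norm_nonneg _) _
        linarith
      · have h4 : ‖x‖ ^ 2 ≤ ‖x‖ ^ α := by
          rw [← Real.rpow_two]
          exact Real.rpow_le_rpow_of_exponent_le h h2
        linarith
    nlinarith
  · have hz1' : Zer k (n₀ + 1) e (f : V → ℂ) := fun n hn => hz1 n (by omega)
    have hz2' : Zer k (n₀ + 1) e (𝓕 (f : V → ℂ)) := fun n hn => hz2 n (by omega)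
    have hff := fourier_fourier hr
    have hff' : 𝓕 (𝓕 (f : V → ℂ)) = f := by
      rw [← SchwartzMap.fourier_coe, ← SchwartzMap.fourier_coe, hff]
    have hB : ∀ x, ‖𝓕 (f : V → ℂ) x‖ ≤ SchwartzMap.seminorm ℝ 0 0 (𝓕 f) := by
      intro x
      rw [← SchwartzMap.fourier_coe]
      exact SchwartzMap.norm_le_seminorm ℝ _ x
    obtain ⟨C', hC', hd'⟩ := classF he hk (n₀ := n₀ + 1) (by omega) (by linarith) h2 hc
      f.continuous hr hz2' hC hd hB
    have hcont : Continuous (𝓕 (f : V → ℂ)) := by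
      rw [← SchwartzMap.fourier_coe]
      exact (𝓕 f : 𝓢(V, ℂ)).continuous
    obtain ⟨C'', ε, hε, hfin⟩ := touch he hk (n₀ := n₀ + 1) (by omega) hα h2
      (c := c / 2) (C := C + C') (by positivity) f.continuous hcont hr (rad_fourier hr) rfl hff'
      hz1' hz2' (by positivity)
      (fun x => by
        refine (hd x).trans ?_
        have h3 : Real.exp (-(c * ‖x‖ ^ α)) ≤ Real.exp (-(c / 2 * ‖x‖ ^ α)) := by
          apply Real.exp_le_exp.2
          have : 0 ≤ c * ‖x‖ ^ α := by positivity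
          linarith
        calc C * Real.exp (-(c * ‖x‖ ^ α)) ≤ C * Real.exp (-(c / 2 * ‖x‖ ^ α)) :=
              mul_le_mul_of_nonneg_left h3 hC
          _ ≤ _ := mul_le_mul_of_nonneg_right (by linarith) (Real.exp_pos _).le)
      (fun x => by
        refine (hd' x).trans ?_
        exact mul_le_mul_of_nonneg_right (by linarith) (Real.exp_pos _).le)
    exact gaussian_class he hk f hr hz1 hz2 hε hfin

end Pool.Agent.GU
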